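import Pool.Agent.Helper36.BL.Main

/-!
# Uniform gap below `5`: definitions of the frame

All graphs live on one vertex type `V`; `P q X` is the value of the chromatic polynomial.
-/

set_option autoImplicit false

namespace Pool.Agent.U5

open SimpleGraph Finset Pool.Agent.Helper36.BL

/-- a minor closed class of graphs without `K₅` minor, closed under adding isolated vertices -/
structure Cls where
  mem : ∀ {V : Type}, SimpleGraph V → Prop
  minor : ∀ {W V : Type} {H : SimpleGraph W} {G : SimpleGraph V}, IsMinor H G → mem G → mem H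
  k5 : ∀ {V : Type} {G : SimpleGraph V}, mem G → K5Free G
  iso : ∀ {V : Type} {G : SimpleGraph V} (u : V), (∀ y, ¬ G.Adj u y) → mem (del G u) → mem G

/-- value of the chromatic polynomial -/
noncomputable def P (q : ℝ) {V : Type} [Fintype V] (G : SimpleGraph V) : ℝ := (cp G).eval q

/-- `P > 0` for all members of the class with fewer than `N` vertices -/
def Hyp (Cl : Cls) (q : ℝ) (N : ℕ) : Prop :=
  ∀ (V : Type) [Fintype V] (G : SimpleGraph V), Cl.mem G → Fintype.card V < N → 0 < P q G

section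

variable {V : Type}

/-- delete all edges meeting `A` (the vertices stay, isolated) -/
def dl (G : SimpleGraph V) (A : Finset V) : SimpleGraph V where
  Adj x y := G.Adj x y ∧ x ∉ A ∧ y ∉ A
  symm := ⟨fun _ _ h => ⟨h.1.symm, h.2.2, h.2.1⟩⟩
  loopless := ⟨fun _ h => h.1.ne rfl⟩

@[simp] lemma dl_adj (G : SimpleGraph V) (A : Finset V) (x y : V) :
    (dl G A).Adj x y ↔ G.Adj x y ∧ x ∉ A ∧ y ∉ A := Iff.rfl

/-- `(G - u) / z z'` on the same vertex set: `z` gets the edges of `z'`; the vertices `u` and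
`z'` become isolated -/
def red (G : SimpleGraph V) (u z z' : V) : SimpleGraph V where
  Adj x y := x ≠ y ∧ x ≠ u ∧ y ≠ u ∧ x ≠ z' ∧ y ≠ z' ∧
    (G.Adj x y ∨ (x = z ∧ G.Adj z' y) ∨ (y = z ∧ G.Adj z' x))
  symm := ⟨fun _ _ h => ⟨h.1.symm, h.2.2.1, h.2.1, h.2.2.2.2.1, h.2.2.2.1, by
    rcases h.2.2.2.2.2 with h | h | h
    · exact Or.inl h.symm
    · exact Or.inr (Or.inr h)
    · exact Or.inr (Or.inl h)⟩⟩
  loopless := ⟨fun _ h => h.1 rfl⟩

@[simp] lemma red_adj (G : SimpleGraph V) (u z z' x y : V) :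
    (red G u z z').Adj x y ↔ x ≠ y ∧ x ≠ u ∧ y ≠ u ∧ x ≠ z' ∧ y ≠ z' ∧
      (G.Adj x y ∨ (x = z ∧ G.Adj z' y) ∨ (y = z ∧ G.Adj z' x)) := Iff.rfl

/-- number of edges of `H` that are not in `B` -/
noncomputable def ned (H B : SimpleGraph V) : ℕ := (H.edgeSet \ B.edgeSet).ncard

open scoped Classical in
/-- the active vertices of `S`: those with an edge of `H` -/
noncomputable def act (H : SimpleGraph V) (S : Finset V) : Finset V :=
  S.filter (fun s => ∃ x, H.Adj s x)

/-- the potential `p(H/B) = m - 3 n` -/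
noncomputable def pot (B H : SimpleGraph V) (S : Finset V) : ℤ :=
  (ned H B : ℤ) - 3 * ((act H S).card : ℤ)

/-- `B ≤ H`, no edge of `B` meets `S` and `B` is connected (and nonempty) outside `S` -/
structure Data (B H : SimpleGraph V) (S : Finset V) : Prop where
  le : B ≤ H
  iso : ∀ s ∈ S, ∀ x, ¬ B.Adj s x
  conn : (B.induce {x | x ∉ S}).Connected

end

/-! ### thresholds -/

/-- the constant of the clique cut lemma -/
noncomputable def cs (c0 : ℝ) (m : ℕ) : ℝ := min c0 (1 / (4 * 5 ^ (2 * m + 3)))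

/-- the threshold function `κ₀(m, l) = ε₀(m, l)` -/
noncomputable def th (c0 : ℝ) : ℕ → ℝ → ℝ
  | 0 => fun l => cs c0 0 * l
  | m + 1 => fun l => min (l * th c0 m l) (min (cs c0 (m + 1) * l)
      ((fun x => min x (th c0 m x))^[m + 1] (l / 2) / 30))

/-- `H` is critical over `B` (with at most `m` new edges). `c0` is an absolute constant (it has to
be smaller than the constants of the certificates for patches). -/
structure Crt (Cl : Cls) (c0 q : ℝ) {V : Type} [Fintype V] (m : ℕ) (B H : SimpleGraph V) :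
    Prop where
  le : B ≤ H
  ne : B ≠ H
  mem : Cl.mem H
  card : ned H B ≤ m
  pos : 0 < P q B
  ex : ∃ l, 0 < l ∧ l ≤ 1 ∧ 5 - q < th c0 m l ∧ P q H ≤ th c0 m l * P q B ∧
    ∀ X, B ≤ X → X < H → l * P q B < P q X

/-- fixed parameters -/
structure Par (Cl : Cls) (c0 q : ℝ) (V : Type) [Fintype V] : Prop where
  c0pos : 0 < c0
  q5 : q < 5
  hyp : Hyp Cl q (Fintype.card V)

/-- start of the thresholds for the minimal counterexample -/
noncomputable def st (c0 : ℝ) (m : ℕ) : ℝ := (fun x => min x (th c0 m x))^[m + 1] (1 / 2)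

end Pool.Agent.U5
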