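import Pool.Agent.Helper1.PG.Minor
import Pool.Agent.Helper1.PG.Euler
import Pool.Agent.U5.Defs

/-!
# The class of planar graphs is an instance of `Cls`

Adding an isolated vertex stays in the class (pendant edge); no `K₅` minor.
-/

set_option autoImplicit false

namespace Pool.Agent.U5

open SimpleGraph Pool.Agent.Helper36.BL
open Pool.Agent.Helper1.PG (Lk LkOn Inc ind Cn IsPlane IsPl FC Simp Par gr Pl rtg_symm
  z2_add_self ind_congr ind_false ind_true lkOn_self)

section

variable {V F E : Type}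

/-- a pendant edge at `v0` -/
def pendA (a : E → V × V) (v0 : V) : Option E → Option V × Option V
  | none => (none, some v0)
  | some e => (some (a e).1, some (a e).2)

/-- the dual: a loop at `f0` -/
def pendB (b : E → F × F) (f0 : F) : Option E → F × F
  | none => (f0, f0)
  | some e => b e

lemma lk_pend {a : E → V × V} {v0 x y : V} (h : Lk a x y) :
    Lk (pendA a v0) (some x) (some y) := by
  obtain ⟨e, h | h⟩ := h
  · exact ⟨some e, Or.inl ⟨congrArg some h.1, congrArg some h.2⟩⟩
  · exact ⟨some e, Or.inr ⟨congrArg some h.1, congrArg some h.2⟩⟩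

lemma lk_pendB {b : E → F × F} {f0 x y : F} (h : Lk b x y) : Lk (pendB b f0) x y := by
  obtain ⟨e, h⟩ := h
  exact ⟨some e, h⟩

lemma lkOn_pend {a : E → V × V} {b : E → F × F} {v0 : V} {f0 f : F} {x y : V}
    (h : LkOn a (Inc b f) x y) :
    LkOn (pendA a v0) (Inc (pendB b f0) f) (some x) (some y) := by
  obtain ⟨e, he, h | h⟩ := h
  · exact ⟨some e, he, Or.inl ⟨congrArg some h.1, congrArg some h.2⟩⟩
  · exact ⟨some e, he, Or.inr ⟨congrArg some h.1, congrArg some h.2⟩⟩

lemma isPlane_pend [Fintype V] [Fintype F] [Fintype E] {a : E → V × V} {b : E → F × F}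
    (h : IsPlane a b) (v0 : V) (f0 : F) : IsPlane (pendA a v0) (pendB b f0) := by
  have hsymm : ∀ x y : Option V, Lk (pendA a v0) x y → Lk (pendA a v0) y x := fun x y h => h.symm
  have key : ∀ x : Option V, Relation.ReflTransGen (Lk (pendA a v0)) x (some v0) := by
    rintro (_ | x)
    · exact Relation.ReflTransGen.single ⟨none, Or.inl ⟨rfl, rfl⟩⟩
    · exact (h.conn x v0).lift some (fun _ _ h => lk_pend h)
  refine ⟨?_, ?_, ?_, ?_⟩
  · intro x y
    exact (key x).trans (rtg_symm hsymm (key y))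
  · intro x y
    have h1 := h.dconn x y
    induction h1 with
    | refl => exact Relation.ReflTransGen.refl
    | tail _ h2 ih => exact ih.tail (lk_pendB h2)
  · intro x f
    rw [Fintype.sum_option]
    have h1 : Pool.Agent.Helper1.PG.st (pendB b f0) f none = 0 := z2_add_self _
    rw [h1, mul_zero, zero_add]
    rcases x with _ | x
    · apply Finset.sum_eq_zero
      intro e _
      have h2 : Pool.Agent.Helper1.PG.st (pendA a v0) none (some e) = 0 := by
        unfold Pool.Agent.Helper1.PG.st pendA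
        rw [ind_false (by simp), ind_false (by simp), add_zero]
      rw [h2, zero_mul]
    · rw [← h.orth x f]
      apply Finset.sum_congr rfl
      intro e _
      have h2 : Pool.Agent.Helper1.PG.st (pendA a v0) (some x) (some e) =
          Pool.Agent.Helper1.PG.st a x e := by
        unfold Pool.Agent.Helper1.PG.st pendA
        rw [Pool.Agent.Helper1.PG.ind_congr (Option.some_inj),
          Pool.Agent.Helper1.PG.ind_congr (Option.some_inj)]
      have h3 : Pool.Agent.Helper1.PG.st (pendB b f0) f (some e) =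
        Pool.Agent.Helper1.PG.st b f e := rfl
      rw [h2, h3]
  · have h1 := h.euler
    rw [Fintype.card_option, Fintype.card_option]
    omega

lemma isPl_pend [Fintype V] [Fintype F] [Fintype E] {a : E → V × V} {b : E → F × F}
    (h : IsPl a b) (v0 : V) (f0 : F) (h0 : (∃ e, Inc a v0 e ∧ Inc b f0 e) ∨ IsEmpty E) :
    IsPl (pendA a v0) (pendB b f0) := by
  refine ⟨isPlane_pend h.toIsPlane v0 f0, ?_⟩
  have key : ∀ e, Inc b f0 e → Relation.ReflTransGen (LkOn (pendA a v0) (Inc (pendB b f0) f0))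
      none (some (a e).1) := by
    intro e he
    have h1 : LkOn (pendA a v0) (Inc (pendB b f0) f0) none (some v0) :=
      ⟨none, Or.inl rfl, Or.inl ⟨rfl, rfl⟩⟩
    refine Relation.ReflTransGen.head h1 ?_
    rcases h0 with ⟨e0, h2, h3⟩ | h2
    · have h4 := (h.fc f0 e0 e h3 he).lift some (fun _ _ h => lkOn_pend (v0 := v0) (f0 := f0) h)
      rcases h2 with h2 | h2
      · rw [h2] at h4
        exact h4
      · refine Relation.ReflTransGen.head ?_ h4
        have h5 : LkOn (pendA a v0) (Inc (pendB b f0) f0) (some (a e0).1) (some (a e0).2) :=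
          lkOn_pend (lkOn_self h3)
        have h6 := h5.symm
        rw [h2] at h6
        exact h6
    · exact h2.elim e
  have hsymm : ∀ f, ∀ x y : Option V, LkOn (pendA a v0) (Inc (pendB b f0) f) x y →
      LkOn (pendA a v0) (Inc (pendB b f0) f) y x := fun f x y h => h.symm
  intro f e e' he he'
  rcases e with _ | e
  · have hf : f0 = f := by
      rcases he with h | h
      · exact h
      · exact h
    subst hf
    rcases e' with _ | e'
    · exact Relation.ReflTransGen.refl
    · exact key e' he'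
  · rcases e' with _ | e'
    · have hf : f0 = f := by
        rcases he' with h | h
        · exact h
        · exact h
      subst hf
      exact rtg_symm (hsymm f0) (key e he)
    · exact (h.fc f e e' he he').lift some (fun _ _ h => lkOn_pend h)

lemma exists_face_at [Fintype V] [Fintype F] [Fintype E] {a : E → V × V} {b : E → F × F}
    (h : IsPlane a b) (v0 : V) : ∃ f0, (∃ e, Inc a v0 e ∧ Inc b f0 e) ∨ IsEmpty E := by
  classical
  by_cases h1 : ∃ e, Inc a v0 e
  · obtain ⟨e, he⟩ := h1
    exact ⟨(b e).1, Or.inl ⟨e, he, Or.inl rfl⟩⟩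
  · have h2 : ∀ v, v = v0 := by
      intro v
      by_contra hne
      obtain ⟨p, q, ⟨e, he⟩, h3, _⟩ := Pool.Agent.Helper1.PG.exists_step_ne
        (p := fun z => z = v0) (h.conn v0 v) rfl hne
      apply h1
      rcases he with ⟨h4, _⟩ | ⟨_, h4⟩
      · exact ⟨e, Or.inl (h4.trans h3)⟩
      · exact ⟨e, Or.inr (h4.trans h3)⟩
    have h3 : IsEmpty E := ⟨fun e => h1 ⟨e, Or.inl (h2 _)⟩⟩
    have h4 : Fintype.card V = 1 := Fintype.card_eq_one_iff.2 ⟨v0, h2⟩
    have h5 : Fintype.card E = 0 := Fintype.card_eq_zero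
    have h6 := h.euler
    have h7 : 0 < Fintype.card F := by omega
    obtain ⟨f0⟩ := Fintype.card_pos_iff.1 h7
    exact ⟨f0, Or.inr h3⟩

end

/-- adding an isolated vertex stays in the class -/
theorem Pl_iso {W : Type} {G : SimpleGraph W} (u : W) (hu : ∀ y, ¬ G.Adj u y)
    (h : Pl (Pool.Agent.Helper36.BL.del G u)) : Pl G := by
  classical
  obtain ⟨V, F, E, i1, i2, i3, a, b, hp, B, hB1, hB2, hB3⟩ := h
  have hV : Nonempty V := by
    by_contra hcon
    rw [not_nonempty_iff] at hcon
    have hE : IsEmpty E := ⟨fun e => hcon.elim (a e).1⟩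
    have h1 := hp.euler
    have h2 : Fintype.card V = 0 := Fintype.card_eq_zero
    have h3 : Fintype.card E = 0 := Fintype.card_eq_zero
    have h4 : 1 < Fintype.card F := by omega
    obtain ⟨f, g, hfg⟩ := Fintype.one_lt_card_iff.1 h4
    obtain ⟨p, q, ⟨e, _⟩, _, _⟩ := Pool.Agent.Helper1.PG.exists_step_ne
      (p := fun z => z = f) (hp.dconn f g) rfl (fun h => hfg h.symm)
    exact hE.elim e
  obtain ⟨v0⟩ := hV
  obtain ⟨f0, hf0⟩ := exists_face_at hp.toIsPlane v0
  refine ⟨Option V, F, Option E, inferInstance, inferInstance, inferInstance, pendA a v0,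
    pendB b f0, isPl_pend hp v0 f0 hf0, ?_⟩
  obtain ⟨B', e1, e2⟩ : ∃ B' : W → Set (Option V), (∀ w (h : w ≠ u), B' w = some '' B ⟨w, h⟩) ∧
      (∀ w, ¬ w ≠ u → B' w = {none}) :=
    ⟨fun w => if h : w ≠ u then some '' B ⟨w, h⟩ else {none}, fun w h => dif_pos h,
      fun w h => dif_neg h⟩
  refine ⟨B', ?_, ?_, ?_⟩
  · intro w
    by_cases hw : w ≠ u
    · rw [e1 w hw]
      let φ : (gr a).induce (B ⟨w, hw⟩) →g (gr (pendA a v0)).induce (some '' B ⟨w, hw⟩) :=
        { toFun := fun x => ⟨some x.1, x.1, x.2, rfl⟩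
          map_rel' := by
            intro x y hxy
            refine ⟨?_, lk_pend hxy.2⟩
            intro h
            exact hxy.1 (Option.some_injective _ h) }
      apply (hB1 ⟨w, hw⟩).map φ
      rintro ⟨_, x, hx, rfl⟩
      exact ⟨⟨x, hx⟩, rfl⟩
    · rw [e2 w hw]
      apply star_connected _ {none} none (Set.mem_singleton _)
      intro x hx hne
      exact absurd hx hne
  · intro w w' hne
    rw [Set.disjoint_left]
    intro x hx hx'
    by_cases hw : w ≠ u
    · rw [e1 w hw] at hx
      obtain ⟨y, hy, rfl⟩ := hx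
      by_cases hw' : w' ≠ u
      · rw [e1 w' hw'] at hx'
        obtain ⟨y', hy', h⟩ := hx'
        have hyy : y' = y := Option.some_injective _ h
        rw [hyy] at hy'
        exact Set.disjoint_left.1 (hB2 ⟨w, hw⟩ ⟨w', hw'⟩ (fun h => hne (congrArg Subtype.val h)))
          hy hy'
      · rw [e2 w' hw'] at hx'
        cases hx'
    · rw [e2 w hw] at hx
      by_cases hw' : w' ≠ u
      · rw [e1 w' hw'] at hx'
        obtain ⟨y', hy', h⟩ := hx'
        rw [← h] at hx
        cases hx
      · push Not at hw hw'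
        exact hne (hw.trans hw'.symm)
  · intro w w' hww
    have hw : w ≠ u := by
      rintro rfl
      exact hu _ hww
    have hw' : w' ≠ u := by
      rintro rfl
      exact hu _ hww.symm
    rw [e1 w hw, e1 w' hw']
    obtain ⟨x, hx, y, hy, hxy⟩ := hB3 ⟨w, hw⟩ ⟨w', hw'⟩ hww
    refine ⟨some x, ⟨x, hx, rfl⟩, some y, ⟨y, hy, rfl⟩, ?_, lk_pend hxy.2⟩
    intro h
    exact hxy.1 (Option.some_injective _ h)

/-- no `K₅` minor -/
theorem Pl_k5 {W : Type} {G : SimpleGraph W} (h : Pl G) : K5Free G := by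
  classical
  intro hm
  have h5 : Pl (⊤ : SimpleGraph (Fin 5)) := h.minor hm
  obtain ⟨F, E, i1, i2, a, b, hp, hl⟩ := h5.exists_spanning
  obtain ⟨F', E', i1', i2', a', b', hp', hs, hl', _⟩ := IsPl.exists_simple
    (fun u v : Fin 5 => u ≠ v) (by
      intro u v
      by_cases huv : u = v
      · subst huv
        exact Relation.ReflTransGen.refl
      · exact Relation.ReflTransGen.single (Or.inl huv)) _ F E a b rfl hp
      (fun u v huv _ => hl u v huv)
  have h1 := hp'.toIsPlane.card_edge_le hs (by simp)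
  have h2 : ∀ p : {p : Fin 5 × Fin 5 // p.1 < p.2}, ∃ e : E', ((a' e).1 = p.1.1 ∧ (a' e).2 = p.1.2) ∨
      ((a' e).1 = p.1.2 ∧ (a' e).2 = p.1.1) := fun p => hl' _ _ p.2.ne p.2.ne
  choose g hg using h2
  have h3 : Function.Injective g := by
    rintro ⟨⟨x, y⟩, hxy⟩ ⟨⟨x', y'⟩, hxy'⟩ h
    have e1 := hg ⟨⟨x, y⟩, hxy⟩
    have e2 := hg ⟨⟨x', y'⟩, hxy'⟩
    rw [h] at e1
    simp only at e1 e2 hxy hxy'
    rcases e1 with ⟨e1, e1'⟩ | ⟨e1, e1'⟩ <;> rcases e2 with ⟨e2, e2'⟩ | ⟨e2, e2'⟩
    · rw [e1] at e2; rw [e1'] at e2'; subst e2; subst e2'; rfl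
    · exfalso
      rw [e1] at e2; rw [e1'] at e2'; subst e2; subst e2'
      exact lt_asymm hxy hxy'
    · exfalso
      rw [e1] at e2; rw [e1'] at e2'; subst e2; subst e2'
      exact lt_asymm hxy hxy'
    · rw [e1] at e2; rw [e1'] at e2'; subst e2; subst e2'; rfl
  have h4 := Fintype.card_le_of_injective g h3
  have h6 : Fintype.card {p : Fin 5 × Fin 5 // p.1 < p.2} = 10 := by decide
  rw [h6] at h4
  rw [Fintype.card_fin] at h1
  omega

/-- the class of planar graphs -/
def plCls : Cls where
  mem := fun {_} G => Pl G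
  minor := fun hm h => h.minor hm
  k5 := Pl_k5
  iso := fun u hu h => Pl_iso u hu h

end Pool.Agent.U5
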