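import Pool.Agent.U5.Defs

/-!
# Uniform gap below five: the combinatorial interface (MP_0d034c_co)

All graphs live on one finite vertex type `V`; vertices may be isolated. `Good` collects what the
analysis (Frame) and the induction hypothesis give; everything after it is finite combinatorics.
-/

set_option autoImplicit false

namespace Pool.Agent.U5

open SimpleGraph Finset Pool.Agent.Helper36.BL
open scoped Classical

section pot

variable {V : Type} [Fintype V]

/-- number of neighbours of `v` outside `S` -/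
noncomputable def aV (X : SimpleGraph V) (S : Finset V) (v : V) : ℕ :=
  (Finset.univ.filter (fun x => x ∉ S ∧ X.Adj v x)).card

/-- degrees at least five at the active vertices of `S` -/
def Deg5 (X : SimpleGraph V) (S : Finset V) : Prop := ∀ s ∈ act X S, 5 ≤ deg X s

/-- no clique `T` with at most `m` vertices cuts off a nonempty set `K ⊆ act X S` -/
def CutFree (m : ℕ) (X : SimpleGraph V) (S : Finset V) : Prop :=
  ∀ T K : Finset V, K ⊆ act X S → Disjoint K T → K.Nonempty → T.card ≤ m →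
    (∀ x ∈ T, ∀ y ∈ T, x ≠ y → X.Adj x y) →
    (∀ x ∈ K, ∀ y, X.Adj x y → y ∈ K ∨ y ∈ T) → False

/-- the linear part of the bound: `η (n - c1)^+` -/
noncomputable def psi (η : ℝ) (c1 : ℕ) (n : ℕ) : ℝ := η * ((n - c1 : ℕ) : ℝ)

/-- the bound of theorem `T_lin` -/
noncomputable def phi (η : ℝ) (c1 : ℕ) (n : ℕ) : ℝ :=
  if n = 0 then 1 else if n = 1 then 2 else 3 + psi η c1 n

/-- the restrictions on the parameters of the bound -/
structure Prm (η : ℝ) (c1 : ℕ) : Prop where
  pos : 0 < η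
  ten : 10 ≤ c1
  small : η * (c1 + 10) ≤ 1 / 20

/-- The result of one reduction at `u` with the nonadjacent pair `z, z'`: a critical graph `X`
between `B` and `red H u z z'`. -/
structure RD (η : ℝ) (c1 : ℕ) (B H : SimpleGraph V) (S : Finset V) (u z z' : V)
    (X : SimpleGraph V) : Prop where
  data : Data B X S
  ne : B ≠ X
  hi : X ≤ red H u z z'
  deg5 : Deg5 X S
  cut : CutFree 3 X S
  pot : phi η c1 (act X S).card ≤ (pot B X S : ℝ)
  ez : ∃ x, X.Adj z x ∧ H.Adj z x ∧ ¬ H.Adj z' x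
  ez' : ∃ x, X.Adj z x ∧ H.Adj z' x ∧ ¬ H.Adj z x

/-- The combinatorial consequences of criticality and of the induction hypothesis. -/
structure Good (η : ℝ) (c1 : ℕ) (B H : SimpleGraph V) (S : Finset V) : Prop where
  data : Data B H S
  ne : B ≠ H
  deg5 : Deg5 H S
  cut : CutFree 3 H S
  sub : ∀ (Q : SimpleGraph V) (S' : Finset V), B < Q → Q < H → Data Q H S' →
    phi η c1 (act H S').card ≤ (U5.pot Q H S' : ℝ)
  red : ∀ u z z', u ∈ S → z ∈ S → z' ∈ S → deg H u = 5 → H.Adj u z → H.Adj u z' → z ≠ z' →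
    ¬ H.Adj z z' → ∃ X, RD η c1 B H S u z z' X

/-- no chords: every edge of `H` outside `S` is an edge of the base -/
def NoChord (B H : SimpleGraph V) (S : Finset V) : Prop :=
  ∀ x y, x ∉ S → y ∉ S → H.Adj x y → B.Adj x y

/-- `A` is connected in `X` (all pairs joined inside `A`) -/
def ConnIn (X : SimpleGraph V) (A : Finset V) : Prop :=
  ∀ x ∈ A, ∀ y ∈ A, ∃ p : X.Walk x y, ∀ v ∈ p.support, v ∈ A

/-- The separation property at `u` for the pair `z, z'` with common neighbour `y`. -/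
def Sep (H : SimpleGraph V) (S : Finset V) (u z z' y : V) : Prop :=
  ∀ A : Finset V, A ⊆ act H S → y ∈ A → u ∉ A → z ∉ A → z' ∉ A → ConnIn H A →
    (∃ p : H.Walk z z', ∀ v ∈ p.support, v ≠ u ∧ v ∉ A) →
    ∀ x ∈ A, H.Adj u x → x = y

/-- hypotheses of a reduction at `u` : pair `z, z'`, common neighbour `y` -/
structure RedHyp (H : SimpleGraph V) (S : Finset V) (u z z' y : V) : Prop where
  hu : u ∈ S
  hz : z ∈ S
  hz' : z' ∈ S
  hy : y ∈ S
  du : deg H u = 5
  uz : H.Adj u z
  uz' : H.Adj u z'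
  ne : z ≠ z'
  nadj : ¬ H.Adj z z'
  yu : y ≠ u
  zy : H.Adj z y
  zy' : H.Adj z' y
  au : aV H S u ≤ 1
  au' : ¬ H.Adj u y → aV H S u = 0
  other : ∃ x ∈ S, H.Adj u x ∧ x ≠ z ∧ x ≠ z' ∧ x ≠ y
  sep : Sep H S u z z' y

/-- outcome (O2) -/
def O2 (H : SimpleGraph V) (S : Finset V) (u z z' y : V) : Prop :=
  (∀ x ∈ S, H.Adj u x → x ≠ z → x ≠ z' → x ≠ y → 6 ≤ deg H x) ∧ 6 ≤ deg H y ∧
    (H.Adj u y → 7 ≤ deg H y)

/-- outcome (O3) -/
def O3 (H : SimpleGraph V) (S : Finset V) (u z z' y : V) : Prop :=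
  H.Adj u y ∧ deg H y = 5 ∧
    (∀ x ∈ S, H.Adj u x → x ≠ z → x ≠ z' → x ≠ y → 6 ≤ deg H x) ∧
    (∀ x ∈ S, H.Adj y x → x ≠ u → x ≠ z → x ≠ z' → 6 ≤ deg H x)

/-- outcome (O4) -/
def O4 (H : SimpleGraph V) (S : Finset V) (u z z' y : V) : Prop :=
  H.Adj u y ∧ aV H S u = 0 ∧ deg H y = 5 ∧ (∀ x ∈ S, H.Adj y x → x = u ∨ x = z ∨ x = z') ∧
    aV H S y = 2 ∧ aV H S z + aV H S z' = 5 ∧ 1 ≤ aV H S z ∧ 1 ≤ aV H S z'

/-- The statement delivered by T-E. -/
def Outcome (η : ℝ) (c1 : ℕ) (B H : SimpleGraph V) (S : Finset V) : Prop :=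
  ∀ u z z' y, RedHyp H S u z z' y → 3 ≤ pot B H S ∧
    ((pot B H S : ℝ) < phi η c1 (act H S).card → c1 < (act H S).card →
      O2 H S u z z' y ∨ O3 H S u z z' y ∨ O4 H S u z z' y)

end pot

/-- The graph `Γ = H / (complement of S)` on the active vertices and the base vertex `none`. -/
def gam {V : Type} (H : SimpleGraph V) (S : Finset V) :
    SimpleGraph (Option {s : V // s ∈ act H S}) where
  Adj x y := match x, y with
    | some s, some t => H.Adj s t
    | none, some t => ∃ b, b ∉ S ∧ H.Adj t b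
    | some s, none => ∃ b, b ∉ S ∧ H.Adj s b
    | none, none => False
  symm := by
    refine ⟨?_⟩
    rintro (_ | s) (_ | t) h
    · exact h
    · exact h
    · exact h
    · exact SimpleGraph.Adj.symm h
  loopless := by
    refine ⟨?_⟩
    rintro (_ | s) h
    · exact h
    · exact H.loopless.irrefl _ h

section

variable {V : Type} (H : SimpleGraph V) (S : Finset V)

@[simp] lemma gam_some_some (s t : {s : V // s ∈ act H S}) :
    (gam H S).Adj (some s) (some t) ↔ H.Adj s t := Iff.rfl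

@[simp] lemma gam_none_some (t : {s : V // s ∈ act H S}) :
    (gam H S).Adj none (some t) ↔ ∃ b, b ∉ S ∧ H.Adj t b := Iff.rfl

@[simp] lemma gam_some_none (t : {s : V // s ∈ act H S}) :
    (gam H S).Adj (some t) none ↔ ∃ b, b ∉ S ∧ H.Adj t b := Iff.rfl

@[simp] lemma gam_none_none : (gam H S).Adj none none ↔ False := Iff.rfl

end

end Pool.Agent.U5
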