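import Pool.Agent.U5.Glue

/-!
# The frame: closure properties of critical pairs
-/

set_option autoImplicit false

namespace Pool.Agent.U5

open SimpleGraph Finset Pool.Agent.Helper36.BL
open scoped Classical

/-! ### thresholds -/

lemma cs_pos {c0 : ℝ} (h : 0 < c0) (m : ℕ) : 0 < cs c0 m := by
  unfold cs
  exact lt_min h (by positivity)

lemma cs_le (c0 : ℝ) (m : ℕ) : cs c0 m ≤ c0 := min_le_left _ _

lemma cs_le' (c0 : ℝ) (m : ℕ) : cs c0 m ≤ 1 / (4 * 5 ^ (2 * m + 3)) := min_le_right _ _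

lemma cs_le'' (c0 : ℝ) (m : ℕ) : cs c0 m ≤ 1 / 500 := by
  refine (cs_le' c0 m).trans ?_
  have h1 : (1 : ℝ) ≤ 5 ^ (2 * m) := one_le_pow₀ (by norm_num)
  rw [pow_add]
  apply one_div_le_one_div_of_le (by norm_num)
  nlinarith

/-- the step of the thresholds -/
noncomputable def fs (c0 : ℝ) (m : ℕ) (x : ℝ) : ℝ := min x (th c0 m x)

lemma th_zero (c0 l : ℝ) : th c0 0 l = cs c0 0 * l := rfl

lemma th_succ (c0 : ℝ) (m : ℕ) (l : ℝ) : th c0 (m + 1) l =
    min (l * th c0 m l) (min (cs c0 (m + 1) * l) ((fs c0 m)^[m + 1] (l / 2) / 30)) := rfl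

lemma th_le_cs (c0 : ℝ) (m : ℕ) (l : ℝ) : th c0 m l ≤ cs c0 m * l := by
  cases m with
  | zero => exact le_rfl
  | succ m =>
    rw [th_succ]
    exact (min_le_right _ _).trans (min_le_left _ _)

lemma fs_iter {c0 : ℝ} {m : ℕ} (h : ∀ l, 0 < l → l ≤ 1 → 0 < th c0 m l) (k : ℕ) (x : ℝ)
    (h0 : 0 < x) (h1 : x ≤ 1) : 0 < (fs c0 m)^[k] x ∧ (fs c0 m)^[k] x ≤ x := by
  induction k with
  | zero => exact ⟨h0, le_rfl⟩
  | succ k ih =>
    rw [Function.iterate_succ_apply']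
    refine ⟨lt_min ih.1 (h _ ih.1 (ih.2.trans h1)), (min_le_left _ _).trans ih.2⟩

lemma th_pos {c0 : ℝ} (hc : 0 < c0) (m : ℕ) : ∀ l, 0 < l → l ≤ 1 → 0 < th c0 m l := by
  induction m with
  | zero =>
    intro l hl _
    rw [th_zero]
    exact mul_pos (cs_pos hc 0) hl
  | succ m ih =>
    intro l hl hl1
    rw [th_succ]
    refine lt_min (mul_pos hl (ih l hl hl1)) (lt_min (mul_pos (cs_pos hc _) hl) ?_)
    have := (fs_iter ih (m + 1) (l / 2) (by linarith) (by linarith)).1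
    linarith

lemma fs_iter_anti {c0 : ℝ} {m : ℕ} {a b : ℕ} (hab : a ≤ b) (x : ℝ) :
    (fs c0 m)^[b] x ≤ (fs c0 m)^[a] x := by
  induction b, hab using Nat.le_induction with
  | base => exact le_rfl
  | succ b _ ih =>
    rw [Function.iterate_succ_apply']
    exact (min_le_left _ _).trans ih

lemma fs_iter_le_th {c0 : ℝ} {m : ℕ} (k : ℕ) (x : ℝ) :
    (fs c0 m)^[k + 1] x ≤ th c0 m ((fs c0 m)^[k] x) := by
  rw [Function.iterate_succ_apply']
  exact min_le_right _ _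

/-! ### edge counts -/

section

variable {V : Type} [Fintype V]

lemma ned_lt {B Q H : SimpleGraph V} (hBQ : B < Q) (hQH : Q ≤ H) : ned H Q < ned H B := by
  unfold ned
  apply Set.ncard_lt_ncard _ (Set.toFinite _)
  obtain ⟨e, he, he'⟩ := Set.exists_of_ssubset (edgeSet_ssubset_edgeSet.2 hBQ)
  refine ⟨?_, ?_⟩
  · intro x hx
    exact ⟨hx.1, fun h => hx.2 (edgeSet_subset_edgeSet.2 hBQ.le h)⟩
  · intro hsub
    have h1 : e ∈ H.edgeSet \ B.edgeSet := ⟨edgeSet_subset_edgeSet.2 hQH he, he'⟩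
    exact (hsub h1).2 he

lemma ned_lt' {B X H : SimpleGraph V} (hBX : B ≤ X) (hXH : X < H) : ned X B < ned H B := by
  unfold ned
  apply Set.ncard_lt_ncard _ (Set.toFinite _)
  obtain ⟨e, he, he'⟩ := Set.exists_of_ssubset (edgeSet_ssubset_edgeSet.2 hXH)
  refine ⟨?_, ?_⟩
  · intro x hx
    exact ⟨edgeSet_subset_edgeSet.2 hXH.le hx.1, hx.2⟩
  · intro hsub
    have h1 : e ∈ H.edgeSet \ B.edgeSet :=
      ⟨he, fun h => he' (edgeSet_subset_edgeSet.2 hBX h)⟩
    exact he' (hsub h1).1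

lemma eq_of_ned {B H : SimpleGraph V} (hBH : B ≤ H) (h : ned H B = 0) : B = H := by
  by_contra hne
  have := ned_pos (lt_of_le_of_ne hBH hne)
  omega

lemma card_active_le {B H : SimpleGraph V} (K : Finset V)
    (hK : ∀ k ∈ K, ∃ x, H.Adj k x ∧ ¬ B.Adj k x) : K.card ≤ 2 * ned H B := by
  set E : Finset (Sym2 V) := (H.edgeSet \ B.edgeSet).toFinset with hE
  have hEc : ned H B = E.card := by
    unfold ned
    rw [Set.ncard_eq_toFinset_card']
  have hsub : K ⊆ E.image (fun e => (Quot.out e).1) ∪ E.image (fun e => (Quot.out e).2) := by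
    intro k hk
    obtain ⟨x, hx, hx'⟩ := hK k hk
    have he : s(k, x) ∈ E := by
      rw [hE, Set.mem_toFinset]
      exact ⟨hx, hx'⟩
    have h1 : s((Quot.out s(k, x)).1, (Quot.out s(k, x)).2) = s(k, x) := Quot.out_eq _
    rw [Sym2.eq_iff] at h1
    rw [Finset.mem_union, Finset.mem_image, Finset.mem_image]
    rcases h1 with h1 | h1
    · exact Or.inl ⟨_, he, h1.1⟩
    · exact Or.inr ⟨_, he, h1.2⟩
  have h1 := Finset.card_le_card hsub
  have h2 := Finset.card_union_le (E.image (fun e => (Quot.out e).1))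
    (E.image (fun e => (Quot.out e).2))
  have h3 : (E.image (fun e => (Quot.out e).1)).card ≤ E.card := Finset.card_image_le
  have h4 : (E.image (fun e => (Quot.out e).2)).card ≤ E.card := Finset.card_image_le
  omega

lemma dl_le (H : SimpleGraph V) (A : Finset V) : dl H A ≤ H := fun _ _ h => h.1

lemma le_dl {B H : SimpleGraph V} (hBH : B ≤ H) {A : Finset V}
    (hA : ∀ s ∈ A, ∀ x, ¬ B.Adj s x) : B ≤ dl H A :=
  fun x y h => ⟨hBH h, fun hx => hA x hx y h, fun hy => hA y hy x h.symm⟩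

lemma dl_lt {H : SimpleGraph V} {A : Finset V} (h : ∃ s ∈ A, ∃ x, H.Adj s x) : dl H A < H := by
  refine lt_of_le_of_ne (dl_le H A) ?_
  intro heq
  obtain ⟨s, hs, x, hx⟩ := h
  rw [← heq] at hx
  exact hx.2.1 hs

end

variable {Cl : Cls} {c0 q : ℝ} {V : Type} [Fintype V]

lemma Crt.lt {m : ℕ} {B H : SimpleGraph V} (h : Crt Cl c0 q m B H) : B < H :=
  lt_of_le_of_ne h.le h.ne

/-- (0.1) -/
theorem Crt.up (hp : Par Cl c0 q V) {m : ℕ} {B Q H : SimpleGraph V} (h : Crt Cl c0 q (m + 1) B H)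
    (hBQ : B < Q) (hQH : Q < H) : Crt Cl c0 q m Q H := by
  obtain ⟨l, hl0, hl1, hq, hdead, halive⟩ := h.ex
  have hmemQ : Cl.mem Q := Cl.minor (IsMinor.of_le hQH.le) h.mem
  have hPQ := halive Q hBQ.le hQH
  have hB := h.pos
  have hlB : 0 < l * P q B := mul_pos hl0 hB
  have hth := th_pos hp.c0pos m l hl0 hl1
  have h1 : th c0 (m + 1) l ≤ l * th c0 m l := by
    rw [th_succ]
    exact min_le_left _ _
  refine ⟨hQH.le, hQH.ne, h.mem, ?_, by linarith, l, hl0, hl1, ?_, ?_, ?_⟩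
  · have := ned_lt hBQ hQH.le
    have := h.card
    omega
  · nlinarith
  · have h2 : th c0 (m + 1) l * P q B ≤ l * th c0 m l * P q B :=
      mul_le_mul_of_nonneg_right h1 hB.le
    have h3 : th c0 m l * (l * P q B) ≤ th c0 m l * P q Q :=
      mul_le_mul_of_nonneg_left hPQ.le hth.le
    linarith
  · intro X hQX hXH
    have h4 := halive X (hBQ.le.trans hQX) hXH
    have h5 := P_le hp.hyp hBQ.le hmemQ
    have h6 : l * P q Q ≤ l * P q B := mul_le_mul_of_nonneg_left h5 hl0.le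
    linarith

/-- no critical pair with `m = 0` -/
theorem Crt.not_zero {B H : SimpleGraph V} (h : Crt Cl c0 q 0 B H) : False := by
  have h1 := ned_pos h.lt
  have h2 := h.card
  omega

/-- the strong form of (0.3) -/
lemma Crt.small_cs (hp : Par Cl c0 q V) {m : ℕ} {B X H : SimpleGraph V}
    (h : Crt Cl c0 q m B H) (hBX : B ≤ X) (hXH : X < H) :
    P q H < cs c0 m * P q X ∧ 0 < P q X := by
  obtain ⟨l, hl0, hl1, hq, hdead, halive⟩ := h.ex
  have h1 := halive X hBX hXH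
  have h2 := th_le_cs c0 m l
  have h3 := cs_pos hp.c0pos m
  have hlB : 0 < l * P q B := mul_pos hl0 h.pos
  have h4 : th c0 m l * P q B ≤ cs c0 m * l * P q B := mul_le_mul_of_nonneg_right h2 h.pos.le
  have h5 : cs c0 m * (l * P q B) < cs c0 m * P q X := mul_lt_mul_of_pos_left h1 h3
  exact ⟨by linarith, by linarith⟩

/-- (0.3): `P(H)` is much smaller than `P(X)` for every `X` between `B` and `H` -/
theorem Crt.small (hp : Par Cl c0 q V) {m : ℕ} {B X H : SimpleGraph V} (h : Crt Cl c0 q m B H)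
    (hBX : B ≤ X) (hXH : X < H) : P q H < c0 * P q X := by
  obtain ⟨h1, h2⟩ := h.small_cs hp hBX hXH
  have h3 : cs c0 m * P q X ≤ c0 * P q X := mul_le_mul_of_nonneg_right (cs_le c0 m) h2.le
  linarith

lemma Crt.q_cs (hp : Par Cl c0 q V) {m : ℕ} {B H : SimpleGraph V} (h : Crt Cl c0 q m B H) :
    5 - q < cs c0 m := by
  obtain ⟨l, hl0, hl1, hq, hdead, halive⟩ := h.ex
  have h2 := th_le_cs c0 m l
  have h3 := cs_pos hp.c0pos m
  nlinarith

/-- `q` is close to `5` -/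
theorem Crt.q_close (hp : Par Cl c0 q V) {m : ℕ} {B H : SimpleGraph V} (h : Crt Cl c0 q m B H) :
    5 - c0 < q ∧ 49 / 10 < q := by
  have h1 := h.q_cs hp
  have h2 := cs_le c0 m
  have h3 := cs_le'' c0 m
  constructor <;> linarith

/-- (1.1) -/
theorem Crt.five_le (hp : Par Cl c0 q V) {m : ℕ} {B H : SimpleGraph V} (h : Crt Cl c0 q m B H)
    (s : V) (hs : ∀ x, ¬ B.Adj s x) (hact : ∃ x, H.Adj s x) : 5 ≤ deg H s := by
  by_contra hcon
  have hd : (deg H s : ℝ) ≤ 4 := by exact_mod_cast (by omega : deg H s ≤ 4)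
  have hq := (h.q_close hp).2
  have hq5 := hp.q5
  have h1 := P_ge_dl (by linarith : (0 : ℝ) ≤ q) hp.hyp h.mem s
  obtain ⟨h2, h3⟩ := h.small_cs hp (X := dl H {s})
    (le_dl h.le (by intro t ht; rw [Finset.mem_singleton] at ht; rw [ht]; exact hs))
    (dl_lt ⟨s, Finset.mem_singleton_self s, hact⟩)
  have h4 := cs_le'' c0 m
  have h5 : 9 / 10 * P q (dl H {s}) ≤ (q - deg H s) * P q (dl H {s}) :=
    mul_le_mul_of_nonneg_right (by linarith) h3.le
  have h6 : cs c0 m * P q (dl H {s}) ≤ 1 / 500 * P q (dl H {s}) :=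
    mul_le_mul_of_nonneg_right h4 h3.le
  have h7 : 0 < P q H := by
    by_contra hcon2
    rw [not_lt] at hcon2
    have : q * P q H ≤ 0 := mul_nonpos_of_nonneg_of_nonpos (by linarith) hcon2
    linarith
  have h8 : q * P q H ≤ 5 * P q H := mul_le_mul_of_nonneg_right hq5.le h7.le
  linarith

/-- (1.2) clique cuts: `T` is a clique of `H`, no edge of `H` joins `K` to the complement of
`K ∪ T`, no edge of `B` meets `K` -/
theorem Crt.cut (hp : Par Cl c0 q V) {m : ℕ} {B H : SimpleGraph V} (h : Crt Cl c0 q m B H)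
    (T K : Finset V) (hT : T.card ≤ 3) (hTc : ∀ x ∈ T, ∀ y ∈ T, x ≠ y → H.Adj x y)
    (hTK : Disjoint K T) (hK : ∀ s ∈ K, ∀ x, ¬ B.Adj s x) (hact : ∃ s ∈ K, ∃ x, H.Adj s x)
    (hKT : ∀ s ∈ K, ∀ x, H.Adj s x → x ∈ K ∨ x ∈ T) : False := by
  set K' : Finset V := K.filter (fun s => ∃ x, H.Adj s x) with hK'
  have hsub : K' ⊆ K := Finset.filter_subset _ _
  have hact' : ∃ s ∈ K', ∃ x, H.Adj s x := by
    obtain ⟨s, hs, x, hx⟩ := hact
    exact ⟨s, Finset.mem_filter.2 ⟨hs, x, hx⟩, x, hx⟩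
  have hcard : K'.card ≤ 2 * ned H B := by
    apply card_active_le
    intro k hk
    obtain ⟨hk1, x, hx⟩ := Finset.mem_filter.1 hk
    exact ⟨x, hx, hK k hk1 x⟩
  have hq := h.q_close hp
  have hs : (K' ∪ T).card ≤ 2 * m + 3 := by
    have h1 := Finset.card_union_le K' T
    have h2 := h.card
    omega
  have hqcs := h.q_cs hp
  have hsq : ((2 * m + 3 : ℕ) : ℝ) * (5 - q) ≤ 1 := by
    have h1 : ((2 * m + 3 : ℕ) : ℝ) ≤ 5 ^ (2 * m + 3) := by
      have : 2 * m + 3 < 5 ^ (2 * m + 3) := Nat.lt_pow_self (by norm_num)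
      exact_mod_cast this.le
    have h2 : 5 - q ≤ 1 / (4 * 5 ^ (2 * m + 3)) := hqcs.le.trans (cs_le' c0 m)
    have h3 : (0 : ℝ) < 5 ^ (2 * m + 3) := by positivity
    have hq5 := hp.q5
    calc ((2 * m + 3 : ℕ) : ℝ) * (5 - q) ≤ 5 ^ (2 * m + 3) * (5 - q) :=
          mul_le_mul_of_nonneg_right h1 (by linarith)
      _ ≤ 5 ^ (2 * m + 3) * (1 / (4 * 5 ^ (2 * m + 3))) := mul_le_mul_of_nonneg_left h2 h3.le
      _ = 1 / 4 := by field_simp
      _ ≤ 1 := by norm_num
  have hc := P_cut hp.hyp (by linarith [hq.2]) hp.q5 h.mem K' T hTc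
    (Finset.disjoint_of_subset_left hsub hTK) (by
      intro s hs x hx
      rcases hKT s (hsub hs) x hx with h1 | h1
      · exact Or.inl (Finset.mem_filter.2 ⟨h1, s, hx.symm⟩)
      · exact Or.inr h1) (by obtain ⟨s, hs, _⟩ := hact'; exact ⟨s, hs⟩) (2 * m + 3) hs hsq
  obtain ⟨h2, h3⟩ := h.small_cs hp (X := dl H K') (le_dl h.le (fun s hs => hK s (hsub hs)))
    (dl_lt hact')
  have h4 : cs c0 m * P q (dl H K') ≤ 1 / (4 * 5 ^ (2 * m + 3)) * P q (dl H K') :=
    mul_le_mul_of_nonneg_right (cs_le' c0 m) h3.le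
  linarith

/-- extraction (0.2) -/
lemma extract (hp : Par Cl c0 q V) {m : ℕ} {B : SimpleGraph V} (hB : 0 < P q B) {y : ℝ}
    (hy0 : 0 < y) (hy1 : y < 1) (hq : 5 - q < (fs c0 m)^[m + 1] y) :
    ∀ (k : ℕ) (H1 : SimpleGraph V), k ≤ m → B ≤ H1 → Cl.mem H1 → ned H1 B ≤ k →
      P q H1 ≤ (fs c0 m)^[k + 1] y * P q B →
      ∃ H' : SimpleGraph V, H' ≤ H1 ∧ Crt Cl c0 q m B H' ∧ P q H' ≤ y * P q B := by
  have hth := th_pos hp.c0pos m
  intro k
  induction k with
  | zero =>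
    intro H1 _ hBH1 _ hned hP
    exfalso
    have h1 : B = H1 := eq_of_ned hBH1 (by omega)
    rw [← h1] at hP
    have h2 := (fs_iter hth 1 y hy0 hy1.le).2
    have h3 : (fs c0 m)^[0 + 1] y * P q B ≤ y * P q B := mul_le_mul_of_nonneg_right h2 hB.le
    nlinarith
  | succ k ih =>
    intro H1 hk hBH1 hmem hned hP
    set l' := (fs c0 m)^[k + 1] y with hl'
    obtain ⟨hl0, hly⟩ := fs_iter hth (k + 1) y hy0 hy1.le
    by_cases hal : ∀ X, B ≤ X → X < H1 → l' * P q B < P q X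
    · refine ⟨H1, le_rfl, ⟨hBH1, ?_, hmem, hned.trans hk, hB, l', hl0, by linarith, ?_, ?_, hal⟩, ?_⟩
      · intro h1
        rw [← h1] at hP
        have h2 := (fs_iter hth (k + 1 + 1) y hy0 hy1.le).2
        have h3 : (fs c0 m)^[k + 1 + 1] y * P q B ≤ y * P q B :=
          mul_le_mul_of_nonneg_right h2 hB.le
        nlinarith
      · have h1 := fs_iter_le_th (c0 := c0) (m := m) (k + 1) y
        have h2 : (fs c0 m)^[m + 1] y ≤ (fs c0 m)^[k + 1 + 1] y := fs_iter_anti (by omega) y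
        linarith
      · have h1 := fs_iter_le_th (c0 := c0) (m := m) (k + 1) y
        exact hP.trans (mul_le_mul_of_nonneg_right h1 hB.le)
      · have h2 := (fs_iter hth (k + 1 + 1) y hy0 hy1.le).2
        exact hP.trans (mul_le_mul_of_nonneg_right h2 hB.le)
    · push Not at hal
      obtain ⟨X, hBX, hXH, hPX⟩ := hal
      have h1 := ned_lt' hBX hXH
      obtain ⟨H', h2, h3, h4⟩ := ih X (by omega) hBX
        (Cl.minor (IsMinor.of_le hXH.le) hmem) (by omega) hPX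
      exact ⟨H', h2.trans hXH.le, h3, h4⟩

lemma mem_red {H : SimpleGraph V} (hH : Cl.mem H) {u z z' : V} (huz : H.Adj u z)
    (huz' : H.Adj u z') : Cl.mem (red H u z z') := by
  have hzu : z ≠ u := huz.ne'
  have hzu' : z' ≠ u := huz'.ne'
  apply Cl.iso (G := red H u z z') u (fun y (h : (red H u z z').Adj u y) => h.2.1 rfl)
  apply Cl.iso (G := del (red H u z z') u) (⟨z', hzu'⟩ : {x : V // x ≠ u})
    (fun y (h : (red H u z z').Adj z' y) => h.2.2.2.1 rfl)
  rw [del_red H u z z' hzu hzu']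
  exact Cl.minor (isMinor_mg_del H u ⟨z, hzu⟩ ⟨z', hzu'⟩ ∅ huz huz'
    (fun m hm => absurd hm (Set.notMem_empty _))) hH

lemma ned_red_lt {B H : SimpleGraph V} {u z z' : V} (hz : ∀ x, ¬ B.Adj z x)
    (hz' : ∀ x, ¬ B.Adj z' x) (huz : H.Adj u z) (huz' : H.Adj u z') :
    ned (red H u z z') B < ned H B := by
  have h0 : s(u, z) ∈ H.edgeSet \ B.edgeSet := ⟨huz, fun h : B.Adj u z => hz u h.symm⟩
  have h1 : ((H.edgeSet \ B.edgeSet) \ {s(u, z)}).ncard + 1 = ned H B :=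
    Set.ncard_sdiff_singleton_add_one h0 (Set.toFinite _)
  have h2 : (red H u z z').edgeSet \ B.edgeSet ⊆
      (Sym2.map (fun v => if v = z' then z else v)) '' ((H.edgeSet \ B.edgeSet) \ {s(u, z)}) := by
    intro e
    induction e with
    | _ x y =>
    rintro ⟨he, heB⟩
    have he' : (red H u z z').Adj x y := he
    have heB' : ¬ B.Adj x y := heB
    obtain ⟨hne, hxu, hyu, hxz, hyz, h3 | ⟨h3, h4⟩ | ⟨h3, h4⟩⟩ := he'
    · refine ⟨s(x, y), ⟨⟨h3, heB'⟩, ?_⟩, ?_⟩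
      · rw [Set.mem_singleton_iff, Sym2.eq_iff]
        rintro (h5 | h5)
        · exact hxu h5.1
        · exact hyu h5.2
      · rw [Sym2.map_mk, if_neg hxz, if_neg hyz]
    · refine ⟨s(z', y), ⟨⟨h4, hz' y⟩, ?_⟩, ?_⟩
      · rw [Set.mem_singleton_iff, Sym2.eq_iff]
        rintro (h5 | h5)
        · exact huz'.ne h5.1.symm
        · exact hyu h5.2
      · rw [Sym2.map_mk, if_pos rfl, if_neg hyz, h3]
    · refine ⟨s(x, z'), ⟨⟨h4.symm, fun h : B.Adj x z' => hz' x h.symm⟩, ?_⟩, ?_⟩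
      · rw [Set.mem_singleton_iff, Sym2.eq_iff]
        rintro (h5 | h5)
        · exact hxu h5.1
        · exact huz'.ne h5.2.symm
      · rw [Sym2.map_mk, if_neg hxz, if_pos rfl, h3]
  have h3 : ned (red H u z z') B ≤ ((H.edgeSet \ B.edgeSet) \ {s(u, z)}).ncard := by
    unfold ned
    exact (Set.ncard_le_ncard h2 (Set.toFinite _)).trans (Set.ncard_image_le (Set.toFinite _))
  omega

/-- (0.2) + (2.): the reduction at a vertex `u` of degree five -/
theorem Crt.reduce (hp : Par Cl c0 q V) {m : ℕ} {B H : SimpleGraph V}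
    (h : Crt Cl c0 q (m + 1) B H) (u z z' : V) (hu : ∀ x, ¬ B.Adj u x) (hz : ∀ x, ¬ B.Adj z x)
    (hz' : ∀ x, ¬ B.Adj z' x) (hd : deg H u = 5) (huz : H.Adj u z) (huz' : H.Adj u z')
    (hne : z ≠ z') (hna : ¬ H.Adj z z') :
    ∃ H' : SimpleGraph V, B < H' ∧ H' ≤ red H u z z' ∧ Crt Cl c0 q m B H' ∧
      ∀ X Y : SimpleGraph V, B ≤ X → X < H → H' ≤ Y → Nonempty (X ≃g Y) → False := by
  obtain ⟨l, hl0, hl1, hq, hdead, halive⟩ := h.ex
  have hqc := (h.q_close hp).2
  have hq5 := hp.q5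
  have hB := h.pos
  have hthm := th_pos hp.c0pos m
  have hth := th_pos hp.c0pos (m + 1) l hl0 hl1
  have h30 : th c0 (m + 1) l ≤ (fs c0 m)^[m + 1] (l / 2) / 30 := by
    rw [th_succ]
    exact (min_le_right _ _).trans (min_le_right _ _)
  have hBred : B ≤ red H u z z' := by
    intro x y hxy
    refine ⟨hxy.ne, ?_, ?_, ?_, ?_, Or.inl (h.le hxy)⟩
    · rintro rfl
      exact hu y hxy
    · rintro rfl
      exact hu x hxy.symm
    · rintro rfl
      exact hz' y hxy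
    · rintro rfl
      exact hz' x hxy.symm
  have h1 := P_ge_red (by linarith : (0 : ℝ) ≤ q) hp.hyp h.mem huz huz' hne hna
  have hBu : P q (dl H {u}) ≤ P q B := by
    apply P_le hp.hyp
    · exact le_dl h.le (by intro t ht; rw [Finset.mem_singleton] at ht; rw [ht]; exact hu)
    · exact Cl.minor (IsMinor.of_le (dl_le H {u})) h.mem
  have hd' : (deg H u : ℝ) = 5 := by exact_mod_cast hd
  rw [hd'] at h1
  have h2 : P q (red H u z z') ≤ q ^ 2 * P q H + q * (5 - q) * P q B := by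
    have h3 : q * (5 - q) * P q (dl H {u}) ≤ q * (5 - q) * P q B :=
      mul_le_mul_of_nonneg_left hBu (mul_nonneg (by linarith) (by linarith))
    linarith
  have h3 : q ^ 2 * P q H ≤ 25 * (th c0 (m + 1) l * P q B) := by
    have h4 : q ^ 2 * P q H ≤ q ^ 2 * (th c0 (m + 1) l * P q B) :=
      mul_le_mul_of_nonneg_left hdead (by positivity)
    have h5 : q ^ 2 * (th c0 (m + 1) l * P q B) ≤ 25 * (th c0 (m + 1) l * P q B) := by
      apply mul_le_mul_of_nonneg_right _ (by positivity)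
      nlinarith
    linarith
  have h4 : q * (5 - q) * P q B ≤ 5 * (th c0 (m + 1) l * P q B) := by
    have h5 : q * (5 - q) ≤ 5 * th c0 (m + 1) l := by
      have h6 : q * (5 - q) ≤ 5 * (5 - q) := mul_le_mul_of_nonneg_right hq5.le (by linarith)
      linarith
    calc q * (5 - q) * P q B ≤ 5 * th c0 (m + 1) l * P q B :=
          mul_le_mul_of_nonneg_right h5 hB.le
      _ = 5 * (th c0 (m + 1) l * P q B) := by ring
  have h5 : P q (red H u z z') ≤ (fs c0 m)^[m + 1] (l / 2) * P q B := by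
    have h6 : th c0 (m + 1) l * P q B ≤ (fs c0 m)^[m + 1] (l / 2) / 30 * P q B :=
      mul_le_mul_of_nonneg_right h30 hB.le
    linarith
  have hqs : 5 - q < (fs c0 m)^[m + 1] (l / 2) := by
    have := (fs_iter hthm (m + 1) (l / 2) (by linarith) (by linarith)).1
    linarith
  obtain ⟨H', hH', hcr, hPH'⟩ := extract hp hB (y := l / 2) (by linarith) (by linarith) hqs m
    (red H u z z') le_rfl hBred (mem_red h.mem huz huz')
    (by have := ned_red_lt (B := B) hz hz' huz huz'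
        have := h.card
        omega) h5
  refine ⟨H', hcr.lt, hH', hcr, ?_⟩
  rintro X Y hBX hXH hHY ⟨e⟩
  have hmemY : Cl.mem Y := by
    refine Cl.minor (IsMinor.of_inj (fun v => e.symm v) e.symm.injective ?_) h.mem
    intro v w hvw
    exact hXH.le (e.symm.map_rel_iff.2 hvw)
  have h7 : P q X = P q Y := P_iso q e
  have h8 := P_le hp.hyp hHY hmemY
  have h9 := halive X hBX hXH
  nlinarith

/-- start: the minimal counterexample -/
theorem exists_crt (hp : Par Cl c0 q V) {m : ℕ} (hq : 5 - st c0 m < q) {B G : SimpleGraph V}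
    (hBG : B ≤ G) (hG : Cl.mem G) (hcard : ned G B ≤ m) (hB : 0 < P q B) (h0 : P q G ≤ 0) :
    ∃ H : SimpleGraph V, H ≤ G ∧ Crt Cl c0 q m B H := by
  have hst : st c0 m = (fs c0 m)^[m + 1] (1 / 2) := rfl
  rw [hst] at hq
  have hpos := (fs_iter (th_pos hp.c0pos m) (m + 1) (1 / 2) (by norm_num) (by norm_num)).1
  obtain ⟨H', h1, h2, _⟩ := extract hp hB (y := 1 / 2) (by norm_num) (by norm_num)
    (by linarith) m G le_rfl hBG hG hcard (h0.trans (by positivity))
  exact ⟨H', h1, h2⟩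

lemma st_pos {c0 : ℝ} (hc : 0 < c0) (m : ℕ) : 0 < st c0 m :=
  (fs_iter (th_pos hc m) (m + 1) (1 / 2) (by norm_num) (by norm_num)).1

end Pool.Agent.U5
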