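import Mathlib

/-!
# Flat vertices and the flat patch of radius two

`IsFrame H v n`: the neighbours of `v` are the six distinct vertices `n 0, ..., n 5` and they
induce a hexagon in this cyclic order. If all vertices at distance at most `2` from `c` are flat,
the triangular lattice ball of radius `3` maps to `H` around `c`, with the neighbourhoods of all
points of the ball of radius `2` mapped bijectively.
-/

set_option autoImplicit false

namespace Pool.Agent.U5

variable {V : Type}

/-- a frame at `v` -/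
structure IsFrame (H : SimpleGraph V) (v : V) (n : ZMod 6 → V) : Prop where
  inj : Function.Injective n
  adj : ∀ w, H.Adj v w ↔ ∃ k, n k = w
  link : ∀ j k, H.Adj (n j) (n k) ↔ (k = j + 1 ∨ j = k + 1)

/-- `v` is flat: its six neighbours induce a hexagon -/
def FlatV (H : SimpleGraph V) (v : V) : Prop := ∃ n, IsFrame H v n

variable {H : SimpleGraph V}

lemma IsFrame.shift {v : V} {n : ZMod 6 → V} (h : IsFrame H v n) (a : ZMod 6) :
    IsFrame H v (fun k => n (k + a)) where
  inj := by
    intro j k hjk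
    have := h.inj hjk
    exact add_right_cancel this
  adj := by
    intro w
    rw [h.adj]
    constructor
    · rintro ⟨k, hk⟩
      exact ⟨k - a, by rw [sub_add_cancel]; exact hk⟩
    · rintro ⟨k, hk⟩
      exact ⟨k + a, hk⟩
  link := by
    intro j k
    rw [h.link]
    constructor
    · rintro (h1 | h1)
      · left
        have : k + a = (j + 1) + a := by rw [h1]; ring
        exact add_right_cancel this
      · right
        have : j + a = (k + 1) + a := by rw [h1]; ring
        exact add_right_cancel this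
    · rintro (h1 | h1)
      · left; rw [h1]; ring
      · right; rw [h1]; ring

lemma IsFrame.neg {v : V} {n : ZMod 6 → V} (h : IsFrame H v n) :
    IsFrame H v (fun k => n (-k)) where
  inj := by
    intro j k hjk
    have := h.inj hjk
    exact neg_injective this
  adj := by
    intro w
    rw [h.adj]
    constructor
    · rintro ⟨k, hk⟩
      exact ⟨-k, by rw [neg_neg]; exact hk⟩
    · rintro ⟨k, hk⟩
      exact ⟨-k, hk⟩
  link := by
    intro j k
    rw [h.link]
    constructor
    · rintro (h1 | h1)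
      · right
        have : k = -(-j + 1) := by rw [← h1, neg_neg]
        rw [this]; ring
      · left
        have : j = -(-k + 1) := by rw [← h1, neg_neg]
        rw [this]; ring
    · rintro (h1 | h1)
      · right; rw [h1]; ring
      · left; rw [h1]; ring

/-- transport of a frame in direction `k` -/
lemma IsFrame.transport {v : V} {n : ZMod 6 → V} (h : IsFrame H v n) (k : ZMod 6)
    (hf : FlatV H (n k)) :
    ∃ n', IsFrame H (n k) n' ∧ n' (k + 3) = v ∧ n' (k + 2) = n (k + 1) ∧ n' (k + 4) = n (k - 1) := by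
  obtain ⟨m, hm⟩ := hf
  have hadjv : H.Adj v (n k) := (h.adj _).2 ⟨k, rfl⟩
  obtain ⟨i, hi⟩ := (hm.adj v).1 hadjv.symm
  have h1 : H.Adj (n k) (n (k + 1)) := (h.link _ _).2 (Or.inl rfl)
  have h2 : H.Adj (n k) (n (k - 1)) := (h.link _ _).2 (Or.inr (by ring))
  obtain ⟨j, hj⟩ := (hm.adj _).1 h1
  obtain ⟨j', hj'⟩ := (hm.adj _).1 h2
  have h3 : H.Adj (m i) (m j) := by
    rw [hi, hj]; exact (h.adj _).2 ⟨_, rfl⟩
  have h4 : H.Adj (m i) (m j') := by
    rw [hi, hj']; exact (h.adj _).2 ⟨_, rfl⟩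
  have hne : j ≠ j' := by
    intro hjj
    rw [hjj, hj'] at hj
    have h5 := h.inj hj
    have h6 : (-1 : ZMod 6) = 1 := by
      have : k + (-1) = k + 1 := by rw [← h5]; ring
      exact add_left_cancel this
    exact absurd h6 (by decide)
  rw [hm.link] at h3 h4
  rcases h3 with h3 | h3
  · -- `j = i + 1` : reflect
    have h4' : i = j' + 1 := by
      rcases h4 with h4 | h4
      · exact absurd (h3.trans h4.symm) hne
      · exact h4
    refine ⟨fun x => m (-(x + (-(k + 3) - i))), (hm.neg).shift (-(k + 3) - i), ?_, ?_, ?_⟩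
    · change m (-(k + 3 + (-(k + 3) - i))) = v
      rw [show -(k + 3 + (-(k + 3) - i)) = i by ring]; exact hi
    · change m (-(k + 2 + (-(k + 3) - i))) = n (k + 1)
      rw [show -(k + 2 + (-(k + 3) - i)) = i + 1 by ring, ← h3]; exact hj
    · change m (-(k + 4 + (-(k + 3) - i))) = n (k - 1)
      rw [show -(k + 4 + (-(k + 3) - i)) = i - 1 by ring, h4', add_sub_cancel_right]; exact hj'
  · -- `i = j + 1`
    have h4' : j' = i + 1 := by
      rcases h4 with h4 | h4
      · exact h4
      · exfalso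
        apply hne
        have : j + 1 = j' + 1 := by rw [← h3, ← h4]
        exact add_right_cancel this
    refine ⟨fun x => m (x + (-(k + 3) + i)), hm.shift _, ?_, ?_, ?_⟩
    · change m (k + 3 + (-(k + 3) + i)) = v
      rw [show k + 3 + (-(k + 3) + i) = i by ring]; exact hi
    · change m (k + 2 + (-(k + 3) + i)) = n (k + 1)
      rw [show k + 2 + (-(k + 3) + i) = i - 1 by ring, h3, add_sub_cancel_right]; exact hj
    · change m (k + 4 + (-(k + 3) + i)) = n (k - 1)
      rw [show k + 4 + (-(k + 3) + i) = i + 1 by ring, ← h4']; exact hj'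

/-- In a frame: a neighbour `y` of `v` adjacent to `n (a + 1)` and different from `n a` is
`n (a + 2)`. -/
lemma IsFrame.next {v : V} {n : ZMod 6 → V} (h : IsFrame H v n) (a : ZMod 6) {y : V}
    (hy : H.Adj v y) (hy1 : H.Adj (n (a + 1)) y) (hy2 : y ≠ n a) : y = n (a + 2) := by
  obtain ⟨j, hj⟩ := (h.adj y).1 hy
  rw [← hj, h.link] at hy1
  rcases hy1 with h1 | h1
  · rw [← hj, h1]; congr 1; ring
  · exfalso
    apply hy2
    rw [← hj]
    congr 1
    exact (add_right_cancel h1).symm

/-- the other direction -/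
lemma IsFrame.prev {v : V} {n : ZMod 6 → V} (h : IsFrame H v n) (a : ZMod 6) {y : V}
    (hy : H.Adj v y) (hy1 : H.Adj (n (a + 1)) y) (hy2 : y ≠ n (a + 2)) : y = n a := by
  obtain ⟨j, hj⟩ := (h.adj y).1 hy
  rw [← hj, h.link] at hy1
  rcases hy1 with h1 | h1
  · exfalso
    apply hy2
    rw [← hj, h1]; congr 1; ring
  · rw [← hj]
    congr 1
    exact (add_right_cancel h1).symm

/-- The flat patch of radius two: `c` the centre, `r1 k = e_k`, `p2 k = 2 e_k`,
`q2 k = e_k + e_{k+1}`, `p3 k = 3 e_k`, `a3 k = 2 e_k + e_{k+1}`, `b3 k = e_k + 2 e_{k+1}`. -/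
structure Patch (H : SimpleGraph V) (c : V) (r1 p2 q2 p3 a3 b3 : ZMod 6 → V) : Prop where
  fc : IsFrame H c r1
  f1 : ∀ k, ∃ n, IsFrame H (r1 k) n ∧ n k = p2 k ∧ n (k + 1) = q2 k ∧ n (k + 2) = r1 (k + 1) ∧
    n (k + 3) = c ∧ n (k + 4) = r1 (k - 1) ∧ n (k + 5) = q2 (k - 1)
  f2 : ∀ k, ∃ n, IsFrame H (p2 k) n ∧ n k = p3 k ∧ n (k + 1) = a3 k ∧ n (k + 2) = q2 k ∧
    n (k + 3) = r1 k ∧ n (k + 4) = q2 (k - 1) ∧ n (k + 5) = b3 (k - 1)
  g2 : ∀ k, ∃ n, IsFrame H (q2 k) n ∧ n k = a3 k ∧ n (k + 1) = b3 k ∧ n (k + 2) = p2 (k + 1) ∧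
    n (k + 3) = r1 (k + 1) ∧ n (k + 4) = r1 k ∧ n (k + 5) = p2 k

lemma z6 {a b : ZMod 6} (k : ZMod 6) (h : k + a = k + b) : a = b := add_left_cancel h

/-- If all vertices at distance at most two from `c` are flat, there is a patch around `c`. -/
theorem exists_patch (c : V) (h0 : FlatV H c) (h1 : ∀ x, H.Adj c x → FlatV H x)
    (h2 : ∀ x y, H.Adj c x → H.Adj x y → FlatV H y) :
    ∃ r1 p2 q2 p3 a3 b3 : ZMod 6 → V, Patch H c r1 p2 q2 p3 a3 b3 := by
  obtain ⟨r1, hc⟩ := h0
  have hr1 : ∀ k, H.Adj c (r1 k) := fun k => (hc.adj _).2 ⟨k, rfl⟩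
  choose f1 hf1 hf1a hf1b hf1c using fun k => hc.transport k (h1 _ (hr1 k))
  -- `q2`
  have hq : ∀ k, f1 (k + 1) k = f1 k (k + 1) := by
    intro k
    -- the frame at `r1 (k+1)`
    have e1 : f1 (k + 1) (k + 5) = r1 k := by
      have := hf1c (k + 1)
      rw [show k + 1 + 4 = k + 5 by ring, add_sub_cancel_right] at this
      exact this
    have e2 : f1 (k + 1) (k + 4) = c := by
      have := hf1a (k + 1)
      rw [show k + 1 + 3 = k + 4 by ring] at this
      exact this
    have e3 : H.Adj (r1 (k + 1)) (f1 k (k + 1)) := by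
      rw [← hf1b k]
      exact ((hf1 k).link _ _).2 (Or.inr (by ring))
    have e4 : H.Adj (r1 k) (f1 k (k + 1)) := ((hf1 k).adj _).2 ⟨_, rfl⟩
    have e5 : f1 k (k + 1) ≠ c := by
      rw [← hf1a k]
      intro h
      exact absurd (z6 k ((hf1 k).inj h)) (by decide)
    have := (hf1 (k + 1)).next (k + 4) (y := f1 k (k + 1)) e3 (by
      rw [show k + 4 + 1 = k + 5 by ring, e1]; exact e4) (by rw [e2]; exact e5)
    rw [this]
    congr 1
    have h6 : (6 : ZMod 6) = 0 := by decide
    have : k + 4 + 2 = k + 6 := by ring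
    rw [this, h6, add_zero]
  have hq' : ∀ k, f1 k (k + 5) = f1 (k - 1) k := by
    intro k
    have := hq (k - 1)
    rw [sub_add_cancel] at this
    rw [← this]
    congr 1
    have h6 : (5 : ZMod 6) = -1 := by decide
    rw [h6]; ring
  choose f2 hf2 hf2a hf2b hf2c using fun k => (hf1 k).transport k
    (h2 (r1 k) _ (hr1 k) (((hf1 k).adj _).2 ⟨k, rfl⟩))
  choose g hg hga hgb hgc using fun k => (hf1 k).transport (k + 1)
    (h2 (r1 k) _ (hr1 k) (((hf1 k).adj _).2 ⟨k + 1, rfl⟩))
  -- `g k (k+2) = p2 (k+1)`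
  have hg2 : ∀ k, g k (k + 2) = f1 (k + 1) (k + 1) := by
    intro k
    have e1 : H.Adj (f1 k (k + 1)) (f1 (k + 1) (k + 1)) := by
      rw [← hq k]
      exact ((hf1 (k + 1)).link _ _).2 (Or.inl rfl)
    have e2 : H.Adj (r1 (k + 1)) (f1 (k + 1) (k + 1)) := ((hf1 (k + 1)).adj _).2 ⟨_, rfl⟩
    have e3 : g k (k + 3) = r1 (k + 1) := by
      have := hgb k
      rw [show k + 1 + 2 = k + 3 by ring, show k + 1 + 1 = k + 2 by ring, hf1b] at this
      exact this
    have e4 : g k (k + 4) = r1 k := by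
      have := hga k
      rw [show k + 1 + 3 = k + 4 by ring] at this
      exact this
    have e5 : f1 (k + 1) (k + 1) ≠ r1 k := by
      have := hf1c (k + 1)
      rw [add_sub_cancel_right] at this
      rw [← this]
      intro h
      have h7 : (k + 1) + 0 = (k + 1) + 4 := by
        rw [add_zero]; exact (hf1 (k + 1)).inj h
      exact absurd (z6 _ h7) (by decide)
    have := (hg k).prev (k + 2) (y := f1 (k + 1) (k + 1)) e1 (by
      rw [show k + 2 + 1 = k + 3 by ring, e3]; exact e2) (by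
      rw [show k + 2 + 2 = k + 4 by ring, e4]; exact e5)
    exact this.symm
  have hg5 : ∀ k, g k (k + 5) = f1 k k := by
    intro k
    have := hgc k
    rw [show k + 1 + 4 = k + 5 by ring, add_sub_cancel_right] at this
    exact this
  have hg4 : ∀ k, g k (k + 4) = r1 k := by
    intro k
    have := hga k
    rw [show k + 1 + 3 = k + 4 by ring] at this
    exact this
  have hg3 : ∀ k, g k (k + 3) = r1 (k + 1) := by
    intro k
    have := hgb k
    rw [show k + 1 + 2 = k + 3 by ring, show k + 1 + 1 = k + 2 by ring, hf1b] at this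
    exact this
  -- `g k k = a3 k`
  have hg0 : ∀ k, g k k = f2 k (k + 1) := by
    intro k
    have e1 : H.Adj (f1 k (k + 1)) (f2 k (k + 1)) := by
      rw [← hf2b k]
      exact ((hf2 k).link _ _).2 (Or.inr (by ring))
    have e2 : H.Adj (f1 k k) (f2 k (k + 1)) := ((hf2 k).adj _).2 ⟨_, rfl⟩
    have e3 : f2 k (k + 1) ≠ r1 k := by
      rw [← hf2a k]
      intro h
      exact absurd (z6 k ((hf2 k).inj h)) (by decide)
    have := (hg k).next (k + 4) (y := f2 k (k + 1)) e1 (by
      rw [show k + 4 + 1 = k + 5 by ring, hg5]; exact e2) (by rw [hg4]; exact e3)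
    rw [this]
    congr 1
    have h6 : (6 : ZMod 6) = 0 := by decide
    have : k + 4 + 2 = k + 6 := by ring
    rw [this, h6, add_zero]
  -- `g k (k+1) = f2 (k+1) k`
  have hg1 : ∀ k, f2 (k + 1) k = g k (k + 1) := by
    intro k
    have hk : (k + 1) + 5 = k := by
      have h6 : (6 : ZMod 6) = 0 := by decide
      have : k + 1 + 5 = k + 6 := by ring
      rw [this, h6, add_zero]
    have e0 : f2 (k + 1) ((k + 1) + 4) = f1 k (k + 1) := by
      rw [hf2c, add_sub_cancel_right, hq]
    have e1 : H.Adj (f1 k (k + 1)) (f2 (k + 1) k) := by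
      rw [← e0]
      refine ((hf2 (k + 1)).link _ _).2 (Or.inl ?_)
      rw [add_assoc, show (4 : ZMod 6) + 1 = 5 by norm_num]
      exact hk.symm
    have e2 : H.Adj (f1 (k + 1) (k + 1)) (f2 (k + 1) k) := ((hf2 (k + 1)).adj _).2 ⟨_, rfl⟩
    have e3 : f2 (k + 1) k ≠ r1 (k + 1) := by
      rw [← hf2a (k + 1)]
      intro h
      have h7 : (k + 1) + 5 = (k + 1) + 3 := by
        rw [hk]; exact (hf2 (k + 1)).inj h
      exact absurd (z6 _ h7) (by decide)
    exact (hg k).prev (k + 1) (y := f2 (k + 1) k) e1 (by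
      rw [show k + 1 + 1 = k + 2 by ring, hg2]; exact e2) (by
      rw [show k + 1 + 2 = k + 3 by ring, hg3]; exact e3)
  refine ⟨r1, fun k => f1 k k, fun k => f1 k (k + 1), fun k => f2 k k, fun k => f2 k (k + 1),
    fun k => g k (k + 1), hc, ?_, ?_, ?_⟩
  · intro k
    refine ⟨f1 k, hf1 k, rfl, rfl, hf1b k, hf1a k, hf1c k, ?_⟩
    rw [hq' k, sub_add_cancel]
  · intro k
    have h5 : k + 5 = k - 1 := by
      have h6 : (5 : ZMod 6) = -1 := by decide
      rw [h6]; ring
    refine ⟨f2 k, hf2 k, rfl, rfl, hf2b k, hf2a k, ?_, ?_⟩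
    · rw [hf2c k, sub_add_cancel, ← hq' k, h5]
    · have := hg1 (k - 1)
      rw [sub_add_cancel] at this
      rw [sub_add_cancel, ← this, h5]
  · intro k
    exact ⟨g k, hg k, hg0 k, rfl, hg2 k, hg3 k, hg4 k, hg5 k⟩

end Pool.Agent.U5
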