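import Mathlib
import Pool.Agent.Helper1.PG.Minor

/-!
The rectangular grid is a plane multigraph (with its dual).
-/

set_option autoImplicit false

namespace Pool.Agent.U5

open Pool.Agent.Helper1.PG

/-- Vertices of the grid. -/
abbrev GV (m n : ℕ) : Type := Fin (m + 1) × Fin (n + 1)

/-- Edges of the grid, horizontal and vertical ones. -/
abbrev GE (m n : ℕ) : Type := (Fin m × Fin (n + 1)) ⊕ (Fin (m + 1) × Fin n)

/-- Faces of the grid: the cells and the outer face. -/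
abbrev GF (m n : ℕ) : Type := Option (Fin m × Fin n)

/-- Ends of the edges. -/
def ga (m n : ℕ) : GE m n → GV m n × GV m n
  | Sum.inl (i, j) => ((i.castSucc, j), (i.succ, j))
  | Sum.inr (i, j) => ((i, j.castSucc), (i, j.succ))

/-- The cell with upper right corner `(i, j)`. -/
def gc (m n i j : ℕ) : GF m n :=
  if h : (1 ≤ i ∧ i ≤ m) ∧ (1 ≤ j ∧ j ≤ n) then
    some (⟨i - 1, by omega⟩, ⟨j - 1, by omega⟩) else none

/-- Sides of the edges. -/
def gb (m n : ℕ) : GE m n → GF m n × GF m n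
  | Sum.inl (i, j) => (gc m n (i + 1) j, gc m n (i + 1) (j + 1))
  | Sum.inr (i, j) => (gc m n i (j + 1), gc m n (i + 1) (j + 1))

variable {m n : ℕ}

theorem gc_none {i j : ℕ} (h : ¬ ((1 ≤ i ∧ i ≤ m) ∧ (1 ≤ j ∧ j ≤ n))) : gc m n i j = none :=
  dif_neg h

theorem gc_eq_some {i j : ℕ} {p : Fin m} {q : Fin n} :
    gc m n i j = some (p, q) ↔ i = p + 1 ∧ j = q + 1 := by
  unfold gc
  by_cases h : (1 ≤ i ∧ i ≤ m) ∧ (1 ≤ j ∧ j ≤ n)
  · rw [dif_pos h, Option.some_inj, Prod.mk.injEq, Fin.ext_iff, Fin.ext_iff]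
    simp only
    omega
  · rw [dif_neg h]
    constructor
    · intro h1; cases h1
    · intro h1
      exfalso
      have := p.2
      have := q.2
      omega

theorem ga_inl (i : Fin m) (j : Fin (n + 1)) :
    ga m n (Sum.inl (i, j)) = ((i.castSucc, j), (i.succ, j)) := rfl

theorem ga_inr (i : Fin (m + 1)) (j : Fin n) :
    ga m n (Sum.inr (i, j)) = ((i, j.castSucc), (i, j.succ)) := rfl

theorem gb_inl (i : Fin m) (j : Fin (n + 1)) :
    gb m n (Sum.inl (i, j)) = (gc m n (i + 1) j, gc m n (i + 1) (j + 1)) := rfl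

theorem gb_inr (i : Fin (m + 1)) (j : Fin n) :
    gb m n (Sum.inr (i, j)) = (gc m n i (j + 1), gc m n (i + 1) (j + 1)) := rfl

theorem st_gb_some (p : Fin m) (q : Fin n) (e : GE m n) :
    st (gb m n) (some (p, q)) e =
      ind (e = Sum.inl (p, q.castSucc)) + ind (e = Sum.inl (p, q.succ)) +
      (ind (e = Sum.inr (p.castSucc, q)) + ind (e = Sum.inr (p.succ, q))) := by
  unfold st
  rcases e with ⟨i, j⟩ | ⟨i, j⟩
  · rw [gb_inl]
    simp only
    have h1 : gc m n (↑i + 1) ↑j = some (p, q) ↔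
        (Sum.inl (i, j) : GE m n) = Sum.inl (p, q.succ) := by
      rw [gc_eq_some, Sum.inl.injEq, Prod.mk.injEq, Fin.ext_iff, Fin.ext_iff, Fin.val_succ]
      omega
    have h2 : gc m n (↑i + 1) (↑j + 1) = some (p, q) ↔
        (Sum.inl (i, j) : GE m n) = Sum.inl (p, q.castSucc) := by
      rw [gc_eq_some, Sum.inl.injEq, Prod.mk.injEq, Fin.ext_iff, Fin.ext_iff, Fin.val_castSucc]
      omega
    rw [ind_congr h1, ind_congr h2,
      ind_false (p := (Sum.inl (i, j) : GE m n) = Sum.inr (p.castSucc, q)) (fun h => by cases h),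
      ind_false (p := (Sum.inl (i, j) : GE m n) = Sum.inr (p.succ, q)) (fun h => by cases h)]
    ring
  · rw [gb_inr]
    simp only
    have h1 : gc m n ↑i (↑j + 1) = some (p, q) ↔
        (Sum.inr (i, j) : GE m n) = Sum.inr (p.succ, q) := by
      rw [gc_eq_some, Sum.inr.injEq, Prod.mk.injEq, Fin.ext_iff, Fin.ext_iff, Fin.val_succ]
      omega
    have h2 : gc m n (↑i + 1) (↑j + 1) = some (p, q) ↔
        (Sum.inr (i, j) : GE m n) = Sum.inr (p.castSucc, q) := by
      rw [gc_eq_some, Sum.inr.injEq, Prod.mk.injEq, Fin.ext_iff, Fin.ext_iff, Fin.val_castSucc]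
      omega
    rw [ind_congr h1, ind_congr h2,
      ind_false (p := (Sum.inr (i, j) : GE m n) = Sum.inl (p, q.castSucc)) (fun h => by cases h),
      ind_false (p := (Sum.inr (i, j) : GE m n) = Sum.inl (p, q.succ)) (fun h => by cases h)]
    ring

theorem sum_mul_ind {E : Type} [Fintype E] (g : E → ZMod 2) (e0 : E) :
    ∑ e, g e * ind (e = e0) = g e0 := by
  rw [Finset.sum_eq_single e0]
  · rw [ind_true rfl, mul_one]
  · intro e _ he
    rw [ind_false he, mul_zero]
  · intro h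
    exact absurd (Finset.mem_univ _) h

theorem grid_orth_some (v : GV m n) (p : Fin m) (q : Fin n) :
    ∑ e, st (ga m n) v e * st (gb m n) (some (p, q)) e = 0 := by
  simp only [st_gb_some, mul_add]
  rw [Finset.sum_add_distrib, Finset.sum_add_distrib, Finset.sum_add_distrib, sum_mul_ind,
    sum_mul_ind, sum_mul_ind, sum_mul_ind]
  unfold st
  simp only [ga_inl, ga_inr]
  linear_combination z2_add_self (ind ((p.castSucc, q.castSucc) = v)) +
    z2_add_self (ind ((p.succ, q.castSucc) = v)) + z2_add_self (ind ((p.castSucc, q.succ) = v)) +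
    z2_add_self (ind ((p.succ, q.succ) = v))

theorem grid_orth (v : GV m n) (f : GF m n) :
    ∑ e, st (ga m n) v e * st (gb m n) f e = 0 := by
  have hsome : ∀ f : Fin m × Fin n,
      ∑ e, st (ga m n) v e * st (gb m n) (some f) e = 0 := fun f => grid_orth_some v f.1 f.2
  rcases f with _ | f
  · have h1 : ∑ f : GF m n, ∑ e, st (ga m n) v e * st (gb m n) f e = 0 := by
      rw [Finset.sum_comm]
      apply Finset.sum_eq_zero
      intro e _
      rw [← Finset.mul_sum, sum_st_univ, mul_zero]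
    rw [Fintype.sum_option, Finset.sum_eq_zero (fun f _ => hsome f), add_zero] at h1
    exact h1
  · exact hsome f

/-- Adjacency of grid points. -/
def gadj' (p q : ℕ × ℕ) : Prop :=
  (p.1 = q.1 ∧ (q.2 = p.2 + 1 ∨ p.2 = q.2 + 1)) ∨ (p.2 = q.2 ∧ (q.1 = p.1 + 1 ∨ p.1 = q.1 + 1))

theorem lk_of_gadj {p q : ℕ × ℕ} (h : gadj' p q) (h1 : p.1 < m + 1) (h2 : p.2 < n + 1)
    (h3 : q.1 < m + 1) (h4 : q.2 < n + 1) :
    Lk (ga m n) (⟨p.1, h1⟩, ⟨p.2, h2⟩) (⟨q.1, h3⟩, ⟨q.2, h4⟩) := by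
  obtain ⟨i, j⟩ := p
  obtain ⟨i', j'⟩ := q
  simp only [gadj'] at h h1 h2 h3 h4 ⊢
  rcases h with ⟨rfl, rfl | rfl⟩ | ⟨rfl, rfl | rfl⟩
  · exact ⟨Sum.inr (⟨i, h1⟩, ⟨j, by omega⟩), Or.inl ⟨rfl, rfl⟩⟩
  · exact ⟨Sum.inr (⟨i, h1⟩, ⟨j', by omega⟩), Or.inr ⟨rfl, rfl⟩⟩
  · exact ⟨Sum.inl (⟨i, by omega⟩, ⟨j, h2⟩), Or.inl ⟨rfl, rfl⟩⟩
  · exact ⟨Sum.inl (⟨i', by omega⟩, ⟨j, h2⟩), Or.inr ⟨rfl, rfl⟩⟩

theorem grid_conn : Cn (ga m n) := by
  have h0 : ∀ j (hj : j < n + 1), Relation.ReflTransGen (Lk (ga m n))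
      (⟨0, by omega⟩, ⟨0, by omega⟩) (⟨0, by omega⟩, ⟨j, hj⟩) := by
    intro j
    induction j with
    | zero => intro _; exact Relation.ReflTransGen.refl
    | succ j ih =>
      intro hj
      exact (ih (by omega)).tail
        (lk_of_gadj (p := (0, j)) (q := (0, j + 1)) (Or.inl ⟨rfl, Or.inl rfl⟩) _ _ _ _)
  have h1 : ∀ i (hi : i < m + 1) j (hj : j < n + 1), Relation.ReflTransGen (Lk (ga m n))
      (⟨0, by omega⟩, ⟨0, by omega⟩) (⟨i, hi⟩, ⟨j, hj⟩) := by
    intro i
    induction i with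
    | zero => intro _ j hj; exact h0 j hj
    | succ i ih =>
      intro hi j hj
      exact (ih (by omega) j hj).tail
        (lk_of_gadj (p := (i, j)) (q := (i + 1, j)) (Or.inr ⟨rfl, Or.inl rfl⟩) _ _ _ _)
  intro u v
  exact (rtg_symm (fun _ _ h => h.symm) (h1 u.1.1 u.1.2 u.2.1 u.2.2)).trans
    (h1 v.1.1 v.1.2 v.2.1 v.2.2)

theorem grid_dconn : Cn (gb m n) := by
  have h1 : ∀ i j, Relation.ReflTransGen (Lk (gb m n)) none (gc m n i j) := by
    intro i j
    by_cases hj : 1 ≤ j ∧ j ≤ n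
    · induction i with
      | zero => rw [gc_none (by omega)]
      | succ i ih =>
        by_cases hi : i < m
        · refine ih.tail ⟨Sum.inr (⟨i, by omega⟩, ⟨j - 1, by omega⟩), Or.inl ?_⟩
          rw [gb_inr]
          simp only
          rw [show j - 1 + 1 = j by omega]
          exact ⟨rfl, rfl⟩
        · rw [gc_none (by omega)]
    · rw [gc_none (by omega)]
  have h2 : ∀ f : GF m n, Relation.ReflTransGen (Lk (gb m n)) none f := by
    intro f
    rcases f with _ | ⟨p, q⟩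
    · exact Relation.ReflTransGen.refl
    · have h3 : gc m n (p + 1) (q + 1) = some (p, q) := gc_eq_some.2 ⟨rfl, rfl⟩
      rw [← h3]
      exact h1 _ _
  intro u v
  exact (rtg_symm (fun _ _ h => h.symm) (h2 u)).trans (h2 v)

theorem grid_plane : IsPlane (ga m n) (gb m n) where
  conn := grid_conn
  dconn := grid_dconn
  orth := grid_orth
  euler := by
    simp only [Fintype.card_prod, Fintype.card_option, Fintype.card_sum, Fintype.card_fin]
    ring

theorem grid_fc : FC (gb m n) (ga m n) := by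
  rintro ⟨⟨i, hi⟩, ⟨j, hj⟩⟩ e e' he he'
  have hE : Relation.ReflTransGen (LkOn (gb m n) (Inc (ga m n) (⟨i, hi⟩, ⟨j, hj⟩)))
      (gc m n (i + 1) j) (gc m n (i + 1) (j + 1)) := by
    by_cases h : i < m
    · exact Relation.ReflTransGen.single ⟨Sum.inl (⟨i, h⟩, ⟨j, hj⟩), Or.inl rfl, Or.inl ⟨rfl, rfl⟩⟩
    · rw [gc_none (by omega), gc_none (by omega)]
  have hW : Relation.ReflTransGen (LkOn (gb m n) (Inc (ga m n) (⟨i, hi⟩, ⟨j, hj⟩)))
      (gc m n i j) (gc m n i (j + 1)) := by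
    by_cases h : 1 ≤ i
    · obtain ⟨i, rfl⟩ : ∃ i', i = i' + 1 := ⟨i - 1, by omega⟩
      exact Relation.ReflTransGen.single
        ⟨Sum.inl (⟨i, by omega⟩, ⟨j, hj⟩), Or.inr rfl, Or.inl ⟨rfl, rfl⟩⟩
    · rw [gc_none (by omega), gc_none (by omega)]
  have hS : Relation.ReflTransGen (LkOn (gb m n) (Inc (ga m n) (⟨i, hi⟩, ⟨j, hj⟩)))
      (gc m n i j) (gc m n (i + 1) j) := by
    by_cases h : 1 ≤ j
    · obtain ⟨j, rfl⟩ : ∃ j', j = j' + 1 := ⟨j - 1, by omega⟩
      exact Relation.ReflTransGen.single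
        ⟨Sum.inr (⟨i, hi⟩, ⟨j, by omega⟩), Or.inr rfl, Or.inl ⟨rfl, rfl⟩⟩
    · rw [gc_none (by omega), gc_none (by omega)]
  have key : ∀ e : GE m n, Inc (ga m n) (⟨i, hi⟩, ⟨j, hj⟩) e →
      Relation.ReflTransGen (LkOn (gb m n) (Inc (ga m n) (⟨i, hi⟩, ⟨j, hj⟩)))
      (gc m n i j) (gb m n e).1 := by
    rintro (⟨i', j'⟩ | ⟨i', j'⟩) he
    · rcases he with he | he
      · rw [ga_inl] at he
        simp only [Prod.mk.injEq, Fin.ext_iff, Fin.val_castSucc] at he
        rw [gb_inl]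
        simp only
        rw [he.1, he.2]
        exact hS
      · rw [ga_inl] at he
        simp only [Prod.mk.injEq, Fin.ext_iff, Fin.val_succ] at he
        rw [gb_inl]
        simp only
        rw [he.1, he.2]
    · rcases he with he | he
      · rw [ga_inr] at he
        simp only [Prod.mk.injEq, Fin.ext_iff, Fin.val_castSucc] at he
        rw [gb_inr]
        simp only
        rw [he.1, he.2]
        exact hW
      · rw [ga_inr] at he
        simp only [Prod.mk.injEq, Fin.ext_iff, Fin.val_succ] at he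
        rw [gb_inr]
        simp only
        rw [he.1, he.2]
  exact (rtg_symm (fun _ _ h => h.symm) (key e he)).trans (key e' he')

/-- The grid is a plane multigraph with connected face boundaries. -/
theorem grid_isPl (m n : ℕ) : IsPl (ga m n) (gb m n) :=
  (IsPl.mk grid_plane.symm grid_fc).symm

end Pool.Agent.U5
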