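import Mathlib
import Pool.Agent.U5.GridPl
import Pool.Agent.Helper70.BLB.DiscOfPlane
import Pool.Agent.Helper70.BLB.PlaneOfDrawing

/-!
Every finite graph drawn in the plane belongs to the class `Pl`.
-/

set_option autoImplicit false

namespace Pool.Agent.U5

open Pool.Agent.Helper1.PG
open Pool.Agent.Helper70.BLB (gadj GridModel Drawing gridModel_of_planeModel)

section

variable {V : Type} {G : SimpleGraph V} {r : V} {k T : ℕ} {L : ℕ → ℕ → Option V}

/-- Projection of the quarter plane on the grid. -/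
def clp (k T : ℕ) (p : ℕ × ℕ) : GV (k + 1) (T + 1) :=
  (⟨min p.1 (k + 1), by omega⟩, ⟨min p.2 (T + 1), by omega⟩)

theorem lab_clp (M : GridModel G r k T L) (p : ℕ × ℕ) :
    L (clp k T p).1 (clp k T p).2 = L p.1 p.2 := by
  by_cases h : p.1 ≤ k + 1 ∧ p.2 ≤ T + 1
  · show L (min p.1 (k + 1)) (min p.2 (T + 1)) = L p.1 p.2
    rw [min_eq_left h.1, min_eq_left h.2]
  · have h1 : L p.1 p.2 = some r := (M.frame _ _).2 (by omega)
    have h2 : L (min p.1 (k + 1)) (min p.2 (T + 1)) = some r := (M.frame _ _).2 (by omega)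
    rw [h1]
    exact h2

theorem lk_clp {p q : ℕ × ℕ} (h : gadj p q) :
    clp k T p = clp k T q ∨ Lk (ga (k + 1) (T + 1)) (clp k T p) (clp k T q) := by
  by_cases he : min p.1 (k + 1) = min q.1 (k + 1) ∧ min p.2 (T + 1) = min q.2 (T + 1)
  · left
    unfold clp
    simp only [he.1, he.2]
  · right
    apply lk_of_gadj (p := (min p.1 (k + 1), min p.2 (T + 1)))
      (q := (min q.1 (k + 1), min q.2 (T + 1)))
    unfold gadj at h
    unfold gadj'
    simp only
    omega

theorem walk_clp (M : GridModel G r k T L) {v : V} {p q : ℕ × ℕ}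
    (h : Relation.ReflTransGen
      (fun a b => gadj a b ∧ L a.1 a.2 = some v ∧ L b.1 b.2 = some v) p q) :
    Relation.ReflTransGen (fun x y => Lk (ga (k + 1) (T + 1)) x y ∧ L x.1 x.2 = some v ∧
      L y.1 y.2 = some v) (clp k T p) (clp k T q) := by
  induction h with
  | refl => exact Relation.ReflTransGen.refl
  | @tail b c _ h2 ih =>
    rcases lk_clp (k := k) (T := T) h2.1 with h3 | h3
    · rw [← h3]; exact ih
    · exact ih.tail ⟨h3, (lab_clp M b).trans h2.2.1, (lab_clp M c).trans h2.2.2⟩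

theorem frame_conn (M : GridModel G r k T L) (p : ℕ × ℕ) (hp : L p.1 p.2 = some r) :
    Relation.ReflTransGen
      (fun a b => gadj a b ∧ L a.1 a.2 = some r ∧ L b.1 b.2 = some r) (0, 0) p := by
  have hH : ∀ j, (∀ i, L i j = some r) → ∀ i, Relation.ReflTransGen
      (fun a b => gadj a b ∧ L a.1 a.2 = some r ∧ L b.1 b.2 = some r) (0, j) (i, j) := by
    intro j hj i
    induction i with
    | zero => exact Relation.ReflTransGen.refl
    | succ i ih => exact ih.tail ⟨Or.inr ⟨rfl, Or.inl rfl⟩, hj _, hj _⟩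
  have hV : ∀ i, (∀ j, L i j = some r) → ∀ j, Relation.ReflTransGen
      (fun a b => gadj a b ∧ L a.1 a.2 = some r ∧ L b.1 b.2 = some r) (i, 0) (i, j) := by
    intro i hi j
    induction j with
    | zero => exact Relation.ReflTransGen.refl
    | succ j ih => exact ih.tail ⟨Or.inl ⟨rfl, Or.inl rfl⟩, hi _, hi _⟩
  have hA := hH 0 (fun i => (M.frame i 0).2 (by omega))
  have hB := hV 0 (fun j => (M.frame 0 j).2 (by omega))
  obtain ⟨i, j⟩ := p
  rcases (M.frame i j).1 hp with h | h | h | h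
  · subst h; exact hB j
  · exact (hA i).trans (hV i (fun j => (M.frame i j).2 (by omega)) j)
  · subst h; exact hA i
  · exact (hB j).trans (hH j (fun i => (M.frame i j).2 (by omega)) i)

/-- A grid model is a labelling of the grid. -/
theorem mdl_of_gridModel (M : GridModel G r k T L) :
    Mdl G (ga (k + 1) (T + 1)) (fun v => L v.1 v.2) where
  ne := by
    intro w
    obtain ⟨p, hp⟩ := M.nonempty w
    exact ⟨clp k T p, (lab_clp M p).trans hp⟩
  conn := by
    rintro w ⟨⟨i, hi⟩, ⟨j, hj⟩⟩ ⟨⟨i', hi'⟩, ⟨j', hj'⟩⟩ hu hv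
    have e1 : clp k T (i, j) = (⟨i, hi⟩, ⟨j, hj⟩) := by
      unfold clp
      simp only [Prod.mk.injEq, Fin.mk.injEq]
      omega
    have e2 : clp k T (i', j') = (⟨i', hi'⟩, ⟨j', hj'⟩) := by
      unfold clp
      simp only [Prod.mk.injEq, Fin.mk.injEq]
      omega
    rw [← e1, ← e2]
    apply walk_clp M
    by_cases hw : w = r
    · subst hw
      have hs : ∀ a b : ℕ × ℕ, (gadj a b ∧ L a.1 a.2 = some w ∧ L b.1 b.2 = some w) →
          (gadj b a ∧ L b.1 b.2 = some w ∧ L a.1 a.2 = some w) := by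
        rintro a b ⟨h1, h2, h3⟩
        refine ⟨?_, h3, h2⟩
        unfold gadj at h1 ⊢
        omega
      exact (rtg_symm hs (frame_conn M (i, j) hu)).trans (frame_conn M (i', j') hv)
    · exact M.conn w hw (i, j) (i', j') hu hv
  edge := by
    intro w w' hww
    obtain ⟨p, q, h1, h2, h3⟩ := M.edge w w' hww
    refine ⟨clp k T p, clp k T q, ?_, (lab_clp M p).trans h2, (lab_clp M q).trans h3⟩
    rcases lk_clp (k := k) (T := T) h1 with h4 | h4
    · exfalso
      have h5 := lab_clp M p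
      rw [h4, lab_clp M q, h2, h3, Option.some_inj] at h5
      exact hww.ne h5.symm
    · exact h4

theorem pl_of_gridModel [Fintype V] (M : GridModel G r k T L) : Pl G :=
  Pl.of_mdl (grid_isPl (k + 1) (T + 1)) (mdl_of_gridModel M)

end

/-- The empty graph is in the class. -/
theorem pl_of_isEmpty {V : Type} [Fintype V] [IsEmpty V] (G : SimpleGraph V) : Pl G :=
  Pl.of_mdl (L := fun _ => none) (grid_isPl 0 0)
    ⟨fun w => isEmptyElim w, fun w => isEmptyElim w, fun w => isEmptyElim w⟩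

/-- A drawn graph is in the class. -/
theorem pl_of_drawing {V : Type} [Fintype V] {G : SimpleGraph V} {f : V → ℝ × ℝ}
    {γ : V → V → ℝ → ℝ × ℝ} (D : Drawing G f γ) : Pl G := by
  rcases isEmpty_or_nonempty V with hV | ⟨⟨r⟩⟩
  · exact pl_of_isEmpty G
  · obtain ⟨O, K, M, PM⟩ := D.planeModel r
    obtain ⟨k, T, L, _, _, GM⟩ := gridModel_of_planeModel PM
    exact pl_of_gridModel GM

/-- A graph with a planar drawing is in the class. -/
theorem pl_of_planar {V : Type} [Fintype V] (G : SimpleGraph V)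
    (h : ∃ (f : V → ℝ × ℝ) (γ : V → V → ℝ → ℝ × ℝ),
      Function.Injective f ∧
      (∀ u v : V, G.Adj u v →
        ContinuousOn (γ u v) (Set.Icc (0:ℝ) 1) ∧ Set.InjOn (γ u v) (Set.Icc (0:ℝ) 1) ∧
        γ u v 0 = f u ∧ γ u v 1 = f v ∧
        ∀ t ∈ Set.Ioo (0:ℝ) 1, ∀ w : V, γ u v t ≠ f w) ∧
      (∀ u v u' v' : V, G.Adj u v → G.Adj u' v' → s(u, v) ≠ s(u', v') →
        ∀ t ∈ Set.Ioo (0:ℝ) 1, ∀ t' ∈ Set.Ioo (0:ℝ) 1, γ u v t ≠ γ u' v' t')) : Pl G := by
  obtain ⟨f, γ, h1, h2, h3⟩ := h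
  exact pl_of_drawing (f := f) (γ := γ) ⟨h1, h2, h3⟩

/-- The same with the condition on crossings exactly as in the frozen statement `S07167` (where
`Sym2.mk (u, v)` is a function, so that the condition is about ordered pairs). -/
theorem pl_of_planar' {V : Type} [Fintype V] (G : SimpleGraph V)
    (h : ∃ (f : V → ℝ × ℝ) (γ : V → V → ℝ → ℝ × ℝ),
      Function.Injective f ∧
      (∀ u v : V, G.Adj u v →
        ContinuousOn (γ u v) (Set.Icc (0:ℝ) 1) ∧ Set.InjOn (γ u v) (Set.Icc (0:ℝ) 1) ∧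
        γ u v 0 = f u ∧ γ u v 1 = f v ∧
        ∀ t ∈ Set.Ioo (0:ℝ) 1, ∀ w : V, γ u v t ≠ f w) ∧
      (∀ u v u' v' : V, G.Adj u v → G.Adj u' v' → Sym2.mk (u, v) ≠ Sym2.mk (u', v') →
        ∀ t ∈ Set.Ioo (0:ℝ) 1, ∀ t' ∈ Set.Ioo (0:ℝ) 1, γ u v t ≠ γ u' v' t')) : Pl G := by
  obtain ⟨f, γ, h1, h2, h3⟩ := h
  refine pl_of_drawing (f := f) (γ := γ) ⟨h1, h2, fun u v u' v' hu hv hne => h3 u v u' v' hu hv ?_⟩
  intro he
  apply hne
  have h4 := congrFun he (u, v)
  rcases Sym2.eq_iff.1 h4 with ⟨h5, _⟩ | ⟨_, h5⟩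
  · rw [Prod.mk.injEq] at h5
    rw [h5.1, h5.2]
  · rw [Prod.mk.injEq] at h5
    rw [h5.1, h5.2]

end Pool.Agent.U5
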