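import Pool.Agent.Helper1.PG.Minor
import Pool.Agent.Helper1.PG.Euler
import Pool.Agent.Helper98.U5.Bridge

/-!
# Planar graphs have sparse minors

Every minor of a graph in the class `Pl` has at most three times as many edges as vertices.
-/

set_option autoImplicit false

namespace Pool.Agent.U5

open SimpleGraph Pool.Agent.Helper36.BL
open Pool.Agent.Helper1.PG (Lk IsPlane IsPl Simp Par gr Pl)

/-- Every minor of a planar graph has at most `3 n` edges. -/
theorem sparseMinors_of_Pl {V : Type} {G : SimpleGraph V} (hG : Pl G) :
    Pool.Agent.Helper15.HF.SparseMinors 3 G := by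
  classical
  intro W _ H hH
  have hP : Pl H := hG.minor hH
  have hcard : Nat.card H.edgeSet = H.edgeFinset.card := by
    rw [Nat.card_eq_fintype_card, SimpleGraph.edgeFinset_card]
  rw [hcard]
  by_cases h3 : 3 ≤ Fintype.card W
  · have hne : Nonempty W := Fintype.card_pos_iff.1 (by omega)
    obtain ⟨F, E, i1, i2, a, b, hp, hl⟩ := hP.exists_spanning
    obtain ⟨F', E', i1', i2', a', b', hp', hs, hl', -⟩ :=
      IsPl.exists_simple (fun u v => Lk a u v) (fun u v =>
        Relation.ReflTransGen.mono (fun _ _ h => Or.inl h) _ _ (hp.toIsPlane.conn u v)) (Fintype.card E) F E a b rfl hp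
        (fun u v h _ => h)
    have h6 := hp'.toIsPlane.card_edge_le hs h3
    have h7 : H.edgeFinset.card ≤ Fintype.card E' := by
      have hch : ∀ e : H.edgeSet, ∃ e' : E', (s((a' e').1, (a' e').2) : Sym2 W) = e.1 := by
        rintro ⟨e, he⟩
        induction e using Sym2.ind with
        | h u v =>
          have huv : H.Adj u v := he
          obtain ⟨e', h8 | h8⟩ := hl' u v (hl u v huv) huv.ne
          · exact ⟨e', by rw [h8.1, h8.2]⟩
          · refine ⟨e', ?_⟩
            rw [h8.1, h8.2]
            exact Sym2.eq_swap
      choose φ hφ using hch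
      rw [SimpleGraph.edgeFinset_card]
      refine Fintype.card_le_of_injective φ ?_
      intro e1 e2 h12
      apply Subtype.ext
      rw [← hφ e1, ← hφ e2, h12]
    omega
  · have h8 := H.card_edgeFinset_le_card_choose_two
    have h9 : (Fintype.card W).choose 2 ≤ 3 * Fintype.card W := by
      push Not at h3
      generalize Fintype.card W = n at h3
      interval_cases n <;> decide
    exact h8.trans h9

/-- Planar graphs are `MinorSparse`. -/
theorem minorSparse_of_Pl {V : Type} [Fintype V] {G : SimpleGraph V} (hG : Pl G) :
    U5Fin.MinorSparse G :=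
  U5Fin.minorSparse_of_sparseMinors (sparseMinors_of_Pl hG)

end Pool.Agent.U5
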