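import Pool.Agent.Helper98.U5.Assembly

/-!
# The uniform gap below five in quantitative form: `δ ^ |V| ≤ P(G, q)`
-/

set_option autoImplicit false
set_option linter.unusedSectionVars false

namespace Pool.Agent.U5

open SimpleGraph Finset Polynomial Pool.Agent.Helper36.BL
open scoped Classical

section

variable {V : Type} [Fintype V] {Cl : Cls} {c0 q : ℝ}

/-- start, for graphs with a small ratio -/
theorem exists_crt_q (hp : Par Cl c0 q V) {m : ℕ} (hq : 5 - st c0 m < q) {B G : SimpleGraph V}
    (hBG : B ≤ G) (hG : Cl.mem G) (hcard : ned G B ≤ m) (hB : 0 < P q B)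
    (h0 : P q G ≤ st c0 m * P q B) :
    ∃ H : SimpleGraph V, H ≤ G ∧ Crt Cl c0 q m B H := by
  have hst : st c0 m = (fs c0 m)^[m + 1] (1 / 2) := rfl
  rw [hst] at hq h0
  obtain ⟨H', h1, h2, _⟩ := extract hp hB (y := 1 / 2) (by norm_num) (by norm_num)
    (by linarith) m G le_rfl hBG hG hcard h0
  exact ⟨H', h1, h2⟩

/-- The chain of critical graphs from `B` to a graph `G` all of whose ratios `P(G) / P(X)` are
small. -/
theorem chain_q {η : ℝ} {c1 : ℕ} (hpr : Prm η c1) (hT : TLin Cl c0 η c1) (hp : Par Cl c0 q V)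
    {m : ℕ} (hq : 5 - st c0 m < q) {G : SimpleGraph V} (hG : Cl.mem G)
    (h0 : ∀ X, X < G → P q G ≤ st c0 m * P q X) (hmin : ∀ X, X < G → 0 < P q X) :
    ∀ (k : ℕ) (B : SimpleGraph V) (S : Finset V), ned G B = k → k ≤ m → B ≤ G → B ≠ G →
      (∀ s ∈ S, ∀ x, ¬ B.Adj s x) → (B.induce {x | x ∉ S}).Connected →
      phi η c1 (act G S).card ≤ (ned G B : ℝ) - 3 * ((act G S).card : ℝ) := by
  intro k
  induction k using Nat.strong_induction_on with
  | _ k ih =>
  intro B S hk hkm hBG hne hiso hconn
  have hB : 0 < P q B := hmin B (lt_of_le_of_ne hBG hne)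
  obtain ⟨H, hHG, hH⟩ := exists_crt_q hp hq hBG hG (by omega) hB (h0 B (lt_of_le_of_ne hBG hne))
  have hd : Data B H S := ⟨hH.le, hiso, hconn⟩
  have h1 := hT q V hp m B H S hH hd
  unfold pot at h1
  push_cast at h1
  by_cases hHG' : H = G
  · rw [hHG'] at h1
    exact h1
  · have hadd := ned_add hH.le hHG
    have hpos := ned_pos98 hH.le hH.ne
    have h2 := ih (ned G H) (by omega) H (S \ act H S) rfl (by omega) hHG hHG'
      (by
        intro s hs x hsx
        rw [Finset.mem_sdiff] at hs
        exact hs.2 (mem_act.2 ⟨hs.1, x, hsx⟩))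
      (crt_conn hp hH hd)
    have hsub : act H S ⊆ act G S := by
      intro s hs
      rw [mem_act] at hs ⊢
      obtain ⟨h3, x, h4⟩ := hs
      exact ⟨h3, x, hHG h4⟩
    have hact : act G (S \ act H S) = act G S \ act H S := by
      ext s
      simp only [mem_act, Finset.mem_sdiff]
      tauto
    have hcard : (act G S).card = (act G (S \ act H S)).card + (act H S).card := by
      rw [hact, Finset.card_sdiff_add_card_eq_card hsub]
    have hphi : phi η c1 (act G S).card ≤
        phi η c1 (act G (S \ act H S)).card + phi η c1 (act H S).card := by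
      rw [hcard]
      rcases Nat.eq_zero_or_pos (act G (S \ act H S)).card with h5 | h5
      · rw [h5, Nat.zero_add, phi_zero]
        linarith
      · rcases Nat.eq_zero_or_pos (act H S).card with h6 | h6
        · rw [h6, Nat.add_zero, phi_zero]
          linarith
        · exact phi_add hpr h5 h6
    have e1 : (ned G B : ℝ) = ned G H + ned H B := by exact_mod_cast hadd
    have e2 : ((act G S).card : ℝ) = (act G (S \ act H S)).card + (act H S).card := by
      exact_mod_cast hcard
    rw [e1, e2]
    linarith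

end

/-- One step: a large connected graph of the class has a proper subgraph with comparable `P`. -/
theorem exists_step (Cl : Cls)
    (hsp : ∀ (V : Type) [Fintype V] (G : SimpleGraph V), Cl.mem G → U5Fin.MinorSparse G)
    {c0 η : ℝ} {c1 : ℕ} (hc0 : 0 < c0) (hpr : Prm η c1) (hT : TLin Cl c0 η c1) :
    ∃ (κ : ℝ) (s : ℕ), 0 < κ ∧ ∀ q : ℝ, 5 - κ < q → q < 5 →
      (∀ (V : Type) [Fintype V] (G : SimpleGraph V), Cl.mem G → 0 < P q G) →
      ∀ (V : Type) [Fintype V] (G : SimpleGraph V), Cl.mem G → G.Connected →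
        s < Fintype.card V → ∃ X, X < G ∧ κ * P q X ≤ P q G := by
  set e := min (η / 2) (1 / ((c1 : ℝ) + 1)) with he
  have hη := hpr.pos
  have he0 : 0 < e := lt_min (by linarith) (by positivity)
  have he1 : e ≤ 1 := by
    refine le_trans (min_le_right _ _) ?_
    rw [div_le_one (by positivity)]
    have : (0 : ℝ) ≤ c1 := Nat.cast_nonneg _
    linarith
  obtain ⟨s, hs⟩ := U5Fin.fin e he0 he1
  set m : ℕ := s * (s + s) with hm
  have hst : 0 < st c0 m := st_pos98 hc0 m
  refine ⟨st c0 m, s + 2, hst, ?_⟩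
  intro q hq1 hq5 hall V iV G hG hconn hbig
  by_contra hcon
  push Not at hcon
  have hyp : Hyp Cl q (Fintype.card V) := fun W iW X hX _ => hall W X hX
  have hmin : ∀ X, X < G → 0 < P q X := fun X hX =>
    hall V X (Cl.minor (IsMinor.of_le hX.le) hG)
  have h0 : ∀ X, X < G → P q G ≤ st c0 m * P q X := fun X hX => (hcon X hX).le
  have hpar : Par Cl c0 q V := ⟨hc0, hq5, hyp⟩
  have hnt : Nontrivial V := Fintype.one_lt_card_iff_nontrivial.1 (by omega)
  obtain ⟨v, hv⟩ := hconn.exists_connected_induce_compl_singleton_of_finite_nontrivial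
  obtain ⟨K, hK1, hK2, hK3, hK4, hK5⟩ := hs V G (hsp V G hG) (U5Fin.sconn_univ hconn)
    ⟨v, by
      apply U5Fin.induce_sconn
      have : ((univ.erase v : Finset V) : Set V) = {v}ᶜ := by
        ext x; simp
      rw [this]
      exact hv⟩ (by omega)
  -- all vertices of K are active
  have hactG : act G K = K := by
    ext x
    rw [mem_act]
    constructor
    · exact fun h => h.1
    · intro hx
      refine ⟨hx, ?_⟩
      obtain ⟨y, hy⟩ := exists_ne x
      obtain ⟨p⟩ := hconn.preconnected x y
      cases p with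
      | nil => exact absurd rfl hy
      | cons hadj _ => exact ⟨_, hadj⟩
  have hKpos : 1 ≤ K.card := card_pos.2 hK3.1
  -- base
  have hne : dl G K ≠ G := by
    intro h
    obtain ⟨x, hx⟩ := hK3.1
    have hx' : x ∈ act G K := by rw [hactG]; exact hx
    obtain ⟨_, y, hxy⟩ := mem_act.1 hx'
    rw [← h] at hxy
    exact hxy.2.1 hx
  have hle : dl G K ≤ G := fun x y h => h.1
  have htwo := e2_eq_two_ned V G K
  have hm' : ned G (dl G K) ≤ m := by
    have h1 := e2_le_card V G K
    rw [htwo] at h1
    have h2 : K.card * (K.card + (U5Fin.nbr G K).card) ≤ s * (s + s) :=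
      Nat.mul_le_mul hK1 (Nat.add_le_add hK1 hK2)
    omega
  have hKc : ((dl G K).induce {x | x ∉ K}).Connected := by
    have h1 := U5Fin.sconn_induce hK4
    have h2 : ((Kᶜ : Finset V) : Set V) = {x | x ∉ K} := by ext x; simp
    rw [h2] at h1
    refine h1.mono ?_
    intro x y hxy
    exact ⟨hxy, x.2, y.2⟩
  have hchain := chain_q hpr hT hpar hq1 hG h0 hmin _ (dl G K) K rfl hm' hle hne
    (fun x hx y hxy => hxy.2.1 hx) hKc
  rw [hactG] at hchain
  have hlin := phi_linear hpr hKpos
  have h5 : (U5Fin.e2 G K : ℝ) = 2 * (ned G (dl G K) : ℝ) := by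
    rw [htwo]; push_cast; ring
  rw [h5] at hK5
  have : e * (K.card : ℝ) ≤ phi η c1 K.card := hlin
  nlinarith

/-- number of edges of a disjoint union -/
lemma ncard_union (V : Type) [Fintype V] (G : SimpleGraph V) (K : Finset V) :
    (G.comap (Subtype.val : {x // x ∈ K} → V)).edgeSet.ncard +
      (G.comap (Subtype.val : {x // x ∉ K} → V)).edgeSet.ncard ≤ G.edgeSet.ncard := by
  set f1 : {x // x ∈ K} ↪ V := Function.Embedding.subtype _
  set f2 : {x // x ∉ K} ↪ V := Function.Embedding.subtype _
  have e1 : ((G.comap (Subtype.val : {x // x ∈ K} → V)).map f1).edgeSet.ncard =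
      (G.comap (Subtype.val : {x // x ∈ K} → V)).edgeSet.ncard := by
    rw [edgeSet_map]
    exact Set.ncard_image_of_injective _ f1.sym2Map.injective
  have e2 : ((G.comap (Subtype.val : {x // x ∉ K} → V)).map f2).edgeSet.ncard =
      (G.comap (Subtype.val : {x // x ∉ K} → V)).edgeSet.ncard := by
    rw [edgeSet_map]
    exact Set.ncard_image_of_injective _ f2.sym2Map.injective
  rw [← e1, ← e2, ← Set.ncard_union_eq]
  · apply Set.ncard_le_ncard _ (Set.toFinite _)
    apply Set.union_subset
    · apply edgeSet_mono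
      rintro x y h
      rw [SimpleGraph.map_adj] at h
      obtain ⟨a, b, hab, rfl, rfl⟩ := h
      exact hab
    · apply edgeSet_mono
      rintro x y h
      rw [SimpleGraph.map_adj] at h
      obtain ⟨a, b, hab, rfl, rfl⟩ := h
      exact hab
  · rw [Set.disjoint_left]
    intro e h1 h2
    induction e with
    | _ x y =>
      rw [mem_edgeSet, SimpleGraph.map_adj] at h1 h2
      obtain ⟨a, b, _, ha, _⟩ := h1
      obtain ⟨c, d, _, hc, _⟩ := h2
      exact c.2 (by
        have h5 : (c : V) = a := by
          have h6 : f2 c = f1 a := by rw [hc, ha]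
          exact h6
        rw [h5]; exact a.2)

/-- **Quantitative uniform gap.** -/
theorem gap_quant (Cl : Cls)
    (hsp : ∀ (V : Type) [Fintype V] (G : SimpleGraph V), Cl.mem G → U5Fin.MinorSparse G)
    {c0 η : ℝ} {c1 : ℕ} (hc0 : 0 < c0) (hpr : Prm η c1) (hT : TLin Cl c0 η c1) :
    ∃ (ε δ : ℝ), 0 < ε ∧ 0 < δ ∧ δ ≤ 1 ∧ ∀ q : ℝ, 5 - ε < q → q < 5 →
      ∀ (V : Type) [Fintype V] (G : SimpleGraph V), Cl.mem G → δ ^ Fintype.card V ≤ P q G := by
  obtain ⟨ε1, hε1, hgap⟩ := uniform_gap Cl hsp hc0 hpr hT
  obtain ⟨κ, s, hκ, hstep⟩ := exists_step Cl hsp hc0 hpr hT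
  set δ0 : ℝ := min κ (1 / 4) with hδ0
  have hδpos : 0 < δ0 := lt_min hκ (by norm_num)
  have hδκ : δ0 ≤ κ := min_le_left _ _
  have hδ4 : δ0 ≤ 1 / 4 := min_le_right _ _
  have hδ1 : δ0 ≤ 1 := by linarith
  refine ⟨min (min ε1 κ) (1 / ((s : ℝ) + 1)), δ0 ^ 4, lt_min (lt_min hε1 hκ) (by positivity),
    by positivity, pow_le_one₀ hδpos.le hδ1, ?_⟩
  intro q hq hq5
  have hqa : 5 - ε1 < q := by
    have := (min_le_left (min ε1 κ) (1 / ((s : ℝ) + 1))).trans (min_le_left ε1 κ)
    linarith
  have hqb : 5 - κ < q := by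
    have := (min_le_left (min ε1 κ) (1 / ((s : ℝ) + 1))).trans (min_le_right ε1 κ)
    linarith
  have hqc : 5 - q < 1 / ((s : ℝ) + 1) := by
    have := min_le_right (min ε1 κ) (1 / ((s : ℝ) + 1))
    linarith
  have hs1 : (0 : ℝ) < (s : ℝ) + 1 := by positivity
  have hqd : ((s : ℝ) + 1) * (5 - q) < 1 := by
    rw [lt_div_iff₀ hs1] at hqc
    linarith
  have hq4 : 5 - q ≤ 1 := by
    have h0 : (0 : ℝ) ≤ s := Nat.cast_nonneg _
    nlinarith
  have hall := hgap q hqa hq5
  have key : ∀ (n : ℕ) (V : Type) [Fintype V] (G : SimpleGraph V),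
      Fintype.card V + G.edgeSet.ncard = n → Cl.mem G →
      δ0 ^ (Fintype.card V + G.edgeSet.ncard) ≤ P q G := by
    intro n
    induction n using Nat.strong_induction_on with
    | _ n ih =>
    intro V _ G hn hG
    rcases isEmpty_or_nonempty V with hE | hE
    · have : P q G = 1 := by
        unfold P
        rw [cp_of_isEmpty G hE]
        simp
      rw [this]
      exact pow_le_one₀ hδpos.le hδ1
    have hV1 : 1 ≤ Fintype.card V := Fintype.card_pos
    rcases Nat.lt_or_ge s (Fintype.card V) with hbig | hsmall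
    · by_cases hconn : G.Connected
      · obtain ⟨X, hX, hPX⟩ := hstep q hqb hq5 hall V G hG hconn hbig
        have hmem : Cl.mem X := Cl.minor (IsMinor.of_le hX.le) hG
        have hlt : X.edgeSet.ncard < G.edgeSet.ncard :=
          Set.ncard_lt_ncard (edgeSet_ssubset_edgeSet.2 hX) (Set.toFinite _)
        have h1 := ih (Fintype.card V + X.edgeSet.ncard) (by omega) V X rfl hmem
        have h2 : δ0 ^ (Fintype.card V + G.edgeSet.ncard) ≤
            δ0 ^ (Fintype.card V + X.edgeSet.ncard + 1) :=
          pow_le_pow_of_le_one hδpos.le hδ1 (by omega)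
        calc _ ≤ δ0 ^ (Fintype.card V + X.edgeSet.ncard + 1) := h2
          _ = δ0 * δ0 ^ (Fintype.card V + X.edgeSet.ncard) := by rw [pow_succ]; ring
          _ ≤ κ * P q X := mul_le_mul hδκ h1 (by positivity) hκ.le
          _ ≤ P q G := hPX
      · -- disconnected
        have hnp : ¬ G.Preconnected := fun h => hconn { preconnected := h, nonempty := hE }
        unfold SimpleGraph.Preconnected at hnp
        push Not at hnp
        obtain ⟨u, v, huv⟩ := hnp
        set K : Finset V := univ.filter (fun y => G.Reachable u y) with hK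
        have huK : u ∈ K := by rw [hK, Finset.mem_filter]; exact ⟨mem_univ _, Reachable.refl _⟩
        have hvK : v ∉ K := by rw [hK, Finset.mem_filter]; exact fun h => huv h.2
        have hcl : ∀ x y, G.Adj x y → (x ∈ K ↔ y ∈ K) := by
          intro x y hxy
          rw [hK, Finset.mem_filter, Finset.mem_filter]
          constructor
          · rintro ⟨_, h⟩; exact ⟨mem_univ _, h.trans hxy.reachable⟩
          · rintro ⟨_, h⟩; exact ⟨mem_univ _, h.trans hxy.symm.reachable⟩
        have hc1 : Fintype.card {x // x ∈ K} < Fintype.card V :=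
          Fintype.card_subtype_lt (x := v) hvK
        have hc2 : Fintype.card {x // x ∉ K} < Fintype.card V :=
          Fintype.card_subtype_lt (x := u) (by simpa using huK)
        have hcs : Fintype.card {x // x ∈ K} + Fintype.card {x // x ∉ K} = Fintype.card V :=
          by
            have h8 := Fintype.card_subtype_compl (fun x => x ∈ K)
            have h9 := Fintype.card_subtype_le (fun x => x ∈ K)
            omega
        have hes := ncard_union V G K
        have h1 := ih _ (by omega) {x // x ∈ K} (G.comap Subtype.val) rfl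
          (Cl.minor (minor_comap G (fun x => x ∈ K)) hG)
        have h2 := ih _ (by omega) {x // x ∉ K} (G.comap Subtype.val) rfl
          (Cl.minor (minor_comap G (fun x => x ∉ K)) hG)
        have h3 : P q G = P q (G.comap (Subtype.val : {x // x ∈ K} → V)) *
            P q (G.comap (Subtype.val : {x // x ∉ K} → V)) := by
          unfold P
          rw [cp_union G K hcl, Polynomial.eval_mul]
        rw [h3]
        calc _ ≤ δ0 ^ ((Fintype.card {x // x ∈ K} +
              (G.comap (Subtype.val : {x // x ∈ K} → V)).edgeSet.ncard) +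
              (Fintype.card {x // x ∉ K} +
              (G.comap (Subtype.val : {x // x ∉ K} → V)).edgeSet.ncard)) :=
              pow_le_pow_of_le_one hδpos.le hδ1 (by omega)
          _ = _ := pow_add _ _ _
          _ ≤ _ := mul_le_mul h1 h2 (by positivity) (le_trans (by positivity) h1)
    · -- small
      have h1 : (Fintype.card V : ℝ) * (5 - q) ≤ 1 := by
        have : (Fintype.card V : ℝ) ≤ s := by exact_mod_cast hsmall
        have h5 : 0 < 5 - q := by linarith
        nlinarith
      have h2 := P_small hq5 G (Cl.k5 hG) h1 hq4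
      refine le_trans ?_ h2
      calc δ0 ^ (Fintype.card V + G.edgeSet.ncard) ≤ δ0 ^ 1 :=
            pow_le_pow_of_le_one hδpos.le hδ1 (by omega)
        _ = δ0 := pow_one _
        _ ≤ 1 / 4 := hδ4
  intro V _ G hG
  have h1 := key _ V G rfl hG
  refine le_trans ?_ h1
  have he : G.edgeSet.ncard ≤ 3 * Fintype.card V := by
    have h2 := two_card_edges G
    have h3 : dsum G = ∑ v, deg G v := rfl
    rcases Nat.lt_or_ge (Fintype.card V) 3 with h4 | h4
    · have h5 : ∑ v, deg G v ≤ ∑ _v : V, 2 :=
        Finset.sum_le_sum (fun v _ => by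
          have := deg_lt_card G v
          omega)
      rw [Finset.sum_const, Finset.card_univ, smul_eq_mul] at h5
      omega
    · have h5 := edge_bound _ _ V G rfl rfl (Cl.k5 hG) h4
      omega
  rw [← pow_mul]
  exact pow_le_pow_of_le_one hδpos.le hδ1 (by omega)

end Pool.Agent.U5
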