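import Pool.Agent.U5.Gamma

/-!
# Arithmetic of `phi`; reductions: chords, at most one active vertex, disconnected `H[act]`
-/

set_option autoImplicit false

namespace Pool.Agent.U5

open SimpleGraph Finset Pool.Agent.Helper36.BL
open scoped Classical

/-! ### arithmetic -/

section arith

variable {η : ℝ} {c1 : ℕ}

lemma psi_nonneg (hp : Prm η c1) (n : ℕ) : 0 ≤ psi η c1 n :=
  mul_nonneg hp.pos.le (Nat.cast_nonneg _)

lemma psi_mono (hp : Prm η c1) {a b : ℕ} (h : a ≤ b) : psi η c1 a ≤ psi η c1 b := by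
  unfold psi
  apply mul_le_mul_of_nonneg_left _ hp.pos.le
  have : a - c1 ≤ b - c1 := Nat.sub_le_sub_right h c1
  exact_mod_cast this

lemma psi_zero {n : ℕ} (h : n ≤ c1) : psi η c1 n = 0 := by
  unfold psi
  rw [Nat.sub_eq_zero_of_le h]
  simp

lemma psi_add (hp : Prm η c1) (a b : ℕ) : psi η c1 (a + b) ≤ psi η c1 a + η * b := by
  unfold psi
  have h : a + b - c1 ≤ (a - c1) + b := by omega
  have h2 : ((a + b - c1 : ℕ) : ℝ) ≤ ((a - c1 : ℕ) : ℝ) + b := by exact_mod_cast h
  nlinarith [hp.pos]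

lemma psi_add2 (hp : Prm η c1) (a b : ℕ) :
    psi η c1 (a + b) ≤ psi η c1 a + psi η c1 b + η * c1 := by
  unfold psi
  have h : a + b - c1 ≤ (a - c1) + (b - c1) + c1 := by omega
  have h2 : ((a + b - c1 : ℕ) : ℝ) ≤ ((a - c1 : ℕ) : ℝ) + ((b - c1 : ℕ) : ℝ) + c1 := by
    exact_mod_cast h
  nlinarith [hp.pos]

lemma Prm.eta_c1 (hp : Prm η c1) : η * c1 ≤ 1 / 20 := by
  have := hp.small
  have := hp.pos
  nlinarith

lemma Prm.eta_le (hp : Prm η c1) : η ≤ 1 / 200 := by
  have h1 := hp.small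
  have h2 := hp.pos
  have h3 : (10 : ℝ) ≤ c1 := by exact_mod_cast hp.ten
  nlinarith

lemma phi_zero : phi η c1 0 = 1 := by simp [phi]

lemma phi_one : phi η c1 1 = 2 := by simp [phi]

lemma phi_two {n : ℕ} (h : 2 ≤ n) : phi η c1 n = 3 + psi η c1 n := by
  unfold phi
  rw [if_neg (by omega), if_neg (by omega)]

lemma phi_add (hp : Prm η c1) {a b : ℕ} (ha : 1 ≤ a) (hb : 1 ≤ b) :
    phi η c1 (a + b) ≤ phi η c1 a + phi η c1 b := by
  have h1 := hp.eta_c1
  have h2 := hp.eta_le
  have h3 := hp.pos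
  have h10 := hp.ten
  rcases Nat.lt_or_ge a 2 with ha2 | ha2
  · have : a = 1 := by omega
    subst this
    rcases Nat.lt_or_ge b 2 with hb2 | hb2
    · have : b = 1 := by omega
      subst this
      rw [phi_one, phi_two (by norm_num), psi_zero (by omega)]
      norm_num
    · rw [phi_one, phi_two hb2, phi_two (by omega)]
      have := psi_add hp b 1
      rw [Nat.add_comm 1 b]
      push_cast at this
      linarith
  · rcases Nat.lt_or_ge b 2 with hb2 | hb2
    · have : b = 1 := by omega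
      subst this
      rw [phi_one, phi_two ha2, phi_two (by omega)]
      have := psi_add hp a 1
      push_cast at this
      linarith
    · rw [phi_two ha2, phi_two hb2, phi_two (by omega)]
      have := psi_add2 hp a b
      linarith

end arith

/-! ### bases `H ∖ δ(A)` -/

section

variable {V : Type}

/-- reachability of non-isolated parts inside an induced subgraph -/
lemma induce_reach {G : SimpleGraph V} {T : Set V} (hT : ∀ t ∈ T, ∀ x, ¬ G.Adj t x) {x y : V}
    (hx : x ∉ T) (hy : y ∉ T) (h : G.Reachable x y) :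
    (G.induce {x | x ∉ T}).Reachable ⟨x, hx⟩ ⟨y, hy⟩ := by
  obtain ⟨p⟩ := h
  induction p with
  | nil => exact Reachable.refl _
  | @cons u v w huv p ih =>
    have hv : v ∉ T := fun hv => hT v hv u huv.symm
    refine Reachable.trans ?_ (ih hv hy)
    apply Adj.reachable
    exact huv

lemma data_dl {B H : SimpleGraph V} {S A : Finset V} (hd : Data B H S) (hA : A ⊆ act H S)
    (hreach : ∀ s ∈ act H S, s ∉ A → ∃ b, b ∉ S ∧ (dl H A).Reachable s b) :
    Data (dl H A) H (A ∪ (S \ act H S)) := by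
  have hiso : ∀ s ∈ A ∪ (S \ act H S), ∀ x, ¬ (dl H A).Adj s x := by
    intro s hs x hx
    rcases Finset.mem_union.1 hs with h | h
    · exact hx.2.1 h
    · obtain ⟨h1, h2⟩ := Finset.mem_sdiff.1 h
      exact h2 (mem_act.2 ⟨h1, x, hx.1⟩)
  have hB : ∀ x y, x ∉ S → y ∉ S → (dl H A).Reachable x y := by
    intro x y hx hy
    have h1 := hd.conn.preconnected ⟨x, hx⟩ ⟨y, hy⟩
    have h2 := h1.map (SimpleGraph.Embedding.induce {x | x ∉ S}).toHom
    refine h2.mono ?_
    intro a b hab
    have ha : a ∉ S := fun h => hd.iso a h b hab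
    have hb : b ∉ S := fun h => hd.iso b h a hab.symm
    exact ⟨hd.le hab, fun h => ha (mem_act.1 (hA h)).1, fun h => hb (mem_act.1 (hA h)).1⟩
  refine ⟨fun _ _ h => h.1, hiso, ?_⟩
  have hout : ∀ x, x ∉ A ∪ (S \ act H S) → ∃ b, b ∉ S ∧ (dl H A).Reachable x b := by
    intro x hx
    rw [Finset.mem_union, Finset.mem_sdiff] at hx
    push Not at hx
    by_cases hxS : x ∈ S
    · exact hreach x (hx.2 hxS) hx.1
    · exact ⟨x, hxS, Reachable.refl _⟩
  have hsub : ∀ b, b ∉ S → b ∉ A ∪ (S \ act H S) := by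
    intro b hb h
    rcases Finset.mem_union.1 h with h | h
    · exact hb (mem_act.1 (hA h)).1
    · exact hb (Finset.mem_sdiff.1 h).1
  obtain ⟨⟨v0, hv0⟩⟩ := hd.conn.nonempty
  refine { preconnected := ?_, nonempty := ⟨⟨v0, hsub v0 hv0⟩⟩ }
  rintro ⟨x, hx⟩ ⟨y, hy⟩
  obtain ⟨b, hb, hxb⟩ := hout x hx
  obtain ⟨c, hc, hyc⟩ := hout y hy
  exact induce_reach (T := {x | x ∈ A ∪ (S \ act H S)}) (fun t ht x => hiso t ht x) hx hy
    ((hxb.trans (hB b c hb hc)).trans hyc.symm)

lemma act_dl {H : SimpleGraph V} {S A : Finset V} (hA : A ⊆ act H S) :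
    act H (A ∪ (S \ act H S)) = A := by
  ext s
  rw [mem_act, Finset.mem_union, Finset.mem_sdiff]
  constructor
  · rintro ⟨h1 | ⟨h1, h2⟩, h3⟩
    · exact h1
    · exact absurd (mem_act.2 ⟨h1, h3⟩) h2
  · intro h
    exact ⟨Or.inl h, (mem_act.1 (hA h)).2⟩

/-- every active vertex outside `A` is joined to the base in `H ∖ δ(A)` if no edges join `A` to
the rest of `act` -/
lemma reach_of_split {H : SimpleGraph V} {S A : Finset V} (hcut : CutFree 3 H S)
    (hno : ∀ s ∈ act H S, s ∉ A → ∀ t ∈ A, ¬ H.Adj s t) (hA : A ⊆ act H S) :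
    ∀ s ∈ act H S, s ∉ A → ∃ b, b ∉ S ∧ (dl H A).Reachable s b := by
  intro s hs hsA
  by_contra hcon
  set K : Finset V := (act H S).filter (fun t => t ∉ A ∧ ¬ ∃ b, b ∉ S ∧ (dl H A).Reachable t b)
    with hK
  refine hcut ∅ K (Finset.filter_subset _ _) (Finset.disjoint_empty_right _)
    ⟨s, Finset.mem_filter.2 ⟨hs, hsA, hcon⟩⟩ (by simp) (by simp) ?_
  intro t ht y hty
  left
  obtain ⟨h1, h2, h3⟩ := Finset.mem_filter.1 ht
  by_cases hyS : y ∈ S
  · have hyA : y ∉ A := fun h => hno t h1 h2 y h hty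
    refine Finset.mem_filter.2 ⟨adj_act hty hyS, hyA, ?_⟩
    rintro ⟨b, hb, hr⟩
    apply h3
    refine ⟨b, hb, Reachable.trans (Adj.reachable ?_) hr⟩
    exact ⟨hty, h2, hyA⟩
  · exfalso
    apply h3
    refine ⟨y, hyS, Adj.reachable ⟨hty, h2, fun h => hyS (mem_act.1 (hA h)).1⟩⟩

end

section fin

variable {V : Type} [Fintype V] {η : ℝ} {c1 : ℕ}

/-- a chord -/
theorem Good.chord {B H : SimpleGraph V} {S : Finset V} (hG : Good η c1 B H S)
    (hn : ¬ NoChord B H S) : phi η c1 (act H S).card ≤ (pot B H S : ℝ) := by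
  unfold NoChord at hn
  push Not at hn
  obtain ⟨x, y, hx, hy, hxy, hB⟩ := hn
  have hne : x ≠ y := hxy.ne
  set Q : SimpleGraph V := B ⊔ SimpleGraph.edge x y with hQ
  have hadj : ∀ a b, Q.Adj a b ↔ B.Adj a b ∨ (a = x ∧ b = y ∨ a = y ∧ b = x) := by
    intro a b
    rw [hQ, SimpleGraph.sup_adj, SimpleGraph.edge_adj]
    constructor
    · rintro (h | ⟨h, _⟩)
      · exact Or.inl h
      · exact Or.inr h
    · rintro (h | h)
      · exact Or.inl h
      · refine Or.inr ⟨h, ?_⟩
        rcases h with ⟨h1, h2⟩ | ⟨h1, h2⟩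
        · rw [h1, h2]; exact hne
        · rw [h1, h2]; exact hne.symm
  have hQH : Q ≤ H := by
    intro a b hab
    rcases (hadj a b).1 hab with h | ⟨h1, h2⟩ | ⟨h1, h2⟩
    · exact hG.data.le h
    · rw [h1, h2]; exact hxy
    · rw [h1, h2]; exact hxy.symm
  have hBQ : B < Q := by
    refine lt_of_le_of_ne le_sup_left ?_
    intro h
    apply hB
    rw [h]
    exact (hadj x y).2 (Or.inr (Or.inl ⟨rfl, rfl⟩))
  have hiso : ∀ s ∈ S, ∀ a, ¬ Q.Adj s a := by
    intro s hs a hsa
    rcases (hadj s a).1 hsa with h | ⟨h1, h2⟩ | ⟨h1, h2⟩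
    · exact hG.data.iso s hs a h
    · exact hx (h1 ▸ hs)
    · exact hy (h1 ▸ hs)
  have hcard : (ned H B : ℤ) = ned H Q + 1 := by
    unfold ned
    have h1 : H.edgeSet \ B.edgeSet = insert s(x, y) (H.edgeSet \ Q.edgeSet) := by
      ext e
      induction e with
      | _ a b =>
        simp only [Set.mem_sdiff, SimpleGraph.mem_edgeSet, Set.mem_insert_iff, hadj]
        rw [Sym2.eq_iff]
        constructor
        · rintro ⟨h1, h2⟩
          by_cases h3 : a = x ∧ b = y ∨ a = y ∧ b = x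
          · exact Or.inl h3
          · exact Or.inr ⟨h1, by tauto⟩
        · rintro (h | ⟨h1, h2⟩)
          · rcases h with ⟨h1, h2⟩ | ⟨h1, h2⟩
            · rw [h1, h2]; exact ⟨hxy, hB⟩
            · rw [h1, h2]; exact ⟨hxy.symm, fun h => hB h.symm⟩
          · exact ⟨h1, by tauto⟩
    rw [h1, Set.ncard_insert_of_notMem]
    · push_cast
      rfl
    · simp only [Set.mem_sdiff, SimpleGraph.mem_edgeSet, hadj]
      tauto
  by_cases hQe : Q = H
  · have h1 : act H S = ∅ := by
      rw [Finset.eq_empty_iff_forall_notMem]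
      intro s hs
      obtain ⟨h1, a, h2⟩ := mem_act.1 hs
      rw [← hQe] at h2
      exact hiso s h1 a h2
    unfold pot
    rw [h1, hcard]
    simp only [Finset.card_empty, phi_zero]
    push_cast
    have : (0 : ℝ) ≤ (ned H Q : ℝ) := Nat.cast_nonneg _
    linarith
  · have hd : Data Q H S := by
      refine ⟨hQH, hiso, hG.data.conn.mono ?_⟩
      intro a b hab
      exact hBQ.le hab
    have h1 := hG.sub Q S hBQ (lt_of_le_of_ne hQH hQe) hd
    unfold pot at h1 ⊢
    rw [hcard]
    push_cast at h1 ⊢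
    linarith

theorem Good.n_pos {B H : SimpleGraph V} {S : Finset V} (hG : Good η c1 B H S)
    (nc : NoChord B H S) : 0 < (act H S).card := by
  by_contra hcon
  have h1 : act H S = ∅ := by
    rw [← Finset.card_eq_zero]
    omega
  apply hG.ne
  refine le_antisymm hG.data.le ?_
  intro a b hab
  have ha : a ∉ S := by
    intro h
    have : a ∈ act H S := mem_act.2 ⟨h, b, hab⟩
    rw [h1] at this
    exact absurd this (Finset.notMem_empty _)
  have hb : b ∉ S := by
    intro h
    have : b ∈ act H S := mem_act.2 ⟨h, a, hab.symm⟩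
    rw [h1] at this
    exact absurd this (Finset.notMem_empty _)
  exact nc a b ha hb hab

/-- one active vertex -/
theorem Good.one {B H : SimpleGraph V} {S : Finset V} (hG : Good η c1 B H S)
    (nc : NoChord B H S) (h1 : (act H S).card = 1) :
    phi η c1 (act H S).card ≤ (pot B H S : ℝ) := by
  obtain ⟨s, hs⟩ := Finset.card_eq_one.1 h1
  have h2 := two_ned hG.data nc
  have h3 := hG.deg5 s (by rw [hs]; exact Finset.mem_singleton_self s)
  have h4 : sI H S s = 0 := by
    unfold sI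
    rw [Finset.card_eq_zero, hs, Finset.filter_eq_empty_iff]
    intro x hx hadj
    rw [Finset.mem_singleton] at hx
    rw [hx] at hadj
    exact hadj.ne rfl
  rw [hs, Finset.sum_singleton, h4] at h2
  rw [deg_eq H S, h4] at h3
  have h5 : 5 ≤ ned H B := by omega
  have h6 : (2 : ℤ) ≤ pot B H S := by
    unfold pot
    rw [h1]
    push_cast
    omega
  rw [h1, phi_one]
  exact_mod_cast h6

/-- `H[act]` splits -/
theorem Good.split (hp : Prm η c1) {B H : SimpleGraph V} {S : Finset V} (hG : Good η c1 B H S)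
    (nc : NoChord B H S) (A : Finset V) (hA : A ⊆ act H S) (hne : A.Nonempty)
    (hne' : (act H S \ A).Nonempty) (hno : ∀ s ∈ A, ∀ t ∈ act H S, t ∉ A → ¬ H.Adj s t) :
    phi η c1 (act H S).card ≤ (pot B H S : ℝ) := by
  set A' := act H S \ A with hA'
  have hA'sub : A' ⊆ act H S := Finset.sdiff_subset
  -- the bound for one side
  have key : ∀ C : Finset V, C ⊆ act H S → C.Nonempty → (act H S \ C).Nonempty →
      (∀ s ∈ act H S, s ∉ C → ∀ t ∈ C, ¬ H.Adj s t) →
      phi η c1 C.card ≤ ((ned H (dl H C) : ℤ) - 3 * (C.card : ℤ) : ℝ) := by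
    intro C hC hCne hCne' hCno
    have hdC := data_dl hG.data hC (reach_of_split hG.cut hCno hC)
    have hlt1 : B < dl H C := by
      refine lt_of_le_of_ne ?_ ?_
      · intro a b hab
        refine ⟨hG.data.le hab, ?_, ?_⟩
        · intro h
          exact hG.data.iso a (mem_act.1 (hC h)).1 b hab
        · intro h
          exact hG.data.iso b (mem_act.1 (hC h)).1 a hab.symm
      · intro h
        obtain ⟨t, ht⟩ := hCne'
        obtain ⟨ht1, ht2⟩ := Finset.mem_sdiff.1 ht
        obtain ⟨ht3, x, hx⟩ := mem_act.1 ht1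
        have hxC : x ∉ C := fun h => hCno t ht1 ht2 x h hx
        have h2 : (dl H C).Adj t x := ⟨hx, ht2, hxC⟩
        rw [← h] at h2
        exact hG.data.iso t ht3 x h2
    have hlt2 : dl H C < H := by
      refine lt_of_le_of_ne (fun _ _ h => h.1) ?_
      intro h
      obtain ⟨t, ht⟩ := hCne
      obtain ⟨ht3, x, hx⟩ := mem_act.1 (hC ht)
      rw [← h] at hx
      exact hx.2.1 ht
    have h1 := hG.sub (dl H C) _ hlt1 hlt2 hdC
    rw [act_dl hC] at h1
    unfold pot at h1
    rw [act_dl hC] at h1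
    push_cast at h1 ⊢
    exact h1
  have h1 := key A hA hne hne' (fun s hs hsA t ht hst => hno t ht s hs hsA hst.symm)
  have h2 := key A' hA'sub hne' (by
    obtain ⟨a, ha⟩ := hne
    refine ⟨a, Finset.mem_sdiff.2 ⟨hA ha, fun h => (Finset.mem_sdiff.1 h).2 ha⟩⟩) (by
    intro s hs hsA' t ht hst
    have hsA : s ∈ A := by
      by_contra h
      exact hsA' (Finset.mem_sdiff.2 ⟨hs, h⟩)
    obtain ⟨ht1, ht2⟩ := Finset.mem_sdiff.1 ht
    exact hno s hsA t ht1 ht2 hst)
  have hcard : A.card + A'.card = (act H S).card := by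
    rw [hA', Finset.card_sdiff_of_subset hA]
    have := Finset.card_le_card hA
    omega
  have hned : ned H B = ned H (dl H A) + ned H (dl H A') := by
    unfold ned
    rw [← Set.ncard_union_eq]
    · congr 1
      ext e
      induction e with
      | _ a b =>
        simp only [Set.mem_sdiff, SimpleGraph.mem_edgeSet, Set.mem_union, dl_adj]
        constructor
        · rintro ⟨h3, h4⟩
          by_cases ha : a ∈ S
          · have ha' := adj_act h3.symm ha
            by_cases haA : a ∈ A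
            · left; exact ⟨h3, fun h => h.2.1 haA⟩
            · right; exact ⟨h3, fun h => h.2.1 (Finset.mem_sdiff.2 ⟨ha', haA⟩)⟩
          · by_cases hb : b ∈ S
            · have hb' := adj_act h3 hb
              by_cases hbA : b ∈ A
              · left; exact ⟨h3, fun h => h.2.2 hbA⟩
              · right; exact ⟨h3, fun h => h.2.2 (Finset.mem_sdiff.2 ⟨hb', hbA⟩)⟩
            · exact absurd (nc a b ha hb h3) h4
        · rintro (⟨h3, h4⟩ | ⟨h3, h4⟩)
          · refine ⟨h3, fun h => h4 ⟨h3, ?_, ?_⟩⟩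
            · intro ha; exact hG.data.iso a (mem_act.1 (hA ha)).1 b h
            · intro hb; exact hG.data.iso b (mem_act.1 (hA hb)).1 a h.symm
          · refine ⟨h3, fun h => h4 ⟨h3, ?_, ?_⟩⟩
            · intro ha; exact hG.data.iso a (mem_act.1 (hA'sub ha)).1 b h
            · intro hb; exact hG.data.iso b (mem_act.1 (hA'sub hb)).1 a h.symm
    · rw [Set.disjoint_left]
      intro e
      induction e with
      | _ a b =>
        simp only [Set.mem_sdiff, SimpleGraph.mem_edgeSet, dl_adj]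
        rintro ⟨h3, h4⟩ ⟨_, h5⟩
        have h6 : a ∈ A ∨ b ∈ A := by
          by_contra h
          push Not at h
          exact h4 ⟨h3, h.1, h.2⟩
        have h7 : a ∈ A' ∨ b ∈ A' := by
          by_contra h
          push Not at h
          exact h5 ⟨h3, h.1, h.2⟩
        rcases h6 with h6 | h6 <;> rcases h7 with h7 | h7
        · exact (Finset.mem_sdiff.1 h7).2 h6
        · exact hno a h6 b (Finset.mem_sdiff.1 h7).1 (Finset.mem_sdiff.1 h7).2 h3
        · exact hno b h6 a (Finset.mem_sdiff.1 h7).1 (Finset.mem_sdiff.1 h7).2 h3.symm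
        · exact (Finset.mem_sdiff.1 h7).2 h6
  have h3 := phi_add hp (Finset.card_pos.2 hne) (Finset.card_pos.2 hne')
  rw [hcard] at h3
  unfold pot
  rw [hned, ← hcard]
  rw [← hcard] at h3
  push_cast at h1 h2 ⊢
  linarith

/-- if `H[act]` is not connected, the bound holds -/
theorem Good.of_not_conn (hp : Prm η c1) {B H : SimpleGraph V} {S : Finset V}
    (hG : Good η c1 B H S) (nc : NoChord B H S)
    (hnc : ¬ ∀ s ∈ act H S, ∀ t ∈ act H S,
      Relation.ReflTransGen (fun p q => H.Adj p q ∧ p ∈ act H S ∧ q ∈ act H S) s t) :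
    phi η c1 (act H S).card ≤ (pot B H S : ℝ) := by
  push Not at hnc
  obtain ⟨s, hs, t, ht, hst⟩ := hnc
  set A : Finset V := (act H S).filter (fun v =>
    Relation.ReflTransGen (fun p q => H.Adj p q ∧ p ∈ act H S ∧ q ∈ act H S) s v) with hA
  refine hG.split hp nc A (Finset.filter_subset _ _)
    ⟨s, Finset.mem_filter.2 ⟨hs, Relation.ReflTransGen.refl⟩⟩
    ⟨t, Finset.mem_sdiff.2 ⟨ht, fun h => hst (Finset.mem_filter.1 h).2⟩⟩ ?_
  intro a ha b hb hbA hab
  obtain ⟨h1, h2⟩ := Finset.mem_filter.1 ha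
  exact hbA (Finset.mem_filter.2 ⟨hb, h2.tail ⟨hab, h1, hb⟩⟩)

end fin

end Pool.Agent.U5
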