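import Pool.Agent.U5.Poly

/-!
# Gluing along a clique
-/

set_option autoImplicit false

namespace Pool.Agent.U5

open SimpleGraph Finset Polynomial Pool.Agent.Helper36.BL
open scoped Classical

section

variable {V : Type} [Fintype V]

/-- a permutation of the colours which maps `a` to `b` -/
noncomputable def sg {ι : Type} {N : ℕ} (a b : ι → Fin N) : Equiv.Perm (Fin N) :=
  if h : ∃ σ : Equiv.Perm (Fin N), ∀ x, σ (a x) = b x then h.choose else 1

lemma sg_spec {ι : Type} [Finite ι] {N : ℕ} (a b : ι → Fin N) (ha : Function.Injective a)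
    (hb : Function.Injective b) (x : ι) : sg a b (a x) = b x := by
  have h := Equiv.Perm.exists_extending_pair a b ha hb
  unfold sg
  rw [dif_pos h]
  exact h.choose_spec x

/-- the graph on `K ∪ T` -/
def inW (H : SimpleGraph V) (K T : Finset V) : SimpleGraph {x : V // x ∈ K ∪ T} :=
  H.comap Subtype.val

/-- the clique on `T` -/
def cqW (K T : Finset V) : SimpleGraph {x : V // x ∈ K ∪ T} where
  Adj x y := x ≠ y ∧ (x : V) ∈ T ∧ (y : V) ∈ T
  symm := ⟨fun _ _ h => ⟨h.1.symm, h.2.2, h.2.1⟩⟩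
  loopless := ⟨fun _ h => h.1 rfl⟩

lemma cnt_glue (H : SimpleGraph V) (K T : Finset V)
    (hTc : ∀ x ∈ T, ∀ y ∈ T, x ≠ y → H.Adj x y) (hTK : Disjoint K T)
    (hKT : ∀ s ∈ K, ∀ x, H.Adj s x → x ∈ K ∨ x ∈ T) (N : ℕ) :
    cnt H N * cnt (cqW K T) N = cnt (inW H K T) N * cnt (dl H K) N := by
  have hKnT : ∀ x ∈ K, x ∉ T := fun x hx hx' => Finset.disjoint_left.1 hTK hx hx'
  have hTnK : ∀ x ∈ T, x ∉ K := fun x hx hx' => Finset.disjoint_left.1 hTK hx' hx
  -- restrictions to `T`
  let rW : ({x : V // x ∈ K ∪ T} → Fin N) → ({x : V // x ∈ T} → Fin N) :=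
    fun d t => d ⟨t, Finset.mem_union_right _ t.2⟩
  let rV : (V → Fin N) → ({x : V // x ∈ T} → Fin N) := fun c t => c t
  have injV : ∀ c ∈ cols H N, Function.Injective (rV c) := by
    intro c hc x y hxy
    by_contra hne
    exact (mem_cols H N c).1 hc x y (hTc x x.2 y y.2 (fun h => hne (Subtype.ext h))) hxy
  have injW : ∀ d ∈ cols (cqW K T) N, Function.Injective (rW d) := by
    intro d hd x y hxy
    by_contra hne
    refine (mem_cols _ N d).1 hd ⟨x, Finset.mem_union_right _ x.2⟩ ⟨y, Finset.mem_union_right _ y.2⟩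
      ⟨?_, x.2, y.2⟩ hxy
    intro h
    exact hne (Subtype.ext (Subtype.mk.inj h))
  have injW' : ∀ d ∈ cols (inW H K T) N, Function.Injective (rW d) := by
    intro d hd x y hxy
    by_contra hne
    exact (mem_cols _ N d).1 hd ⟨x, Finset.mem_union_right _ x.2⟩
      ⟨y, Finset.mem_union_right _ y.2⟩ (hTc x x.2 y y.2 (fun h => hne (Subtype.ext h))) hxy
  have injV' : ∀ c ∈ cols (dl H K) N, Function.Injective (rV c) := by
    intro c hc x y hxy
    by_contra hne
    exact (mem_cols _ N c).1 hc x y ⟨hTc x x.2 y y.2 (fun h => hne (Subtype.ext h)),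
      hTnK x x.2, hTnK y y.2⟩ hxy
  unfold cnt
  rw [← Finset.card_product, ← Finset.card_product]
  let F : (V → Fin N) × ({x : V // x ∈ K ∪ T} → Fin N) →
      ({x : V // x ∈ K ∪ T} → Fin N) × (V → Fin N) := fun p =>
    (fun w => if (w : V) ∈ K then (sg (rW p.2) (rV p.1)).symm (p.1 w) else p.2 w,
      fun v => if h : v ∈ K then p.2 ⟨v, Finset.mem_union_left _ h⟩ else p.1 v)
  let F' : ({x : V // x ∈ K ∪ T} → Fin N) × (V → Fin N) →
      (V → Fin N) × ({x : V // x ∈ K ∪ T} → Fin N) := fun p =>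
    (fun v => if h : v ∈ K then sg (rW p.1) (rV p.2) (p.1 ⟨v, Finset.mem_union_left _ h⟩)
        else p.2 v,
      fun w => if (w : V) ∈ K then p.2 w else p.1 w)
  have hF1 : ∀ p, rW (F p).1 = rW p.2 := by
    intro p
    funext t
    simp only [rW, F]
    rw [if_neg (hTnK t t.2)]
  have hF2 : ∀ p, rV (F p).2 = rV p.1 := by
    intro p
    funext t
    simp only [rV, F]
    rw [dif_neg (hTnK t t.2)]
  have hF'1 : ∀ p, rV (F' p).1 = rV p.2 := by
    intro p
    funext t
    simp only [rV, F']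
    rw [dif_neg (hTnK t t.2)]
  have hF'2 : ∀ p, rW (F' p).2 = rW p.1 := by
    intro p
    funext t
    simp only [rW, F']
    rw [if_neg (hTnK t t.2)]
  apply Finset.card_nbij' F F'
  · rintro ⟨c, d⟩ hp
    rw [Finset.mem_coe, Finset.mem_product] at hp
    obtain ⟨hc, hd⟩ := hp
    simp only at hc hd
    have hs := sg_spec (rW d) (rV c) (injW d hd) (injV c hc)
    have key : ∀ w : {x : V // x ∈ K ∪ T},
        (F (c, d)).1 w = (sg (rW d) (rV c)).symm (c w) := by
      intro w
      simp only [F]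
      by_cases hw : (w : V) ∈ K
      · rw [if_pos hw]
      · rw [if_neg hw]
        have hwT : (w : V) ∈ T := (Finset.mem_union.1 w.2).resolve_left hw
        rw [Equiv.eq_symm_apply]
        exact hs ⟨w, hwT⟩
    rw [Finset.mem_coe, Finset.mem_product]
    constructor
    · rw [mem_cols]
      intro x y hxy
      rw [key, key]
      intro h
      exact (mem_cols H N c).1 hc x y hxy ((sg (rW d) (rV c)).symm.injective h)
    · rw [mem_cols]
      intro x y hxy
      simp only [F]
      rw [dif_neg hxy.2.1, dif_neg hxy.2.2]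
      exact (mem_cols H N c).1 hc x y hxy.1
  · rintro ⟨c1, c2⟩ hp
    rw [Finset.mem_coe, Finset.mem_product] at hp
    obtain ⟨hc1, hc2⟩ := hp
    simp only at hc1 hc2
    have hs := sg_spec (rW c1) (rV c2) (injW' c1 hc1) (injV' c2 hc2)
    have key : ∀ v (hv : v ∈ K ∪ T),
        (F' (c1, c2)).1 v = sg (rW c1) (rV c2) (c1 ⟨v, hv⟩) := by
      intro v hv
      simp only [F']
      by_cases hw : v ∈ K
      · rw [dif_pos hw]
      · rw [dif_neg hw]
        have hwT : v ∈ T := (Finset.mem_union.1 hv).resolve_left hw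
        exact (hs ⟨v, hwT⟩).symm
    rw [Finset.mem_coe, Finset.mem_product]
    constructor
    · rw [mem_cols]
      intro x y hxy
      by_cases hxW : x ∈ K ∪ T ∧ y ∈ K ∪ T
      · rw [key x hxW.1, key y hxW.2]
        intro h
        exact (mem_cols _ N c1).1 hc1 ⟨x, hxW.1⟩ ⟨y, hxW.2⟩ hxy
          ((sg (rW c1) (rV c2)).injective h)
      · have hxK : x ∉ K := by
          intro hx
          apply hxW
          refine ⟨Finset.mem_union_left _ hx, ?_⟩
          rcases hKT x hx y hxy with h | h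
          · exact Finset.mem_union_left _ h
          · exact Finset.mem_union_right _ h
        have hyK : y ∉ K := by
          intro hy
          apply hxW
          refine ⟨?_, Finset.mem_union_left _ hy⟩
          rcases hKT y hy x hxy.symm with h | h
          · exact Finset.mem_union_left _ h
          · exact Finset.mem_union_right _ h
        simp only [F']
        rw [dif_neg hxK, dif_neg hyK]
        exact (mem_cols _ N c2).1 hc2 x y ⟨hxy, hxK, hyK⟩
    · rw [mem_cols]
      intro x y hxy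
      simp only [F']
      rw [if_neg (hTnK x hxy.2.1), if_neg (hTnK y hxy.2.2)]
      exact (mem_cols _ N c1).1 hc1 x y
        (hTc x hxy.2.1 y hxy.2.2 (fun h => hxy.1 (Subtype.ext h)))
  · rintro ⟨c, d⟩ hp
    have e1 := hF1 (c, d)
    have e2 := hF2 (c, d)
    refine Prod.ext ?_ ?_
    · funext v
      change (if h : v ∈ K then sg (rW (F (c, d)).1) (rV (F (c, d)).2)
        ((F (c, d)).1 ⟨v, Finset.mem_union_left _ h⟩) else (F (c, d)).2 v) = c v
      by_cases hv : v ∈ K
      · rw [dif_pos hv, e1, e2]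
        change sg (rW d) (rV c) (if v ∈ K then (sg (rW d) (rV c)).symm (c v) else _) = c v
        rw [if_pos hv, Equiv.apply_symm_apply]
      · rw [dif_neg hv]
        change (if h : v ∈ K then _ else c v) = c v
        rw [dif_neg hv]
    · funext w
      change (if (w : V) ∈ K then (F (c, d)).2 w else (F (c, d)).1 w) = d w
      by_cases hv : (w : V) ∈ K
      · rw [if_pos hv]
        change (if h : (w : V) ∈ K then d ⟨w, Finset.mem_union_left _ h⟩ else _) = d w
        rw [dif_pos hv]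
      · rw [if_neg hv]
        change (if (w : V) ∈ K then _ else d w) = d w
        rw [if_neg hv]
  · rintro ⟨c1, c2⟩ hp
    have e1 := hF'1 (c1, c2)
    have e2 := hF'2 (c1, c2)
    refine Prod.ext ?_ ?_
    · funext w
      change (if (w : V) ∈ K then (sg (rW (F' (c1, c2)).2) (rV (F' (c1, c2)).1)).symm
        ((F' (c1, c2)).1 w) else (F' (c1, c2)).2 w) = c1 w
      by_cases hv : (w : V) ∈ K
      · rw [if_pos hv, e1, e2]
        change (sg (rW c1) (rV c2)).symm (if h : (w : V) ∈ K then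
          sg (rW c1) (rV c2) (c1 ⟨w, Finset.mem_union_left _ h⟩) else _) = c1 w
        rw [dif_pos hv, Equiv.symm_apply_apply]
      · rw [if_neg hv]
        change (if (w : V) ∈ K then _ else c1 w) = c1 w
        rw [if_neg hv]
    · funext v
      change (if h : v ∈ K then (F' (c1, c2)).2 ⟨v, Finset.mem_union_left _ h⟩
        else (F' (c1, c2)).1 v) = c2 v
      by_cases hv : v ∈ K
      · rw [dif_pos hv]
        change (if v ∈ K then c2 v else _) = c2 v
        rw [if_pos hv]
      · rw [dif_neg hv]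
        change (if h : v ∈ K then _ else c2 v) = c2 v
        rw [dif_neg hv]

lemma P_glue (q : ℝ) (H : SimpleGraph V) (K T : Finset V)
    (hTc : ∀ x ∈ T, ∀ y ∈ T, x ≠ y → H.Adj x y) (hTK : Disjoint K T)
    (hKT : ∀ s ∈ K, ∀ x, H.Adj s x → x ∈ K ∨ x ∈ T) :
    P q H * P q (cqW K T) = P q (inW H K T) * P q (dl H K) := by
  have h : cp H * cp (cqW K T) = cp (inW H K T) * cp (dl H K) := by
    apply poly_ext
    intro N
    rw [eval_mul, eval_mul, cp_eval, cp_eval, cp_eval, cp_eval]
    exact_mod_cast cnt_glue H K T hTc hTK hKT N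
  have h' := congrArg (eval q) h
  rw [eval_mul, eval_mul] at h'
  exact h'

lemma cnt_bot_le (N : ℕ) : cnt (⊥ : SimpleGraph V) N = N ^ Fintype.card V := by
  unfold cnt
  have : cols (⊥ : SimpleGraph V) N = Finset.univ := by
    ext c
    rw [mem_cols]
    simp
  rw [this, Finset.card_univ, Fintype.card_fun, Fintype.card_fin]

lemma P_bot (q : ℝ) : P q (⊥ : SimpleGraph V) = q ^ Fintype.card V := by
  have h : cp (⊥ : SimpleGraph V) = X ^ Fintype.card V := by
    apply poly_ext
    intro N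
    rw [cp_eval, cnt_bot_le, eval_pow, eval_X]
    push_cast
    rfl
  unfold P
  rw [h, eval_pow, eval_X]

/-- lower bound for small graphs -/
lemma P_small {q : ℝ} (hq5 : q < 5) (G : SimpleGraph V) (hG : K5Free G)
    (h : (Fintype.card V : ℝ) * (5 - q) ≤ 1) (h1 : 5 - q ≤ 1) : 1 / 4 ≤ P q G := by
  have h2 := (main_real (5 - q) (by linarith) h1 _ V G rfl hG (by linarith)).1
  have h3 : (5 : ℝ) - (5 - q) = q := by ring
  rw [h3] at h2
  have h4 : (1 : ℝ) ≤ (cnt G 5 : ℝ) := by
    exact_mod_cast cnt_pos _ V G rfl hG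
  have h5 : 1 / 4 ≤ 1 - 3 / 4 * (Fintype.card V : ℝ) * (5 - q) := by linarith
  unfold P
  nlinarith

lemma isMinor_inW (H : SimpleGraph V) (K T : Finset V) : IsMinor (inW H K T) H :=
  IsMinor.of_inj Subtype.val Subtype.val_injective (fun _ _ h => h)

lemma cqW_le (H : SimpleGraph V) (K T : Finset V)
    (hTc : ∀ x ∈ T, ∀ y ∈ T, x ≠ y → H.Adj x y) : cqW K T ≤ inW H K T := by
  intro x y h
  exact hTc x h.2.1 y h.2.2 (fun h' => h.1 (Subtype.ext h'))

/-- (M3) in the form needed: a piece behind a clique can be removed at bounded cost -/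
lemma P_cut {Cl : Cls} {q : ℝ} (hyp : Hyp Cl q (Fintype.card V)) (hq4 : 4 < q) (hq5 : q < 5)
    {H : SimpleGraph V} (hH : Cl.mem H) (K T : Finset V)
    (hTc : ∀ x ∈ T, ∀ y ∈ T, x ≠ y → H.Adj x y) (hTK : Disjoint K T)
    (hKT : ∀ s ∈ K, ∀ x, H.Adj s x → x ∈ K ∨ x ∈ T) (hne : K.Nonempty) (s : ℕ)
    (hs : (K ∪ T).card ≤ s) (hsq : (s : ℝ) * (5 - q) ≤ 1) :
    1 / (4 * 5 ^ s) * P q (dl H K) ≤ P q H := by
  have hcard : Fintype.card {x : V // x ∈ K ∪ T} ≤ s := by
    rw [Fintype.card_coe]
    exact hs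
  have hle : Fintype.card {x : V // x ∈ K ∪ T} ≤ Fintype.card V :=
    Fintype.card_le_of_injective _ Subtype.val_injective
  have hmem1 : Cl.mem (inW H K T) := Cl.minor (isMinor_inW H K T) hH
  have hmem2 : Cl.mem (cqW K T) := Cl.minor (IsMinor.of_le (cqW_le H K T hTc)) hmem1
  have hsmall : (Fintype.card {x : V // x ∈ K ∪ T} : ℝ) * (5 - q) ≤ 1 := by
    have h1 : (Fintype.card {x : V // x ∈ K ∪ T} : ℝ) ≤ s := by exact_mod_cast hcard
    have h2 : (Fintype.card {x : V // x ∈ K ∪ T} : ℝ) * (5 - q) ≤ s * (5 - q) :=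
      mul_le_mul_of_nonneg_right h1 (by linarith)
    linarith
  have h1 := P_small hq5 (inW H K T) (Cl.k5 hmem1) hsmall (by linarith)
  have h2 := P_small hq5 (cqW K T) (Cl.k5 hmem2) hsmall (by linarith)
  have h3 : P q (cqW K T) ≤ 5 ^ s := by
    have hypW : Hyp Cl q (Fintype.card {x : V // x ∈ K ∪ T}) := fun V' _ G hG hc =>
      hyp V' G hG (lt_of_lt_of_le hc hle)
    have h4 := P_le hypW (bot_le : (⊥ : SimpleGraph {x : V // x ∈ K ∪ T}) ≤ cqW K T) hmem2
    rw [P_bot] at h4
    refine h4.trans ?_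
    calc q ^ Fintype.card {x : V // x ∈ K ∪ T} ≤ 5 ^ Fintype.card {x : V // x ∈ K ∪ T} :=
          pow_le_pow_left₀ (by linarith) hq5.le _
      _ ≤ 5 ^ s := pow_le_pow_right₀ (by norm_num) hcard
  have h5 := P_glue q H K T hTc hTK hKT
  obtain ⟨k, hk⟩ := hne
  have h6 : 0 < P q (dl H K) :=
    P_pos_isolated (by linarith) hyp (Cl.minor (IsMinor.of_le (fun x y h => h.1)) hH) k
      (fun y h => h.2.1 hk)
  have h7 : 0 < P q H := by
    by_contra hcon
    rw [not_lt] at hcon
    have : P q H * P q (cqW K T) ≤ 0 := mul_nonpos_of_nonpos_of_nonneg hcon (by linarith)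
    have : 0 < P q (inW H K T) * P q (dl H K) := mul_pos (by linarith) h6
    linarith
  have h8 : P q H * P q (cqW K T) ≤ P q H * 5 ^ s := mul_le_mul_of_nonneg_left h3 h7.le
  have h9 : 1 / 4 * P q (dl H K) ≤ P q (inW H K T) * P q (dl H K) :=
    mul_le_mul_of_nonneg_right h1 h6.le
  have h10 : (0 : ℝ) < 5 ^ s := by positivity
  rw [div_mul_eq_mul_div, one_mul, div_le_iff₀ (by positivity)]
  nlinarith

end

end Pool.Agent.U5
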