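import Pool.Agent.U5.Small
import Pool.Agent.Helper42.U5.DCout

/-!
# The combinatorial theorem: assembly from the discharging theorem
-/

set_option autoImplicit false

namespace Pool.Agent.U5

open SimpleGraph Finset Pool.Agent.Helper36.BL Pool.Agent.Helper1.PG
open scoped Classical

section

variable {V : Type} [Fintype V]

omit [Fintype V] in
lemma filter_ne_none {α : Type} [Fintype α] (i : DecidablePred (fun v : Option α => v ≠ none)) :
    (@Finset.filter _ (fun v : Option α => v ≠ none) i Finset.univ) =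
      Finset.univ.map Function.Embedding.some := by
  ext x
  rcases x with _ | x
  · simp
  · simp

omit [Fintype V] in
lemma card_filter_ne_none (H : SimpleGraph V) (S : Finset V)
    (i : DecidablePred (fun v : Option {s : V // s ∈ act H S} => v ≠ none)) :
    (@Finset.filter _ (fun v : Option {s : V // s ∈ act H S} => v ≠ none) i Finset.univ).card =
      (act H S).card := by
  rw [filter_ne_none, Finset.card_map, Finset.card_univ, Fintype.card_coe]

lemma card_filter_aG (H : SimpleGraph V) (S : Finset V)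
    (i : DecidablePred (fun v : Option {s : V // s ∈ act H S} => v ≠ none ∧ 1 ≤ aG H S v)) :
    (@Finset.filter _ (fun v : Option {s : V // s ∈ act H S} => v ≠ none ∧ 1 ≤ aG H S v) i
      Finset.univ).card = ((act H S).filter (fun s => 1 ≤ aV H S s)).card := by
  symm
  apply Finset.card_bij (fun t ht => some ⟨t, (Finset.mem_filter.1 ht).1⟩)
  · intro t ht
    exact Finset.mem_filter.2 ⟨Finset.mem_univ _, by simp, (Finset.mem_filter.1 ht).2⟩
  · intro t ht t' ht' h
    exact congrArg Subtype.val (Option.some_injective _ h)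
  · rintro (_ | t) ht
    · exact absurd (Finset.mem_filter.1 ht).2.1 (by simp)
    · exact ⟨t.1, Finset.mem_filter.2 ⟨t.2, (Finset.mem_filter.1 ht).2.2⟩, rfl⟩

/-- helper98's potential is ours -/
theorem pG_eq {B H : SimpleGraph V} {S : Finset V} (hd : Data B H S) (nc : NoChord B H S) :
    U5Dis.pG (gam H S) none (aG H S) = pot B H S := by
  rw [pot_gam hd nc]
  unfold U5Dis.pG
  rw [card_filter_aG, filter_ne_none, Finset.sum_map, Finset.card_map, Finset.card_univ,
    Fintype.card_coe, ← Finset.sum_coe_sort (act H S)]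
  rfl

/-- no flat patch of radius two with all thirty-seven vertices in `S` -/
def NoPatch (H : SimpleGraph V) (S : Finset V) : Prop :=
  ∀ (c : V) (r1 p2 q2 p3 a3 b3 : ZMod 6 → V), Patch H c r1 p2 q2 p3 a3 b3 →
    c ∈ S → (∀ k, r1 k ∈ S) → (∀ k, p2 k ∈ S) → (∀ k, q2 k ∈ S) → (∀ k, p3 k ∈ S) →
    (∀ k, a3 k ∈ S) → (∀ k, b3 k ∈ S) → False

variable {F : Type} [Fintype F] {H : SimpleGraph V} {S : Finset V}

/-- a flat vertex of `Γ` is flat in `H` -/
theorem flatV_of_flat (D : PlaneData (gam H S) F) (hT : TriOK (gam H S) none)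
    {s : {s : V // s ∈ act H S}} (hf : U5Dis.Flat D none (aG H S) (dG H S) (some s)) :
    FlatV H s.1 ∧ ∀ x, H.Adj s.1 x → x ∈ S := by
  obtain ⟨_, h1, h2, h3⟩ := hf
  simp only [aG_some, dG_some] at h1 h2
  have hS : ∀ x, H.Adj s.1 x → x ∈ S := by
    intro x hx
    by_contra h
    have := aV_pos.2 ⟨x, h, hx⟩
    omega
  have hdeg : D.deg (some s) = 6 := by
    have h4 : D.deg (some s) = deg (gam H S) (some s) := by
      rw [D.deg_eq_card]
      unfold deg
      congr 1
    rw [h4, deg_gam_some, if_neg (by omega)]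
    have := deg_eq H S s.1
    omega
  refine ⟨?_, hS⟩
  let e : ZMod 6 ≃+* ZMod (D.deg (some s)) := ZMod.ringEquivCongr hdeg.symm
  have hnn : ∀ i, D.nb (some s) i ≠ none := by
    intro i h
    have h4 := D.adj_nb (some s) i
    rw [h, gam_some_none] at h4
    obtain ⟨b, hb, hb'⟩ := h4
    exact hb (hS b hb')
  have hex : ∀ k : ZMod 6, ∃ t : {s : V // s ∈ act H S}, D.nb (some s) (e k) = some t := by
    intro k
    exact Option.ne_none_iff_exists'.1 (hnn (e k))
  choose n hn using hex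
  have he1 : ∀ k : ZMod 6, e (k + 1) = e k + 1 := by
    intro k
    rw [map_add, map_one]
  refine ⟨fun k => (n k).1, ?_, ?_, ?_⟩
  · intro j k hjk
    have h5 : n j = n k := Subtype.ext hjk
    have h6 : D.nb (some s) (e j) = D.nb (some s) (e k) := by rw [hn, hn, h5]
    exact e.injective (D.nb_inj _ h6)
  · intro w
    constructor
    · intro hw
      have hwS := hS w hw
      have hwA := adj_act hw hwS
      have h5 : (gam H S).Adj (some s) (some ⟨w, hwA⟩) := hw
      obtain ⟨i, hi⟩ := (D.adj_iff _ _).1 h5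
      refine ⟨e.symm i, ?_⟩
      have h6 := hn (e.symm i)
      rw [e.apply_symm_apply, hi] at h6
      exact (congrArg Subtype.val (Option.some_injective _ h6)).symm
    · rintro ⟨k, rfl⟩
      have h5 := D.adj_nb (some s) (e k)
      rw [hn] at h5
      exact h5
  · intro j k
    have h5 : H.Adj (n j).1 (n k).1 ↔
        (gam H S).Adj (D.nb (some s) (e j)) (D.nb (some s) (e k)) := by
      rw [hn, hn]
      rfl
    have hlen : ∀ i, D.len (D.fc (some s) i) = 3 := fun i => h3 _ ⟨_, D.on_fc _ i⟩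
    rw [h5]
    constructor
    · intro hadj
      by_contra hcon
      push Not at hcon
      refine D.not_adj_of_far hT (by simp) ?_ ?_ ?_ (hnn (e j)) (hnn (e k)) hadj
      · intro h
        rw [h] at hadj
        exact hadj.ne rfl
      · intro h
        rw [← he1] at h
        exact hcon.1 (e.injective h).symm
      · intro h
        rw [← he1] at h
        exact hcon.2 (e.injective h).symm
    · rintro (h | h)
      · rw [h, he1]
        exact D.adj_of_len3 (hlen _)
      · rw [h, he1]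
        exact (D.adj_of_len3 (hlen _)).symm

/-- no flat patch: every vertex is near a vertex that is not flat -/
theorem nfk_of_noPatch (D : PlaneData (gam H S) F) (hT : TriOK (gam H S) none)
    (hnp : NoPatch H S) : ∀ v, v ≠ none → U5Dis.NFk D none (aG H S) (dG H S) 2 v := by
  intro v hv
  by_contra hcon
  rcases v with _ | c
  · exact hv rfl
  have hflat0 : ∀ w, ¬ U5Dis.NFk D none (aG H S) (dG H S) 0 w →
      U5Dis.Flat D none (aG H S) (dG H S) w := fun w h => by
    by_contra h'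
    exact h h'
  have hflat1 : ∀ k w, ¬ U5Dis.NFk D none (aG H S) (dG H S) (k + 1) w →
      ¬ U5Dis.NFk D none (aG H S) (dG H S) k w ∧ ∀ x, x ≠ none → (gam H S).Adj w x →
        ¬ U5Dis.NFk D none (aG H S) (dG H S) k x := by
    intro k w h
    exact ⟨fun h' => h (Or.inl h'), fun x hx hx' h' => h (Or.inr ⟨x, hx, hx', h'⟩)⟩
  obtain ⟨h1, h2⟩ := hflat1 1 _ hcon
  have hc := flatV_of_flat D hT (hflat0 _ (hflat1 0 _ h1).1)
  have hx : ∀ x, H.Adj c.1 x → (FlatV H x ∧ ∀ y, H.Adj x y → y ∈ S) ∧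
      ∀ y, H.Adj x y → (FlatV H y ∧ ∀ z, H.Adj y z → z ∈ S) := by
    intro x hx
    have hxS := hc.2 x hx
    have hxA := adj_act hx hxS
    have h3 := hflat1 0 _ (h2 (some ⟨x, hxA⟩) (by simp) hx)
    have h4 := flatV_of_flat D hT (hflat0 _ h3.1)
    refine ⟨h4, ?_⟩
    intro y hy
    have hyS := h4.2 y hy
    have hyA := adj_act hy hyS
    exact flatV_of_flat D hT (hflat0 _ (h3.2 (some ⟨y, hyA⟩) (by simp) hy))
  obtain ⟨r1, p2, q2, p3, a3, b3, hP⟩ := exists_patch c.1 hc.1 (fun x h => (hx x h).1.1)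
    (fun x y h h' => ((hx x h).2 y h').1)
  have hr : ∀ k, H.Adj c.1 (r1 k) := fun k => (hP.fc.adj _).2 ⟨k, rfl⟩
  have hp2 : ∀ k, H.Adj (r1 k) (p2 k) := by
    intro k
    obtain ⟨n, hn, h3, _⟩ := hP.f1 k
    exact (hn.adj _).2 ⟨k, h3⟩
  have hq2 : ∀ k, H.Adj (r1 k) (q2 k) := by
    intro k
    obtain ⟨n, hn, _, h3, _⟩ := hP.f1 k
    exact (hn.adj _).2 ⟨k + 1, h3⟩
  refine hnp c.1 r1 p2 q2 p3 a3 b3 hP (mem_act.1 c.2).1 (fun k => hc.2 _ (hr k))
    (fun k => (hx _ (hr k)).1.2 _ (hp2 k)) (fun k => (hx _ (hr k)).1.2 _ (hq2 k)) ?_ ?_ ?_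
  · intro k
    obtain ⟨n, hn, h3, _⟩ := hP.f2 k
    exact ((hx _ (hr k)).2 _ (hp2 k)).2 _ ((hn.adj _).2 ⟨k, h3⟩)
  · intro k
    obtain ⟨n, hn, h3, _⟩ := hP.g2 k
    exact ((hx _ (hr k)).2 _ (hq2 k)).2 _ ((hn.adj _).2 ⟨k, h3⟩)
  · intro k
    obtain ⟨n, hn, _, h3, _⟩ := hP.g2 k
    exact ((hx _ (hr k)).2 _ (hq2 k)).2 _ ((hn.adj _).2 ⟨k + 1, h3⟩)

/-- the constants of the discharging theorem with `r = 2` -/
def KC1 : ℕ := 50 ^ 5 * 15750487
/-- see `KC1` -/
def KC2 : ℕ := 50 ^ 5 * 42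

theorem card_le_of_dc {B : SimpleGraph V} (D : PlaneData (gam H S) F)
    (hT : TriOK (gam H S) none) (hdc : U5Dis.DC D none (aG H S) (dG H S)) (hnp : NoPatch H S)
    (hd : Data B H S) (nc : NoChord B H S) :
    ((act H S).card : ℝ) ≤ (KC1 : ℝ) * ((pot B H S : ℝ) - 3) + (KC2 : ℝ) := by
  have h1 := U5Dis.count_bound hdc 2 (nfk_of_noPatch D hT hnp)
  rw [pG_eq hd nc] at h1
  have h3 : ((act H S).card : ℤ) ≤ 50 ^ (3 + 2) * (15750487 * (pot B H S - 3) + 42) := by
    rw [card_filter_ne_none] at h1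
    exact h1
  have h4 : (((act H S).card : ℤ) : ℝ) ≤
      ((50 ^ (3 + 2) * (15750487 * (pot B H S - 3) + 42) : ℤ) : ℝ) := by exact_mod_cast h3
  unfold KC1 KC2
  push_cast at h4 ⊢
  linarith

end

end Pool.Agent.U5
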