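import Pool.Agent.U5.PatchFree
import Pool.Agent.U5.PlIso
import Pool.Agent.U5.PlSparse
import Pool.Agent.U5.Quant

/-!
# The uniform gap for the class of plane graphs, from the patch exclusion
-/

set_option autoImplicit false

namespace Pool.Agent.U5

open SimpleGraph Finset Polynomial Pool.Agent.Helper36.BL Pool.Agent.Helper1.PG

/-- at and above five -/
lemma one_le_above {q : ℝ} (hq : 5 ≤ q) {V : Type} [Fintype V] (G : SimpleGraph V)
    (hG : K5Free G) : 1 ≤ (cp G).eval q := by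
  have h1 := coeff_nonneg _ V G rfl hG
  set f := (cp G).comp (X + C 5) with hf
  have h2 : (cp G).eval q = f.eval (q - 5) := by
    rw [hf, eval_comp, eval_add, eval_X, eval_C, sub_add_cancel]
  have h3 : f.coeff 0 = (cp G).eval 5 := by
    rw [coeff_zero_eq_eval_zero, hf, eval_comp, eval_add, eval_X, eval_C, zero_add]
  have h4 : f.coeff 0 ≤ f.eval (q - 5) := by
    rw [eval_eq_sum_range]
    have h5 : f.coeff 0 = f.coeff 0 * (q - 5) ^ 0 := by rw [pow_zero, mul_one]
    rw [h5]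
    exact Finset.single_le_sum (f := fun i => f.coeff i * (q - 5) ^ i)
      (fun i _ => mul_nonneg (h1 i) (pow_nonneg (by linarith) i))
      (Finset.mem_range.2 (Nat.succ_pos _))
  have h6 : (1 : ℝ) ≤ (cnt G 5 : ℝ) := by exact_mod_cast cnt_pos _ V G rfl hG
  rw [cnt_five] at h3
  linarith

/-- The uniform gap below five for the plane class, from the patch exclusion, with an exponential
lower bound. -/
theorem gap_of_phiFree (hpf : ∃ c0 : ℝ, 0 < c0 ∧ PhiFree plCls c0) :
    ∃ ε δ : ℝ, 0 < ε ∧ 0 < δ ∧ ∀ q : ℝ, 5 - ε < q → ∀ (V : Type) [Fintype V]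
      (G : SimpleGraph V), Pl G → δ ^ Fintype.card V ≤ (cp G).eval q := by
  obtain ⟨c0, hc0, hphi⟩ := hpf
  obtain ⟨η, c1, hprm, hT⟩ := tlin (Cl := plCls) (c0 := c0) (fun V _ G h => h)
    (patchFree_of_phiFree hphi)
  obtain ⟨ε, δ, hε, hδ, hδ1, h⟩ := gap_quant plCls (fun V _ G hG => minorSparse_of_Pl hG) hc0 hprm hT
  refine ⟨ε, δ, hε, hδ, ?_⟩
  intro q hq V _ G hG
  rcases lt_or_ge q 5 with h5 | h5
  · exact h q hq h5 V G hG
  · exact (pow_le_one₀ hδ.le hδ1).trans (one_le_above h5 G (Pl_k5 hG))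

end Pool.Agent.U5
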