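import Pool.Agent.U5.Core
import Pool.Agent.Helper1.PG.Data

/-!
# The graph `Γ = H / (V ∖ S)`: minor of `H`, 2-connected, degrees, Euler identities (E), (E')
-/

set_option autoImplicit false

namespace Pool.Agent.U5

open SimpleGraph Finset Pool.Agent.Helper36.BL Pool.Agent.Helper1.PG
open scoped Classical

section general

variable {V : Type}

/-- a walk of `B` starting outside the isolated set `S` stays outside `S` -/
lemma Data.minor {B H : SimpleGraph V} {S : Finset V} (hd : Data B H S) :
    IsMinor (gam H S) H := by
  refine ⟨fun w => match w with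
    | some s => {s.1}
    | none => {x | x ∉ S}, ?_, ?_, ?_⟩
  · rintro (_ | s)
    · exact hd.conn.mono (by
        intro x y hxy
        exact hd.le hxy)
    · exact { preconnected := by
                rintro ⟨x, hx⟩ ⟨y, hy⟩
                have : x = y := by
                  simp only [Set.mem_singleton_iff] at hx hy
                  rw [hx, hy]
                subst this
                exact Reachable.refl _
              nonempty := ⟨⟨s.1, rfl⟩⟩ }
  · rintro (_ | s) (_ | t) hne
    · exact absurd rfl hne
    · rw [Set.disjoint_left]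
      intro x hx hx'
      simp only [Set.mem_singleton_iff] at hx'
      subst hx'
      exact hx (Finset.mem_filter.1 t.2).1
    · rw [Set.disjoint_left]
      intro x hx hx'
      simp only [Set.mem_singleton_iff] at hx
      subst hx
      exact hx' (Finset.mem_filter.1 s.2).1
    · rw [Set.disjoint_left]
      intro x hx hx'
      simp only [Set.mem_singleton_iff] at hx hx'
      apply hne
      rw [show s = t from Subtype.ext (hx.symm.trans hx')]
  · rintro (_ | s) (_ | t) h
    · exact absurd h (by simp)
    · obtain ⟨b, hb, hb'⟩ := h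
      exact ⟨b, hb, t.1, rfl, hb'.symm⟩
    · obtain ⟨b, hb, hb'⟩ := h
      exact ⟨s.1, rfl, b, hb, hb'⟩
    · exact ⟨s.1, rfl, t.1, rfl, h⟩

lemma mem_act {H : SimpleGraph V} {S : Finset V} {s : V} :
    s ∈ act H S ↔ s ∈ S ∧ ∃ x, H.Adj s x := by
  unfold act
  exact Finset.mem_filter

/-- a neighbour of anything is active or outside `S` -/
lemma adj_act {H : SimpleGraph V} {S : Finset V} {x y : V} (h : H.Adj x y) (hy : y ∈ S) :
    y ∈ act H S := mem_act.2 ⟨hy, x, h.symm⟩

end general

section fin

variable {V : Type} [Fintype V]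

omit [Fintype V] in
/-- `Γ - s` is connected for active `s`, `Γ - o` is connected if `H[act]` is. -/
theorem twoC_gam {H : SimpleGraph V} {S : Finset V} (hcut : CutFree 3 H S)
    (hc : ∀ s ∈ act H S, ∀ t ∈ act H S,
      Relation.ReflTransGen (fun p q => H.Adj p q ∧ p ∈ act H S ∧ q ∈ act H S) s t) :
    TwoC (gam H S) := by
  intro v x y hx hy
  rcases v with _ | w
  · -- `Γ - o`
    rcases x with _ | s
    · exact absurd rfl hx
    rcases y with _ | t
    · exact absurd rfl hy
    have key : ∀ t', Relation.ReflTransGen (fun p q => H.Adj p q ∧ p ∈ act H S ∧ q ∈ act H S)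
        s.1 t' → ∀ ht' : t' ∈ act H S, Relation.ReflTransGen
          (fun p q => (gam H S).Adj p q ∧ p ≠ none ∧ q ≠ none) (some s) (some ⟨t', ht'⟩) := by
      intro t' h
      induction h with
      | refl => intro _; exact Relation.ReflTransGen.refl
      | tail h1 h2 ih =>
        intro ht'
        exact (ih h2.2.1).tail ⟨h2.1, by simp, by simp⟩
    exact key t.1 (hc s.1 s.2 t.1 t.2) t.2
  · -- `Γ - w` : everything is joined to `none`
    have hsymm : ∀ a b, Relation.ReflTransGen
        (fun p q => (gam H S).Adj p q ∧ p ≠ some w ∧ q ≠ some w) a b →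
        Relation.ReflTransGen (fun p q => (gam H S).Adj p q ∧ p ≠ some w ∧ q ≠ some w) b a := by
      intro a b h
      induction h with
      | refl => exact Relation.ReflTransGen.refl
      | tail h1 h2 ih => exact Relation.ReflTransGen.head ⟨h2.1.symm, h2.2.2, h2.2.1⟩ ih
    have key : ∀ x, x ≠ some w → Relation.ReflTransGen
        (fun p q => (gam H S).Adj p q ∧ p ≠ some w ∧ q ≠ some w) none x := by
      intro x hx
      by_contra hcon
      set K : Finset V := (act H S).filter (fun s => s ≠ w.1 ∧ ∀ hs : s ∈ act H S,
        ¬ Relation.ReflTransGen (fun p q => (gam H S).Adj p q ∧ p ≠ some w ∧ q ≠ some w)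
          none (some ⟨s, hs⟩)) with hK
      refine hcut {w.1} K (Finset.filter_subset _ _) ?_ ?_ (by simp) ?_ ?_
      · rw [Finset.disjoint_singleton_right]
        intro h
        exact (Finset.mem_filter.1 h).2.1 rfl
      · rcases x with _ | s
        · exact absurd Relation.ReflTransGen.refl hcon
        · refine ⟨s.1, Finset.mem_filter.2 ⟨s.2, ?_, fun hs => hcon⟩⟩
          intro h
          apply hx
          rw [show s = w from Subtype.ext h]
      · intro a ha b hb hab
        rw [Finset.mem_singleton] at ha hb
        exact absurd (ha.trans hb.symm) hab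
      · intro s hs y hy
        rw [Finset.mem_singleton]
        by_contra hcon2
        push Not at hcon2
        obtain ⟨hyK, hyw⟩ := hcon2
        obtain ⟨hsA, hsw, hsn⟩ := Finset.mem_filter.1 hs
        by_cases hyS : y ∈ S
        · have hyA := adj_act hy hyS
          apply hyK
          refine Finset.mem_filter.2 ⟨hyA, hyw, ?_⟩
          intro _ hr
          apply hsn hsA
          refine hr.tail ⟨hy.symm, ?_, ?_⟩
          · intro h
            apply hyw
            have := Option.some_injective _ h
            exact congrArg Subtype.val this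
          · intro h
            apply hsw
            have := Option.some_injective _ h
            exact congrArg Subtype.val this
        · apply hsn hsA
          refine Relation.ReflTransGen.single ⟨⟨y, hyS, hy⟩, by simp, ?_⟩
          intro h
          apply hsw
          have := Option.some_injective _ h
          exact congrArg Subtype.val this
    exact (hsymm _ _ (key x hx)).trans (key y hy)

/-- number of active neighbours -/
noncomputable def sI (H : SimpleGraph V) (S : Finset V) (s : V) : ℕ :=
  ((act H S).filter (fun x => H.Adj s x)).card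

lemma deg_eq (H : SimpleGraph V) (S : Finset V) (s : V) : deg H s = sI H S s + aV H S s := by
  unfold deg sI aV
  rw [← Finset.card_union_of_disjoint]
  · congr 1
    ext x
    simp only [Finset.mem_filter, Finset.mem_univ, true_and, Finset.mem_union]
    constructor
    · intro h
      by_cases hx : x ∈ S
      · exact Or.inl ⟨adj_act h hx, h⟩
      · exact Or.inr ⟨hx, h⟩
    · rintro (h | h)
      · exact h.2
      · exact h.2
  · rw [Finset.disjoint_left]
    intro x hx hx'
    exact (Finset.mem_filter.1 hx').2.1 (mem_act.1 (Finset.mem_filter.1 hx).1).1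

lemma two_card_edges (G : SimpleGraph V) : 2 * G.edgeSet.ncard = ∑ v, deg G v := by
  have h : ∀ v, deg G v = G.degree v := by
    intro v
    rw [← SimpleGraph.card_neighborFinset_eq_degree]
    unfold deg
    congr 1
    ext x
    simp
  rw [Finset.sum_congr rfl (fun v _ => h v), SimpleGraph.sum_degrees_eq_twice_card_edges,
    Set.ncard_eq_toFinset_card']
  rfl

/-- twice the number of new edges -/
theorem two_ned {B H : SimpleGraph V} {S : Finset V} (hd : Data B H S) (nc : NoChord B H S) :
    2 * ned H B = ∑ s ∈ act H S, (sI H S s + 2 * aV H S s) := by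
  have h0 := two_card_edges (V := V)
  have h1 : ned H B = (H \ B).edgeSet.ncard := by
    unfold ned
    rw [← SimpleGraph.edgeSet_sdiff]
  rw [h1, h0]
  have h2 : ∀ v, deg (H \ B) v = (Finset.univ.filter (fun x => (H \ B).Adj v x)).card := by
    intro v
    unfold deg
    congr 1
    ext x
    simp only [Finset.mem_filter, Finset.mem_univ, true_and]
  have h3 : ∀ v ∈ act H S, deg (H \ B) v = sI H S v + aV H S v := by
    intro v hv
    rw [h2, ← deg_eq]
    unfold deg
    congr 1
    ext x
    simp only [SimpleGraph.sdiff_adj, Finset.mem_filter, Finset.mem_univ, true_and]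
    exact ⟨fun h => h.1, fun h => ⟨h, hd.iso v (mem_act.1 hv).1 x⟩⟩
  have h4 : ∀ v, v ∈ S → v ∉ act H S → deg (H \ B) v = 0 := by
    intro v hv hv'
    rw [h2, Finset.card_eq_zero, Finset.filter_eq_empty_iff]
    intro x _ hx
    exact hv' (mem_act.2 ⟨hv, x, hx.1⟩)
  have h5 : ∀ v, v ∉ S → deg (H \ B) v = ((act H S).filter (fun x => H.Adj v x)).card := by
    intro v hv
    rw [h2]
    congr 1
    ext x
    simp only [SimpleGraph.sdiff_adj, Finset.mem_filter, Finset.mem_univ, true_and]
    constructor
    · rintro ⟨h6, h7⟩
      by_cases hx : x ∈ S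
      · exact ⟨adj_act h6 hx, h6⟩
      · exact absurd (nc v x hv hx h6) h7
    · rintro ⟨h6, h7⟩
      exact ⟨h7, fun h => hd.iso x (mem_act.1 h6).1 v h.symm⟩
  have h6 : ∑ v ∈ Finset.univ.filter (fun v => v ∉ S), deg (H \ B) v =
      ∑ s ∈ act H S, aV H S s := by
    have : ∀ v ∈ Finset.univ.filter (fun v => v ∉ S), deg (H \ B) v =
        ∑ s ∈ act H S, if H.Adj v s then 1 else 0 := by
      intro v hv
      rw [h5 v (Finset.mem_filter.1 hv).2, Finset.card_filter]
    rw [Finset.sum_congr rfl this, Finset.sum_comm]
    apply Finset.sum_congr rfl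
    intro s _
    unfold aV
    rw [← Finset.card_filter, Finset.filter_filter]
    congr 1
    ext x
    simp only [Finset.mem_filter, Finset.mem_univ, true_and]
    exact ⟨fun h => ⟨h.1, h.2.symm⟩, fun h => ⟨h.1, h.2.symm⟩⟩
  have h7 : ∑ v, deg (H \ B) v = ∑ v ∈ Finset.univ.filter (fun v => v ∉ S),
      deg (H \ B) v + ∑ v ∈ act H S, deg (H \ B) v := by
    rw [← Finset.sum_filter_add_sum_filter_not Finset.univ (fun v => v ∉ S)]
    congr 1
    symm
    apply Finset.sum_subset
    · intro v hv
      simp only [Finset.mem_filter, Finset.mem_univ, true_and, not_not]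
      exact (mem_act.1 hv).1
    · intro v hv hv'
      simp only [Finset.mem_filter, Finset.mem_univ, true_and, not_not] at hv
      exact h4 v hv hv'
  rw [h7, h6, Finset.sum_congr rfl h3, ← Finset.sum_add_distrib]
  apply Finset.sum_congr rfl
  intro s _
  ring

lemma aV_pos {H : SimpleGraph V} {S : Finset V} {s : V} :
    1 ≤ aV H S s ↔ ∃ b, b ∉ S ∧ H.Adj s b := by
  unfold aV
  rw [Nat.one_le_iff_ne_zero, ← Nat.pos_iff_ne_zero, Finset.card_pos]
  constructor
  · rintro ⟨b, hb⟩
    exact ⟨b, (Finset.mem_filter.1 hb).2⟩
  · rintro ⟨b, hb⟩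
    exact ⟨b, Finset.mem_filter.2 ⟨Finset.mem_univ _, hb⟩⟩

lemma deg_gam_some (H : SimpleGraph V) (S : Finset V) (s : {s : V // s ∈ act H S}) :
    deg (gam H S) (some s) = sI H S s + if 1 ≤ aV H S s then 1 else 0 := by
  unfold deg
  have h1 : (Finset.univ : Finset (Option {s : V // s ∈ act H S})) =
      insert none (Finset.univ.map Function.Embedding.some) := by
    ext x
    rcases x with _ | x
    · simp
    · simp
  rw [h1, Finset.filter_insert, Finset.filter_map]
  have h2 : (Finset.univ.filter (fun t : {s : V // s ∈ act H S} => H.Adj s t)).card =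
      sI H S s := by
    unfold sI
    apply Finset.card_bij (fun t _ => t.1)
    · intro t ht
      exact Finset.mem_filter.2 ⟨t.2, (Finset.mem_filter.1 ht).2⟩
    · intro t _ t' _ h
      exact Subtype.ext h
    · intro t ht
      obtain ⟨h3, h4⟩ := Finset.mem_filter.1 ht
      exact ⟨⟨t, h3⟩, Finset.mem_filter.2 ⟨Finset.mem_univ _, h4⟩, rfl⟩
  by_cases h : 1 ≤ aV H S s
  · rw [if_pos ((gam_some_none H S s).2 (aV_pos.1 h)), if_pos h, Finset.card_insert_of_notMem,
      Finset.card_map]
    · simpa using h2
    · simp
  · rw [if_neg (fun h' => h (aV_pos.2 ((gam_some_none H S s).1 h'))), if_neg h, Finset.card_map]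
    simpa using h2

lemma deg_gam_none (H : SimpleGraph V) (S : Finset V) :
    deg (gam H S) none = ((act H S).filter (fun s => 1 ≤ aV H S s)).card := by
  unfold deg
  symm
  apply Finset.card_bij (fun t ht => some ⟨t, (Finset.mem_filter.1 ht).1⟩)
  · intro t ht
    exact Finset.mem_filter.2 ⟨Finset.mem_univ _, aV_pos.1 (Finset.mem_filter.1 ht).2⟩
  · intro t ht t' ht' h
    exact congrArg Subtype.val (Option.some_injective _ h)
  · rintro (_ | t) ht
    · exact absurd (Finset.mem_filter.1 ht).2 (by simp)
    · exact ⟨t.1, Finset.mem_filter.2 ⟨t.2, aV_pos.2 (Finset.mem_filter.1 ht).2⟩, rfl⟩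

/-- the number of edges of `Γ` -/
theorem two_card_gam (H : SimpleGraph V) (S : Finset V) :
    2 * Nat.card (gam H S).edgeSet = ∑ s ∈ act H S, sI H S s +
      2 * ((act H S).filter (fun s => 1 ≤ aV H S s)).card := by
  have h1 : Nat.card (gam H S).edgeSet = (gam H S).edgeSet.ncard := rfl
  rw [h1, two_card_edges, Fintype.sum_option, deg_gam_none]
  have h2 : ∑ s : {s : V // s ∈ act H S}, deg (gam H S) (some s) =
      ∑ s ∈ act H S, (sI H S s + if 1 ≤ aV H S s then 1 else 0) := by
    rw [← Finset.sum_coe_sort (act H S)]
    apply Finset.sum_congr rfl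
    intro s _
    exact deg_gam_some H S s
  rw [h2, Finset.sum_add_distrib, ← Finset.card_filter]
  ring

/-- the potential in terms of `Γ` -/
theorem pot_gam {B H : SimpleGraph V} {S : Finset V} (hd : Data B H S) (nc : NoChord B H S) :
    pot B H S = (Nat.card (gam H S).edgeSet : ℤ) -
      ((act H S).filter (fun s => 1 ≤ aV H S s)).card + ∑ s ∈ act H S, (aV H S s : ℤ) -
      3 * (act H S).card := by
  have h1 := two_ned hd nc
  have h2 := two_card_gam H S
  rw [Finset.sum_add_distrib, ← Finset.mul_sum] at h1
  unfold pot
  have h3 : (ned H B : ℤ) = (Nat.card (gam H S).edgeSet : ℤ) -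
      ((act H S).filter (fun s => 1 ≤ aV H S s)).card + ∑ s ∈ act H S, (aV H S s : ℤ) := by
    have h4 : ((∑ s ∈ act H S, aV H S s : ℕ) : ℤ) = ∑ s ∈ act H S, (aV H S s : ℤ) := by
      push_cast
      rfl
    rw [← h4]
    omega
  rw [h3]

end fin

end Pool.Agent.U5
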