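import Pool.Agent.U5.Comb
import Pool.Agent.Helper15.U5.GoodOfCrt
import Pool.Agent.Helper15.U5.Bridge
import Pool.Agent.Helper42.U5.Sec5
import Pool.Agent.Helper98.U5.Chain

/-!
# Assembly of the linear potential bound
-/

set_option autoImplicit false

namespace Pool.Agent.U5

open SimpleGraph Finset Pool.Agent.Helper36.BL Pool.Agent.Helper1.PG
open scoped Classical

/-- The final inequality. `C1, C2` are the constants of the discharging theorem. -/
lemma final_arith {η : ℝ} {c1 n : ℕ} {p C1 C2 : ℝ} (hη : 0 < η) (hC : 0 ≤ C1) (h1 : C1 * η ≤ 1)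
    (h2 : C2 < c1) (hn : 2 ≤ n) (h3 : 3 ≤ p)
    (h4 : c1 < n → (n : ℝ) ≤ C1 * (p - 3) + C2) : phi η c1 n ≤ p := by
  rw [phi_two hn]
  by_contra hcon
  push Not at hcon
  rcases Nat.lt_or_ge c1 n with h | h
  · have h5 := h4 h
    have h6 : ((n - c1 : ℕ) : ℝ) = (n : ℝ) - c1 := by
      rw [Nat.cast_sub h.le]
    unfold psi at hcon
    rw [h6] at hcon
    have h7 : (c1 : ℝ) < n := by exact_mod_cast h
    have h8 : C1 * (p - 3) ≤ C1 * (η * (n - c1)) := by
      apply mul_le_mul_of_nonneg_left _ hC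
      linarith
    have h9 : C1 * (η * (n - c1)) ≤ n - c1 := by
      have : 0 ≤ (n : ℝ) - c1 := by linarith
      nlinarith
    linarith
  · rw [psi_zero h] at hcon
    linarith

/-- a choice of the parameters -/
lemma exists_prm (C1 C2 : ℝ) (hC : 0 ≤ C1) :
    ∃ (η : ℝ) (c1 : ℕ), Prm η c1 ∧ C1 * η ≤ 1 ∧ C2 < c1 := by
  obtain ⟨k, hk⟩ := exists_nat_gt C2
  refine ⟨min (1 / (C1 + 1)) (1 / (20 * ((k + 10 : ℕ) + 10))), k + 10, ⟨?_, by omega, ?_⟩, ?_, ?_⟩
  · positivity
  · have h1 : min (1 / (C1 + 1)) (1 / (20 * (((k + 10 : ℕ) : ℝ) + 10))) ≤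
        1 / (20 * (((k + 10 : ℕ) : ℝ) + 10)) := min_le_right _ _
    have h2 : (0 : ℝ) < ((k + 10 : ℕ) : ℝ) + 10 := by positivity
    calc _ ≤ 1 / (20 * (((k + 10 : ℕ) : ℝ) + 10)) * (((k + 10 : ℕ) : ℝ) + 10) :=
          mul_le_mul_of_nonneg_right h1 h2.le
      _ = 1 / 20 := by field_simp
  · have h1 : min (1 / (C1 + 1)) (1 / (20 * (((k + 10 : ℕ) : ℝ) + 10))) ≤ 1 / (C1 + 1) :=
      min_le_left _ _
    calc _ ≤ C1 * (1 / (C1 + 1)) := mul_le_mul_of_nonneg_left h1 hC
      _ ≤ 1 := by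
        rw [mul_one_div, div_le_one (by positivity)]
        linarith
  · push_cast
    linarith

/-- Induction on the number of new edges. `hcomb` is the combinatorial theorem for the remaining
case. -/
theorem tlin_of_comb {Cl : Cls} {c0 q : ℝ} {V : Type} [Fintype V] (hp : Par Cl c0 q V)
    {η : ℝ} {c1 : ℕ} (hprm : Prm η c1)
    (hcomb : ∀ (m : ℕ) (B H : SimpleGraph V) (S : Finset V), Crt Cl c0 q (m + 1) B H →
      Good η c1 B H S → NoChord B H S → 2 ≤ (act H S).card →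
      (∀ s ∈ act H S, ∀ t ∈ act H S,
        Relation.ReflTransGen (fun p q => H.Adj p q ∧ p ∈ act H S ∧ q ∈ act H S) s t) →
      phi η c1 (act H S).card ≤ (pot B H S : ℝ)) :
    ∀ (m : ℕ) (B H : SimpleGraph V) (S : Finset V), Crt Cl c0 q m B H → Data B H S →
      phi η c1 (act H S).card ≤ (pot B H S : ℝ) := by
  intro m
  induction m with
  | zero => intro B H S h _; exact absurd h.not_zero id
  | succ m ih =>
    intro B H S h hd
    have hG : Good η c1 B H S := good_of_crt hp h hd ih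
    by_cases nc : NoChord B H S
    · have h0 := hG.n_pos nc
      rcases Nat.lt_or_ge (act H S).card 2 with h1 | h2
      · exact hG.one nc (by omega)
      · by_cases hc : ∀ s ∈ act H S, ∀ t ∈ act H S,
          Relation.ReflTransGen (fun p q => H.Adj p q ∧ p ∈ act H S ∧ q ∈ act H S) s t
        · exact hcomb m B H S h hG nc h2 hc
        · exact hG.of_not_conn hprm nc hc
    · exact hG.chord nc

/-- patch exclusion for one critical pair -/
theorem comb_of_noPatch {η : ℝ} {c1 : ℕ} (hprm : Prm η c1) (hC1 : (KC1 : ℝ) * η ≤ 1)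
    (hC2 : (KC2 : ℝ) < c1) {V : Type} [Fintype V] {B H : SimpleGraph V} {S : Finset V}
    (hG : Good η c1 B H S) (nc : NoChord B H S) (h2 : 2 ≤ (act H S).card)
    (hc : ∀ s ∈ act H S, ∀ t ∈ act H S,
      Relation.ReflTransGen (fun p q => H.Adj p q ∧ p ∈ act H S ∧ q ∈ act H S) s t)
    (hPl : Pl H) (hnp : NoPatch H S) : phi η c1 (act H S).card ≤ (pot B H S : ℝ) := by
  have hcard : 3 ≤ Fintype.card (Option {s : V // s ∈ act H S}) := by
    rw [Fintype.card_option, Fintype.card_coe]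
    omega
  obtain ⟨F, _, ⟨D⟩⟩ := exists_planeData hcard (twoC_gam hG.cut hc) (hPl.minor hG.data.minor)
  have ho : Outcome η c1 B H S := Pool.Agent.Helper15.U5.outcome_of_good hprm hG nc
  have h3 : 3 ≤ pot B H S := three_le_pot' D hG.data nc hG.deg5 hG.cut ho
  by_contra hcon
  push Not at hcon
  have h3' : (3 : ℝ) ≤ (pot B H S : ℝ) := by exact_mod_cast h3
  have hfin := final_arith (η := η) (c1 := c1) (n := (act H S).card) (p := (pot B H S : ℝ))
    (C1 := (KC1 : ℝ)) (C2 := (KC2 : ℝ)) hprm.pos (Nat.cast_nonneg _) hC1 hC2 h2 h3' (by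
      intro hlt
      exact card_le_of_dc D (triOK hG.cut) (dc_of_outcome D hG.deg5 hG.cut
        (fun u z z' y hr => (ho u z z' y hr).2 hcon hlt)) hnp hG.data nc)
  linarith

/-- The patch exclusion: no critical pair contains a flat patch of radius two. -/
def PatchFree (Cl : Cls) (c0 : ℝ) : Prop :=
  ∀ (q : ℝ) (V : Type) [Fintype V], Par Cl c0 q V → ∀ (m : ℕ) (B H : SimpleGraph V)
    (S : Finset V), Crt Cl c0 q m B H → Data B H S → NoPatch H S

/-- Theorem `T_lin`. -/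
theorem tlin {Cl : Cls} {c0 : ℝ} (hPl : ∀ (V : Type) [Fintype V] (G : SimpleGraph V),
    Cl.mem G → Pl G) (hpf : PatchFree Cl c0) :
    ∃ (η : ℝ) (c1 : ℕ), Prm η c1 ∧ TLin Cl c0 η c1 := by
  obtain ⟨η, c1, hprm, h1, h2⟩ := exists_prm (KC1 : ℝ) (KC2 : ℝ) (Nat.cast_nonneg _)
  refine ⟨η, c1, hprm, ?_⟩
  intro q V _ hp
  refine tlin_of_comb hp hprm ?_
  intro m B H S h hG nc h3 hc
  exact comb_of_noPatch hprm h1 h2 hG nc h3 hc (hPl V H h.mem) (hpf q V hp _ B H S h hG.data)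

end Pool.Agent.U5
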