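import Pool.Agent.U5.PatchPhi
import Pool.Agent.U5.Tlin

/-!
# The patch exclusion in terms of the lattice map
-/

set_option autoImplicit false

namespace Pool.Agent.U5

/-- The patch exclusion in terms of the lattice map `φ`: no critical pair contains the hexagon of
radius two of the triangular lattice, all vertices and their neighbours in `S`. -/
def PhiFree (Cl : Cls) (c0 : ℝ) : Prop :=
  ∀ (q : ℝ) (V : Type) [Fintype V], Par Cl c0 q V → ∀ (m : ℕ) (B H : SimpleGraph V)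
    (S : Finset V), Crt Cl c0 q m B H → Data B H S → ∀ φ : ℤ → ℤ → V,
    (∀ a b : ℤ, |a| ≤ 2 → |b| ≤ 2 → |a + b| ≤ 2 → Loc H φ a b) →
    (∀ a b : ℤ, |a| ≤ 3 → |b| ≤ 3 → |a + b| ≤ 3 → φ a b ∈ S) → False

theorem patchFree_of_phiFree {Cl : Cls} {c0 : ℝ} (h : PhiFree Cl c0) : PatchFree Cl c0 := by
  intro q V _ hp m B H S hc hd c r1 p2 q2 p3 a3 b3 hP h0 h1 h2 h3 h4 h5 h6
  obtain ⟨φ, hφ, hφ'⟩ := hP.exists_phi h0 h1 h2 h3 h4 h5 h6
  exact h q V hp m B H S hc hd φ hφ hφ'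

end Pool.Agent.U5
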