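import Pool.Agent.U5.Flat
import Pool.Agent.Helper42.U5.Dev

/-!
# The lattice map of a flat patch of radius two
-/

set_option autoImplicit false

namespace Pool.Agent.U5

variable {V : Type}

/-- the lattice map: the ball of radius three (elsewhere `c`) -/
def phiP (c : V) (r1 p2 q2 p3 a3 b3 : ZMod 6 → V) : ℤ → ℤ → V
  | -3, 0 => p3 3
  | -3, 1 => b3 2
  | -3, 2 => a3 2
  | -3, 3 => p3 2
  | -2, -1 => a3 3
  | -2, 0 => p2 3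
  | -2, 1 => q2 2
  | -2, 2 => p2 2
  | -2, 3 => b3 1
  | -1, -2 => b3 3
  | -1, -1 => q2 3
  | -1, 0 => r1 3
  | -1, 1 => r1 2
  | -1, 2 => q2 1
  | -1, 3 => a3 1
  | 0, -3 => p3 4
  | 0, -2 => p2 4
  | 0, -1 => r1 4
  | 0, 0 => c
  | 0, 1 => r1 1
  | 0, 2 => p2 1
  | 0, 3 => p3 1
  | 1, -3 => a3 4
  | 1, -2 => q2 4
  | 1, -1 => r1 5
  | 1, 0 => r1 0
  | 1, 1 => q2 0
  | 1, 2 => b3 0
  | 2, -3 => b3 4
  | 2, -2 => p2 5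
  | 2, -1 => q2 5
  | 2, 0 => p2 0
  | 2, 1 => a3 0
  | 3, -3 => p3 5
  | 3, -2 => a3 5
  | 3, -1 => b3 5
  | 3, 0 => p3 0
  | _, _ => c

lemma IsFrame.lab {H : SimpleGraph V} {v : V} {n : ZMod 6 → V} (h : IsFrame H v n) :
    Lab H v n := by
  refine ⟨h.inj, fun w => ?_, fun j k => ?_⟩
  · rw [h.adj]
    exact ⟨fun ⟨i, hi⟩ => ⟨i, hi.symm⟩, fun ⟨i, hi⟩ => ⟨i, hi.symm⟩⟩
  · rw [h.link]
    constructor
    · rintro (h1 | h1)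
      · exact Or.inl h1
      · exact Or.inr (by rw [h1, add_sub_cancel_right])
    · rintro (h1 | h1)
      · exact Or.inl h1
      · exact Or.inr (by rw [h1, sub_add_cancel])

lemma ext6 {f g : ZMod 6 → V} (h0 : f 0 = g 0) (h1 : f 1 = g 1) (h2 : f 2 = g 2) (h3 : f 3 = g 3)
    (h4 : f 4 = g 4) (h5 : f 5 = g 5) : f = g := by
  funext i
  fin_cases i
  · exact h0
  · exact h1
  · exact h2
  · exact h3
  · exact h4
  · exact h5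

section

variable {H : SimpleGraph V} {c : V} {r1 p2 q2 p3 a3 b3 : ZMod 6 → V}

lemma loc_c (hP : Patch H c r1 p2 q2 p3 a3 b3) :
    Loc H (phiP c r1 p2 q2 p3 a3 b3) (0) (0) := by
  have h : (fun i => phiP c r1 p2 q2 p3 a3 b3 (0 + ex i) (0 + ey i)) = r1 :=
    ext6 rfl rfl rfl rfl rfl rfl
  show Lab H _ (fun i => phiP c r1 p2 q2 p3 a3 b3 (0 + ex i) (0 + ey i))
  rw [h]
  exact hP.fc.lab

lemma loc_r1_0 (hP : Patch H c r1 p2 q2 p3 a3 b3) :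
    Loc H (phiP c r1 p2 q2 p3 a3 b3) (1) (0) := by
  obtain ⟨n, hn, h0, h1, h2, h3, h4, h5⟩ := hP.f1 0
  have h : (fun i => phiP c r1 p2 q2 p3 a3 b3 (1 + ex i) (0 + ey i)) = n :=
    ext6 h0.symm h1.symm h2.symm h3.symm h4.symm h5.symm
  show Lab H _ (fun i => phiP c r1 p2 q2 p3 a3 b3 (1 + ex i) (0 + ey i))
  rw [h]
  exact hn.lab

lemma loc_r1_1 (hP : Patch H c r1 p2 q2 p3 a3 b3) :
    Loc H (phiP c r1 p2 q2 p3 a3 b3) (0) (1) := by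
  obtain ⟨n, hn, h0, h1, h2, h3, h4, h5⟩ := hP.f1 1
  have h : (fun i => phiP c r1 p2 q2 p3 a3 b3 (0 + ex i) (1 + ey i)) = n :=
    ext6 h5.symm h0.symm h1.symm h2.symm h3.symm h4.symm
  show Lab H _ (fun i => phiP c r1 p2 q2 p3 a3 b3 (0 + ex i) (1 + ey i))
  rw [h]
  exact hn.lab

lemma loc_r1_2 (hP : Patch H c r1 p2 q2 p3 a3 b3) :
    Loc H (phiP c r1 p2 q2 p3 a3 b3) (-1) (1) := by
  obtain ⟨n, hn, h0, h1, h2, h3, h4, h5⟩ := hP.f1 2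
  have h : (fun i => phiP c r1 p2 q2 p3 a3 b3 (-1 + ex i) (1 + ey i)) = n :=
    ext6 h4.symm h5.symm h0.symm h1.symm h2.symm h3.symm
  show Lab H _ (fun i => phiP c r1 p2 q2 p3 a3 b3 (-1 + ex i) (1 + ey i))
  rw [h]
  exact hn.lab

lemma loc_r1_3 (hP : Patch H c r1 p2 q2 p3 a3 b3) :
    Loc H (phiP c r1 p2 q2 p3 a3 b3) (-1) (0) := by
  obtain ⟨n, hn, h0, h1, h2, h3, h4, h5⟩ := hP.f1 3
  have h : (fun i => phiP c r1 p2 q2 p3 a3 b3 (-1 + ex i) (0 + ey i)) = n :=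
    ext6 h3.symm h4.symm h5.symm h0.symm h1.symm h2.symm
  show Lab H _ (fun i => phiP c r1 p2 q2 p3 a3 b3 (-1 + ex i) (0 + ey i))
  rw [h]
  exact hn.lab

lemma loc_r1_4 (hP : Patch H c r1 p2 q2 p3 a3 b3) :
    Loc H (phiP c r1 p2 q2 p3 a3 b3) (0) (-1) := by
  obtain ⟨n, hn, h0, h1, h2, h3, h4, h5⟩ := hP.f1 4
  have h : (fun i => phiP c r1 p2 q2 p3 a3 b3 (0 + ex i) (-1 + ey i)) = n :=
    ext6 h2.symm h3.symm h4.symm h5.symm h0.symm h1.symm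
  show Lab H _ (fun i => phiP c r1 p2 q2 p3 a3 b3 (0 + ex i) (-1 + ey i))
  rw [h]
  exact hn.lab

lemma loc_r1_5 (hP : Patch H c r1 p2 q2 p3 a3 b3) :
    Loc H (phiP c r1 p2 q2 p3 a3 b3) (1) (-1) := by
  obtain ⟨n, hn, h0, h1, h2, h3, h4, h5⟩ := hP.f1 5
  have h : (fun i => phiP c r1 p2 q2 p3 a3 b3 (1 + ex i) (-1 + ey i)) = n :=
    ext6 h1.symm h2.symm h3.symm h4.symm h5.symm h0.symm
  show Lab H _ (fun i => phiP c r1 p2 q2 p3 a3 b3 (1 + ex i) (-1 + ey i))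
  rw [h]
  exact hn.lab

lemma loc_p2_0 (hP : Patch H c r1 p2 q2 p3 a3 b3) :
    Loc H (phiP c r1 p2 q2 p3 a3 b3) (2) (0) := by
  obtain ⟨n, hn, h0, h1, h2, h3, h4, h5⟩ := hP.f2 0
  have h : (fun i => phiP c r1 p2 q2 p3 a3 b3 (2 + ex i) (0 + ey i)) = n :=
    ext6 h0.symm h1.symm h2.symm h3.symm h4.symm h5.symm
  show Lab H _ (fun i => phiP c r1 p2 q2 p3 a3 b3 (2 + ex i) (0 + ey i))
  rw [h]
  exact hn.lab

lemma loc_p2_1 (hP : Patch H c r1 p2 q2 p3 a3 b3) :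
    Loc H (phiP c r1 p2 q2 p3 a3 b3) (0) (2) := by
  obtain ⟨n, hn, h0, h1, h2, h3, h4, h5⟩ := hP.f2 1
  have h : (fun i => phiP c r1 p2 q2 p3 a3 b3 (0 + ex i) (2 + ey i)) = n :=
    ext6 h5.symm h0.symm h1.symm h2.symm h3.symm h4.symm
  show Lab H _ (fun i => phiP c r1 p2 q2 p3 a3 b3 (0 + ex i) (2 + ey i))
  rw [h]
  exact hn.lab

lemma loc_p2_2 (hP : Patch H c r1 p2 q2 p3 a3 b3) :
    Loc H (phiP c r1 p2 q2 p3 a3 b3) (-2) (2) := by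
  obtain ⟨n, hn, h0, h1, h2, h3, h4, h5⟩ := hP.f2 2
  have h : (fun i => phiP c r1 p2 q2 p3 a3 b3 (-2 + ex i) (2 + ey i)) = n :=
    ext6 h4.symm h5.symm h0.symm h1.symm h2.symm h3.symm
  show Lab H _ (fun i => phiP c r1 p2 q2 p3 a3 b3 (-2 + ex i) (2 + ey i))
  rw [h]
  exact hn.lab

lemma loc_p2_3 (hP : Patch H c r1 p2 q2 p3 a3 b3) :
    Loc H (phiP c r1 p2 q2 p3 a3 b3) (-2) (0) := by
  obtain ⟨n, hn, h0, h1, h2, h3, h4, h5⟩ := hP.f2 3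
  have h : (fun i => phiP c r1 p2 q2 p3 a3 b3 (-2 + ex i) (0 + ey i)) = n :=
    ext6 h3.symm h4.symm h5.symm h0.symm h1.symm h2.symm
  show Lab H _ (fun i => phiP c r1 p2 q2 p3 a3 b3 (-2 + ex i) (0 + ey i))
  rw [h]
  exact hn.lab

lemma loc_p2_4 (hP : Patch H c r1 p2 q2 p3 a3 b3) :
    Loc H (phiP c r1 p2 q2 p3 a3 b3) (0) (-2) := by
  obtain ⟨n, hn, h0, h1, h2, h3, h4, h5⟩ := hP.f2 4
  have h : (fun i => phiP c r1 p2 q2 p3 a3 b3 (0 + ex i) (-2 + ey i)) = n :=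
    ext6 h2.symm h3.symm h4.symm h5.symm h0.symm h1.symm
  show Lab H _ (fun i => phiP c r1 p2 q2 p3 a3 b3 (0 + ex i) (-2 + ey i))
  rw [h]
  exact hn.lab

lemma loc_p2_5 (hP : Patch H c r1 p2 q2 p3 a3 b3) :
    Loc H (phiP c r1 p2 q2 p3 a3 b3) (2) (-2) := by
  obtain ⟨n, hn, h0, h1, h2, h3, h4, h5⟩ := hP.f2 5
  have h : (fun i => phiP c r1 p2 q2 p3 a3 b3 (2 + ex i) (-2 + ey i)) = n :=
    ext6 h1.symm h2.symm h3.symm h4.symm h5.symm h0.symm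
  show Lab H _ (fun i => phiP c r1 p2 q2 p3 a3 b3 (2 + ex i) (-2 + ey i))
  rw [h]
  exact hn.lab

lemma loc_q2_0 (hP : Patch H c r1 p2 q2 p3 a3 b3) :
    Loc H (phiP c r1 p2 q2 p3 a3 b3) (1) (1) := by
  obtain ⟨n, hn, h0, h1, h2, h3, h4, h5⟩ := hP.g2 0
  have h : (fun i => phiP c r1 p2 q2 p3 a3 b3 (1 + ex i) (1 + ey i)) = n :=
    ext6 h0.symm h1.symm h2.symm h3.symm h4.symm h5.symm
  show Lab H _ (fun i => phiP c r1 p2 q2 p3 a3 b3 (1 + ex i) (1 + ey i))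
  rw [h]
  exact hn.lab

lemma loc_q2_1 (hP : Patch H c r1 p2 q2 p3 a3 b3) :
    Loc H (phiP c r1 p2 q2 p3 a3 b3) (-1) (2) := by
  obtain ⟨n, hn, h0, h1, h2, h3, h4, h5⟩ := hP.g2 1
  have h : (fun i => phiP c r1 p2 q2 p3 a3 b3 (-1 + ex i) (2 + ey i)) = n :=
    ext6 h5.symm h0.symm h1.symm h2.symm h3.symm h4.symm
  show Lab H _ (fun i => phiP c r1 p2 q2 p3 a3 b3 (-1 + ex i) (2 + ey i))
  rw [h]
  exact hn.lab

lemma loc_q2_2 (hP : Patch H c r1 p2 q2 p3 a3 b3) :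
    Loc H (phiP c r1 p2 q2 p3 a3 b3) (-2) (1) := by
  obtain ⟨n, hn, h0, h1, h2, h3, h4, h5⟩ := hP.g2 2
  have h : (fun i => phiP c r1 p2 q2 p3 a3 b3 (-2 + ex i) (1 + ey i)) = n :=
    ext6 h4.symm h5.symm h0.symm h1.symm h2.symm h3.symm
  show Lab H _ (fun i => phiP c r1 p2 q2 p3 a3 b3 (-2 + ex i) (1 + ey i))
  rw [h]
  exact hn.lab

lemma loc_q2_3 (hP : Patch H c r1 p2 q2 p3 a3 b3) :
    Loc H (phiP c r1 p2 q2 p3 a3 b3) (-1) (-1) := by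
  obtain ⟨n, hn, h0, h1, h2, h3, h4, h5⟩ := hP.g2 3
  have h : (fun i => phiP c r1 p2 q2 p3 a3 b3 (-1 + ex i) (-1 + ey i)) = n :=
    ext6 h3.symm h4.symm h5.symm h0.symm h1.symm h2.symm
  show Lab H _ (fun i => phiP c r1 p2 q2 p3 a3 b3 (-1 + ex i) (-1 + ey i))
  rw [h]
  exact hn.lab

lemma loc_q2_4 (hP : Patch H c r1 p2 q2 p3 a3 b3) :
    Loc H (phiP c r1 p2 q2 p3 a3 b3) (1) (-2) := by
  obtain ⟨n, hn, h0, h1, h2, h3, h4, h5⟩ := hP.g2 4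
  have h : (fun i => phiP c r1 p2 q2 p3 a3 b3 (1 + ex i) (-2 + ey i)) = n :=
    ext6 h2.symm h3.symm h4.symm h5.symm h0.symm h1.symm
  show Lab H _ (fun i => phiP c r1 p2 q2 p3 a3 b3 (1 + ex i) (-2 + ey i))
  rw [h]
  exact hn.lab

lemma loc_q2_5 (hP : Patch H c r1 p2 q2 p3 a3 b3) :
    Loc H (phiP c r1 p2 q2 p3 a3 b3) (2) (-1) := by
  obtain ⟨n, hn, h0, h1, h2, h3, h4, h5⟩ := hP.g2 5
  have h : (fun i => phiP c r1 p2 q2 p3 a3 b3 (2 + ex i) (-1 + ey i)) = n :=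
    ext6 h1.symm h2.symm h3.symm h4.symm h5.symm h0.symm
  show Lab H _ (fun i => phiP c r1 p2 q2 p3 a3 b3 (2 + ex i) (-1 + ey i))
  rw [h]
  exact hn.lab

/-- all nineteen points -/
theorem Patch.loc (hP : Patch H c r1 p2 q2 p3 a3 b3) (a b : ℤ) (h1 : -2 ≤ a) (h2 : a ≤ 2)
    (h3 : -2 ≤ b) (h4 : b ≤ 2) (h5 : -2 ≤ a + b) (h6 : a + b ≤ 2) :
    Loc H (phiP c r1 p2 q2 p3 a3 b3) a b := by
  obtain rfl | rfl | rfl | rfl | rfl : a = -2 ∨ a = -1 ∨ a = 0 ∨ a = 1 ∨ a = 2 := by omega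
  · obtain rfl | rfl | rfl : b = 0 ∨ b = 1 ∨ b = 2 := by omega
    · exact loc_p2_3 hP
    · exact loc_q2_2 hP
    · exact loc_p2_2 hP
  · obtain rfl | rfl | rfl | rfl : b = -1 ∨ b = 0 ∨ b = 1 ∨ b = 2 := by omega
    · exact loc_q2_3 hP
    · exact loc_r1_3 hP
    · exact loc_r1_2 hP
    · exact loc_q2_1 hP
  · obtain rfl | rfl | rfl | rfl | rfl : b = -2 ∨ b = -1 ∨ b = 0 ∨ b = 1 ∨ b = 2 := by omega
    · exact loc_p2_4 hP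
    · exact loc_r1_4 hP
    · exact loc_c hP
    · exact loc_r1_1 hP
    · exact loc_p2_1 hP
  · obtain rfl | rfl | rfl | rfl : b = -2 ∨ b = -1 ∨ b = 0 ∨ b = 1 := by omega
    · exact loc_q2_4 hP
    · exact loc_r1_5 hP
    · exact loc_r1_0 hP
    · exact loc_q2_0 hP
  · obtain rfl | rfl | rfl : b = -2 ∨ b = -1 ∨ b = 0 := by omega
    · exact loc_p2_5 hP
    · exact loc_q2_5 hP
    · exact loc_p2_0 hP

/-- membership of the thirty-seven points -/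
theorem phiP_mem {S : Finset V} (hc : c ∈ S) (h1 : ∀ k, r1 k ∈ S) (h2 : ∀ k, p2 k ∈ S)
    (h3 : ∀ k, q2 k ∈ S) (h4 : ∀ k, p3 k ∈ S) (h5 : ∀ k, a3 k ∈ S) (h6 : ∀ k, b3 k ∈ S)
    (a b : ℤ) (ha1 : -3 ≤ a) (ha2 : a ≤ 3)
    (hb1 : -3 ≤ b) (hb2 : b ≤ 3) (hab1 : -3 ≤ a + b) (hab2 : a + b ≤ 3) :
    phiP c r1 p2 q2 p3 a3 b3 a b ∈ S := by
  obtain rfl | rfl | rfl | rfl | rfl | rfl | rfl : a = -3 ∨ a = -2 ∨ a = -1 ∨ a = 0 ∨ a = 1 ∨ a = 2 ∨ a = 3 := by omega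
  · obtain rfl | rfl | rfl | rfl : b = 0 ∨ b = 1 ∨ b = 2 ∨ b = 3 := by omega
    · exact h4 3
    · exact h6 2
    · exact h5 2
    · exact h4 2
  · obtain rfl | rfl | rfl | rfl | rfl : b = -1 ∨ b = 0 ∨ b = 1 ∨ b = 2 ∨ b = 3 := by omega
    · exact h5 3
    · exact h2 3
    · exact h3 2
    · exact h2 2
    · exact h6 1
  · obtain rfl | rfl | rfl | rfl | rfl | rfl : b = -2 ∨ b = -1 ∨ b = 0 ∨ b = 1 ∨ b = 2 ∨ b = 3 := by omega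
    · exact h6 3
    · exact h3 3
    · exact h1 3
    · exact h1 2
    · exact h3 1
    · exact h5 1
  · obtain rfl | rfl | rfl | rfl | rfl | rfl | rfl : b = -3 ∨ b = -2 ∨ b = -1 ∨ b = 0 ∨ b = 1 ∨ b = 2 ∨ b = 3 := by omega
    · exact h4 4
    · exact h2 4
    · exact h1 4
    · exact hc
    · exact h1 1
    · exact h2 1
    · exact h4 1
  · obtain rfl | rfl | rfl | rfl | rfl | rfl : b = -3 ∨ b = -2 ∨ b = -1 ∨ b = 0 ∨ b = 1 ∨ b = 2 := by omega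
    · exact h5 4
    · exact h3 4
    · exact h1 5
    · exact h1 0
    · exact h3 0
    · exact h6 0
  · obtain rfl | rfl | rfl | rfl | rfl : b = -3 ∨ b = -2 ∨ b = -1 ∨ b = 0 ∨ b = 1 := by omega
    · exact h6 4
    · exact h2 5
    · exact h3 5
    · exact h2 0
    · exact h5 0
  · obtain rfl | rfl | rfl | rfl : b = -3 ∨ b = -2 ∨ b = -1 ∨ b = 0 := by omega
    · exact h4 5
    · exact h5 5
    · exact h6 5
    · exact h4 0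

end

/-- From the patch of radius two to the developing map. -/
theorem Patch.exists_phi {H : SimpleGraph V} {c : V} {r1 p2 q2 p3 a3 b3 : ZMod 6 → V}
    (hP : Patch H c r1 p2 q2 p3 a3 b3) {S : Finset V} (hc : c ∈ S) (h1 : ∀ k, r1 k ∈ S)
    (h2 : ∀ k, p2 k ∈ S) (h3 : ∀ k, q2 k ∈ S) (h4 : ∀ k, p3 k ∈ S) (h5 : ∀ k, a3 k ∈ S)
    (h6 : ∀ k, b3 k ∈ S) :
    ∃ φ : ℤ → ℤ → V, (∀ a b : ℤ, |a| ≤ 2 → |b| ≤ 2 → |a + b| ≤ 2 → Loc H φ a b) ∧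
      ∀ a b : ℤ, |a| ≤ 3 → |b| ≤ 3 → |a + b| ≤ 3 → φ a b ∈ S := by
  refine ⟨phiP c r1 p2 q2 p3 a3 b3, ?_, ?_⟩
  · intro a b ha hb hab
    rw [abs_le] at ha hb hab
    exact hP.loc a b ha.1 ha.2 hb.1 hb.2 hab.1 hab.2
  · intro a b ha hb hab
    rw [abs_le] at ha hb hab
    exact phiP_mem hc h1 h2 h3 h4 h5 h6 a b ha.1 ha.2 hb.1 hb.2 hab.1 hab.2

end Pool.Agent.U5
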