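import Pool.Agent.U5.Defs

/-!
# Chromatic polynomials on one vertex type: deletion, contraction, reduction
-/

set_option autoImplicit false

namespace Pool.Agent.U5

open SimpleGraph Finset Polynomial Pool.Agent.Helper36.BL
open scoped Classical

lemma P_inst {V : Type} (i1 i2 : Fintype V) (q : ℝ) (G : SimpleGraph V) :
    @P q V i1 G = @P q V i2 G := by rw [Subsingleton.elim i1 i2]

section

variable {V : Type} [Fintype V]

lemma cnt_iso {W : Type} [Fintype W] {G : SimpleGraph V} {G' : SimpleGraph W} (e : G ≃g G')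
    (N : ℕ) : cnt G N = cnt G' N := by
  rw [← natCard_coloring, ← natCard_coloring]
  apply Nat.card_congr
  exact
    { toFun := fun c => c.comp e.symm.toHom
      invFun := fun c => c.comp e.toHom
      left_inv := fun c => by ext x; simp
      right_inv := fun c => by ext x; simp }

lemma cp_iso {W : Type} [Fintype W] {G : SimpleGraph V} {G' : SimpleGraph W} (e : G ≃g G') :
    cp G = cp G' := by
  apply poly_ext
  intro N
  rw [cp_eval, cp_eval, cnt_iso e]

lemma P_iso (q : ℝ) {W : Type} [Fintype W] {G : SimpleGraph V} {G' : SimpleGraph W}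
    (e : G ≃g G') : P q G = P q G' := by
  unfold P
  rw [cp_iso e]

lemma rec_f (q : ℝ) (G : SimpleGraph V) (w : V) (f : V → ℕ) (hf : Function.Injective f) :
    P q G = (q - deg G w) * P q (del G w) + ∑ p ∈ prs G w f, P q (mm G w f p) := by
  have h0 : cp G = (X - C (deg G w : ℝ)) * cp (del G w) + ∑ p ∈ prs G w f, cp (mm G w f p) := by
    apply poly_ext
    intro N
    have h := cnt_rec G w f hf N
    have h' : (cnt G N : ℝ) + deg G w * cnt (del G w) N =
        N * cnt (del G w) N + ∑ p ∈ prs G w f, (cnt (mm G w f p) N : ℝ) := by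
      exact_mod_cast h
    simp only [eval_add, eval_mul, eval_sub, eval_X, eval_C, eval_finsetSum, cp_eval]
    linarith
  have h := congrArg (eval q) h0
  simp only [eval_add, eval_mul, eval_sub, eval_X, eval_C, eval_finsetSum] at h
  exact h

lemma deg_eq_zero {G : SimpleGraph V} {u : V} (h : ∀ y, ¬ G.Adj u y) : deg G u = 0 := by
  classical
  unfold deg
  rw [Finset.card_eq_zero]
  apply Finset.eq_empty_of_forall_notMem
  intro y hy
  rw [Finset.mem_filter] at hy
  exact h y hy.2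

/-- an isolated vertex is a factor `q` -/
lemma P_isolated (q : ℝ) (G : SimpleGraph V) (u : V) (h : ∀ y, ¬ G.Adj u y) :
    P q G = q * P q (del G u) := by
  classical
  have h1 := rec_f q G u (lab V) lab_inj
  rw [deg_eq_zero h] at h1
  have h2 : prs G u (lab V) = ∅ := by
    apply Finset.eq_empty_of_forall_notMem
    intro p hp
    rw [mem_prs] at hp
    exact h _ hp.1.1
  rw [h2, Finset.sum_empty] at h1
  rw [h1]
  simp

lemma card_del_lt (u : V) [Fintype {x : V // x ≠ u}] :
    Fintype.card {x : V // x ≠ u} < Fintype.card V := by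
  have := card_del u
  omega

lemma P_pos_isolated {Cl : Cls} {q : ℝ} (hq : 0 < q) (hyp : Hyp Cl q (Fintype.card V))
    {G : SimpleGraph V} (hG : Cl.mem G) (u : V) (h : ∀ y, ¬ G.Adj u y) : 0 < P q G := by
  rw [P_isolated q G u h]
  exact mul_pos hq (hyp _ _ (Cl.minor (isMinor_del G u) hG) (card_del_lt u))

/-! ### deletion-contraction -/

lemma cnt_deleteEdge (G : SimpleGraph V) (a b : V) (hab : G.Adj a b) (N : ℕ) :
    cnt (G.deleteEdges {s(a, b)}) N = cnt G N + cnt (mg G a b ∅) N := by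
  have hmg : mg G a b ∅ = mg (G.deleteEdges {s(a, b)}) a b ∅ := by
    ext x y
    rw [mg_adj, mg_adj]
    simp only [deleteEdges_adj, Set.mem_singleton_iff, Set.mem_empty_iff_false, or_false,
      Sym2.eq_iff]
    constructor
    · rintro ⟨hne, h | ⟨hx, h⟩ | ⟨hy, h⟩⟩
      · refine ⟨hne, Or.inl ⟨h, ?_⟩⟩
        rintro (h' | h')
        · exact y.2 h'.2
        · exact x.2 h'.1
      · refine ⟨hne, Or.inr (Or.inl ⟨hx, h, ?_⟩)⟩
        rintro (h' | h')
        · exact y.2 h'.2
        · exact hne (Subtype.ext (hx.trans h'.2.symm))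
      · refine ⟨hne, Or.inr (Or.inr ⟨hy, h, ?_⟩)⟩
        rintro (h' | h')
        · exact x.2 h'.2
        · exact hne (Subtype.ext (h'.2.trans hy.symm))
    · rintro ⟨hne, h | ⟨hx, h⟩ | ⟨hy, h⟩⟩
      · exact ⟨hne, Or.inl h.1⟩
      · exact ⟨hne, Or.inr (Or.inl ⟨hx, h.1⟩)⟩
      · exact ⟨hne, Or.inr (Or.inr ⟨hy, h.1⟩)⟩
  have hna : ¬ (G.deleteEdges {s(a, b)}).Adj a b := by
    simp [deleteEdges_adj]
  have h1 := cnt_mg (G.deleteEdges {s(a, b)}) a b ∅ hab.ne hna (Set.notMem_empty _)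
    (Set.notMem_empty _) N
  rw [hmg]
  have h1' : cnt (mg (G.deleteEdges {s(a, b)}) a b ∅) N =
      ((cols (G.deleteEdges {s(a, b)}) N).filter (fun c => c a = c b)).card := by
    refine (cnt_inst _ _ _ _).trans (h1.trans ?_)
    congr 1
    ext c
    simp
  have h2 : cnt G N = ((cols (G.deleteEdges {s(a, b)}) N).filter (fun c => ¬ c a = c b)).card := by
    unfold cnt
    congr 1
    ext c
    rw [Finset.mem_filter, mem_cols, mem_cols]
    constructor
    · intro h
      exact ⟨fun x y hxy => h x y (by rw [deleteEdges_adj] at hxy; exact hxy.1), h a b hab⟩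
    · rintro ⟨h, h'⟩ x y hxy
      by_cases he : s(x, y) = s(a, b)
      · rw [Sym2.eq_iff] at he
        rcases he with ⟨rfl, rfl⟩ | ⟨rfl, rfl⟩
        · exact h'
        · exact fun h'' => h' h''.symm
      · exact h x y (by rw [deleteEdges_adj]; exact ⟨hxy, he⟩)
  rw [h1', h2, add_comm]
  unfold cnt
  exact (Finset.card_filter_add_card_filter_not _).symm

lemma P_deleteEdge (q : ℝ) (G : SimpleGraph V) (a b : V) (hab : G.Adj a b) :
    P q (G.deleteEdges {s(a, b)}) = P q G + @P q _ (Fintype.ofFinite _) (mg G a b ∅) := by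
  classical
  have h : cp (G.deleteEdges {s(a, b)}) = cp G + @cp _ (Fintype.ofFinite _) (mg G a b ∅) := by
    apply poly_ext
    intro N
    rw [eval_add, cp_eval, cp_eval, @cp_eval _ (Fintype.ofFinite _), cnt_deleteEdge G a b hab]
    push_cast
    congr 2
    exact cnt_inst _ _ _ _
  unfold P
  rw [h, eval_add]

lemma ned_deleteEdge {X Y : SimpleGraph V} {a b : V} (hY : Y.Adj a b) (hX : ¬ X.Adj a b) :
    ned (Y.deleteEdges {s(a, b)}) X + 1 = ned Y X := by
  classical
  unfold ned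
  have h1 : (Y.deleteEdges {s(a, b)}).edgeSet \ X.edgeSet =
      (Y.edgeSet \ X.edgeSet) \ {s(a, b)} := by
    rw [edgeSet_deleteEdges]
    ext e
    simp only [Set.mem_sdiff, Set.mem_singleton_iff]
    tauto
  rw [h1]
  exact Set.ncard_sdiff_singleton_add_one ⟨hY, hX⟩ (Set.toFinite _)

lemma ned_pos {X Y : SimpleGraph V} (h : X < Y) : 0 < ned Y X := by
  obtain ⟨e, he, he'⟩ := Set.exists_of_ssubset (edgeSet_ssubset_edgeSet.2 h)
  unfold ned
  rw [Set.ncard_pos (Set.toFinite _)]
  exact ⟨e, he, he'⟩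

/-- (M1): `P` is antitone -/
lemma P_anti {Cl : Cls} {q : ℝ} (hyp : Hyp Cl q (Fintype.card V)) (X : SimpleGraph V) :
    ∀ (n : ℕ) (Y : SimpleGraph V), ned Y X = n → X ≤ Y → Cl.mem Y →
      P q Y ≤ P q X ∧ (X < Y → P q Y < P q X) := by
  classical
  intro n
  induction n with
  | zero =>
    intro Y hn hXY hY
    have h1 : ¬ X < Y := fun h => by
      have := ned_pos h
      omega
    have h2 : X = Y := by
      by_contra hne
      exact h1 (lt_of_le_of_ne hXY hne)
    subst h2
    exact ⟨le_rfl, fun h => absurd h h1⟩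
  | succ n ih =>
    intro Y hn hXY hY
    have h1 : (Y.edgeSet \ X.edgeSet).Nonempty := by
      rw [← Set.ncard_pos (Set.toFinite _)]
      unfold ned at hn
      omega
    obtain ⟨e, he, he'⟩ := h1
    induction e with
    | _ a b =>
    have hYab : Y.Adj a b := he
    have hXab : ¬ X.Adj a b := he'
    have h2 : X ≤ Y.deleteEdges {s(a, b)} := by
      intro x y hxy
      rw [deleteEdges_adj]
      refine ⟨hXY hxy, ?_⟩
      intro h3
      rw [Set.mem_singleton_iff] at h3
      apply he'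
      rw [← h3]
      exact hxy
    have h3 := ih (Y.deleteEdges {s(a, b)}) (by have := ned_deleteEdge hYab hXab; omega) h2
      (Cl.minor (IsMinor.of_le (deleteEdges_le _)) hY)
    have h4 := P_deleteEdge q Y a b hYab
    have h5 : 0 < @P q _ (Fintype.ofFinite _) (mg Y a b ∅) := by
      refine @hyp _ (Fintype.ofFinite _) (mg Y a b ∅) (Cl.minor (isMinor_mg_edge Y a b hYab) hY) ?_
      exact @card_del_lt V _ b (Fintype.ofFinite _)
    constructor
    · linarith [h3.1]
    · intro _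
      linarith [h3.1]

lemma P_le {Cl : Cls} {q : ℝ} (hyp : Hyp Cl q (Fintype.card V)) {X Y : SimpleGraph V}
    (hXY : X ≤ Y) (hY : Cl.mem Y) : P q Y ≤ P q X :=
  (P_anti hyp X _ Y rfl hXY hY).1

lemma P_lt {Cl : Cls} {q : ℝ} (hyp : Hyp Cl q (Fintype.card V)) {X Y : SimpleGraph V}
    (hXY : X < Y) (hY : Cl.mem Y) : P q Y < P q X :=
  (P_anti hyp X _ Y rfl hXY.le hY).2 hXY

/-! ### vertex deletion -/

lemma del_dl (G : SimpleGraph V) (u : V) : del (dl G {u}) u = del G u := by
  ext x y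
  simp only [del_adj, dl_adj, Finset.mem_singleton]
  exact ⟨fun h => h.1, fun h => ⟨h, x.2, y.2⟩⟩

lemma P_dl (q : ℝ) (G : SimpleGraph V) (u : V) : P q (dl G {u}) = q * P q (del G u) := by
  rw [P_isolated q (dl G {u}) u (fun y h => h.2.1 (Finset.mem_singleton_self u)), del_dl]

lemma del_red (G : SimpleGraph V) (u z z' : V) (hz : z ≠ u) (hz' : z' ≠ u) :
    del (del (red G u z z') u) ⟨z', hz'⟩ = mg (del G u) ⟨z, hz⟩ ⟨z', hz'⟩ ∅ := by
  ext x y
  rw [mg_adj]
  simp only [del_adj, red_adj, Set.mem_empty_iff_false, or_false]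
  have hx : ((x : {x : V // x ≠ u}) : V) ≠ z' := fun h => x.2 (Subtype.ext h)
  have hy : ((y : {x : V // x ≠ u}) : V) ≠ z' := fun h => y.2 (Subtype.ext h)
  constructor
  · rintro ⟨h1, -, -, -, -, h | ⟨h2, h3⟩ | ⟨h2, h3⟩⟩
    · exact ⟨fun h' => h1 (by rw [h']), Or.inl h⟩
    · exact ⟨fun h' => h1 (by rw [h']), Or.inr (Or.inl ⟨Subtype.ext h2, h3⟩)⟩
    · exact ⟨fun h' => h1 (by rw [h']), Or.inr (Or.inr ⟨Subtype.ext h2, h3⟩)⟩
  · rintro ⟨h1, h | ⟨h2, h3⟩ | ⟨h2, h3⟩⟩
    · exact ⟨fun h' => h1 (Subtype.ext (Subtype.ext h')), x.1.2, y.1.2, hx, hy, Or.inl h⟩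
    · exact ⟨fun h' => h1 (Subtype.ext (Subtype.ext h')), x.1.2, y.1.2, hx, hy,
        Or.inr (Or.inl ⟨congrArg Subtype.val h2, h3⟩)⟩
    · exact ⟨fun h' => h1 (Subtype.ext (Subtype.ext h')), x.1.2, y.1.2, hx, hy,
        Or.inr (Or.inr ⟨congrArg Subtype.val h2, h3⟩)⟩

lemma P_red (q : ℝ) (G : SimpleGraph V) (u z z' : V) (hz : z ≠ u) (hz' : z' ≠ u) :
    P q (red G u z z') = q ^ 2 * P q (mg (del G u) ⟨z, hz⟩ ⟨z', hz'⟩ ∅) := by
  rw [P_isolated q (red G u z z') u (fun y h => h.2.1 rfl),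
    P_isolated q (del (red G u z z') u) ⟨z', hz'⟩ (fun y h => h.2.2.2.1 rfl),
    ← del_red G u z z' hz hz', ← mul_assoc, ← pow_two]
  exact congrArg (fun t => q ^ 2 * t) (P_inst _ _ q _)

/-- the recursion at `u` -/
lemma P_ge_dl {Cl : Cls} {q : ℝ} (hq : 0 ≤ q) (hyp : Hyp Cl q (Fintype.card V))
    {G : SimpleGraph V} (hG : Cl.mem G) (u : V) :
    (q - deg G u) * P q (dl G {u}) ≤ q * P q G := by
  have h1 := rec_f q G u (lab V) lab_inj
  have h2 : 0 ≤ ∑ p ∈ prs G u (lab V), P q (mm G u (lab V) p) := by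
    apply Finset.sum_nonneg
    intro p hp
    refine (hyp _ _ (Cl.minor (isMinor_mm G u (lab V) p hp) hG) ?_).le
    have := card_mm u p.2
    omega
  rw [P_dl, h1]
  nlinarith [mul_nonneg hq h2]

/-- the recursion at `u` with a nonadjacent pair of neighbours -/
lemma P_ge_red {Cl : Cls} {q : ℝ} (hq : 0 ≤ q) (hyp : Hyp Cl q (Fintype.card V))
    {G : SimpleGraph V} (hG : Cl.mem G) {u z z' : V} (hz : G.Adj u z) (hz' : G.Adj u z')
    (hne : z ≠ z') (hna : ¬ G.Adj z z') :
    q * (q - deg G u) * P q (dl G {u}) + P q (red G u z z') ≤ q ^ 2 * P q G := by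
  set f : V → ℕ := fun x => if x = z then 0 else if x = z' then 1 else lab V x + 2 with hf
  have hfz : f z = 0 := by simp [hf]
  have hfz' : f z' = 1 := by simp [hf, hne.symm]
  have hfi : Function.Injective f := by
    intro x y hxy
    simp only [hf] at hxy
    by_cases hx : x = z
    · by_cases hy : y = z
      · rw [hx, hy]
      · exfalso
        rw [if_pos hx, if_neg hy] at hxy
        split_ifs at hxy <;> omega
    · by_cases hy : y = z
      · exfalso
        rw [if_neg hx, if_pos hy] at hxy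
        split_ifs at hxy <;> omega
      · rw [if_neg hx, if_neg hy] at hxy
        by_cases hx' : x = z'
        · by_cases hy' : y = z'
          · rw [hx', hy']
          · exfalso
            rw [if_pos hx', if_neg hy'] at hxy
            omega
        · by_cases hy' : y = z'
          · exfalso
            rw [if_neg hx', if_pos hy'] at hxy
            omega
          · rw [if_neg hx', if_neg hy'] at hxy
            exact lab_inj (by omega)
  have hzu : z ≠ u := hz.ne'
  have hzu' : z' ≠ u := hz'.ne'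
  have h1 := rec_f q G u f hfi
  have hp0 : ((⟨z, hzu⟩, ⟨z', hzu'⟩) : {x : V // x ≠ u} × {x : V // x ≠ u}) ∈ prs G u f := by
    rw [mem_prs]
    exact ⟨⟨hz, hz', by rw [hfz, hfz']; norm_num⟩, hna⟩
  have h2 : P q (mm G u f (⟨z, hzu⟩, ⟨z', hzu'⟩)) ≤ ∑ p ∈ prs G u f, P q (mm G u f p) := by
    refine Finset.single_le_sum (f := fun p => P q (mm G u f p)) ?_ hp0
    intro p hp
    refine (hyp _ _ (Cl.minor (isMinor_mm G u f p hp) hG) ?_).le
    have := card_mm u p.2
    omega
  have h3 : mm G u f (⟨z, hzu⟩, ⟨z', hzu'⟩) = mg (del G u) ⟨z, hzu⟩ ⟨z', hzu'⟩ ∅ := by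
    unfold mm
    congr 1
    ext m
    unfold Fset
    simp only [Set.mem_ofPred_eq, Set.mem_empty_iff_false, iff_false]
    rintro ⟨_, h4, h5⟩
    rw [hfz] at h4
    rw [hfz'] at h5
    omega
  have h4 : P q (red G u z z') ≤ q ^ 2 * ∑ p ∈ prs G u f, P q (mm G u f p) := by
    rw [P_red q G u z z' hzu hzu']
    refine mul_le_mul_of_nonneg_left ?_ (by positivity)
    refine le_trans (le_of_eq ?_) h2
    rw [h3]
  have h5 : P q G * q ^ 2 = ((q - deg G u) * P q (del G u)) * q ^ 2 +
      q ^ 2 * ∑ p ∈ prs G u f, P q (mm G u f p) := by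
    rw [h1]
    ring
  have h6 : q * (q - deg G u) * P q (dl G {u}) = ((q - deg G u) * P q (del G u)) * q ^ 2 := by
    rw [P_dl]
    ring
  rw [h6]
  linarith

end

end Pool.Agent.U5
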