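import Pool.Agent.U5.Final
import Pool.Agent.U5.DrawPl

/-!
# The final statement, from the remaining inputs
-/

set_option autoImplicit false

namespace Pool.Agent.U5

open SimpleGraph Polynomial Pool.Agent.Helper36.BL Pool.Agent.Helper1.PG

/-- The graph `H` is drawn in the plane: the vertices are different points, the edges are injective
arcs that pass through no further vertex, and arcs of different edges have disjoint interiors. -/
def Drawn {V : Type} (H : SimpleGraph V) : Prop :=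
  ∃ (f : V → ℝ × ℝ) (γ : V → V → ℝ → ℝ × ℝ),
    Function.Injective f ∧
    (∀ u v : V, H.Adj u v →
      ContinuousOn (γ u v) (Set.Icc (0 : ℝ) 1) ∧ Set.InjOn (γ u v) (Set.Icc (0 : ℝ) 1) ∧
      γ u v 0 = f u ∧ γ u v 1 = f v ∧
      ∀ t ∈ Set.Ioo (0 : ℝ) 1, ∀ w : V, γ u v t ≠ f w) ∧
    (∀ u v u' v' : V, H.Adj u v → H.Adj u' v' → s(u, v) ≠ s(u', v') →
      ∀ t ∈ Set.Ioo (0 : ℝ) 1, ∀ t' ∈ Set.Ioo (0 : ℝ) 1, γ u v t ≠ γ u' v' t')

/-- Uniform gap below five for planar graphs, with an exponential lower bound. -/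
theorem gap_final
    (hpf : ∃ c0 : ℝ, 0 < c0 ∧ PhiFree plCls c0) :
    ∃ ε δ : ℝ, 0 < ε ∧ 0 < δ ∧ ∀ (V : Type) [Fintype V] (G : SimpleGraph V), Drawn G →
      ∀ p : Polynomial ℝ, (∀ n : ℕ, p.eval (n : ℝ) = (Nat.card (G.Coloring (Fin n)) : ℝ)) →
        ∀ q : ℝ, 5 - ε < q → δ ^ Fintype.card V ≤ p.eval q := by
  obtain ⟨ε, δ, hε, hδ, h⟩ := gap_of_phiFree hpf
  refine ⟨ε, δ, hε, hδ, ?_⟩
  intro V _ G hG p hp q hq
  have e : p = cp G := by
    apply poly_ext
    intro n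
    rw [hp n, natCard_coloring, cp_eval]
  rw [e]
  exact h q hq V G (pl_of_planar G hG)

end Pool.Agent.U5
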